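import Pool.Agent.Helper819.Desc

/-!
Definitions for the singular locus of the moduli space of endomorphisms of projective space:
invariants, the local ring of the quotient, evaluation at points over extensions.
-/

open MvPolynomial

namespace Pool.Agent.H919M

open Pool.Agent.Helper819.Dyn Pool.Agent.Helper819.Apolar

noncomputable section

set_option linter.unusedSectionVars false

variable {k : Type} [Field k] {N d : ℕ}

/-- Only scalar matrices fix `f`. -/
def Free (f : Ix N d → k) : Prop :=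
  ∀ A : Matrix (Fin (N + 1)) (Fin (N + 1)) k, A.det ≠ 0 → actT A f = f →
    ∃ μ : k, A = μ • (1 : Matrix (Fin (N + 1)) (Fin (N + 1)) k)

/-- `P` is a homogeneous polynomial of degree `δ` in the coefficients, invariant under the special
linear group. -/
def IsInv (δ : ℕ) (P : SS k N d) : Prop :=
  P.IsHomogeneous δ ∧ ∀ (A : Matrix (Fin (N + 1)) (Fin (N + 1)) k) (c : Ix N d → k),
    A.det = 1 → eval (actT A c) P = eval c P

theorem IsInv.mul {δ ε : ℕ} {P Q : SS k N d} (hP : IsInv δ P) (hQ : IsInv ε Q) :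
    IsInv (δ + ε) (P * Q) :=
  ⟨hP.1.mul hQ.1, fun A c hA => by rw [map_mul, map_mul, hP.2 A c hA, hQ.2 A c hA]⟩

theorem IsInv.add {δ : ℕ} {P Q : SS k N d} (hP : IsInv δ P) (hQ : IsInv δ Q) :
    IsInv δ (P + Q) :=
  ⟨hP.1.add hQ.1, fun A c hA => by rw [map_add, map_add, hP.2 A c hA, hQ.2 A c hA]⟩

theorem IsInv.const (a : k) : IsInv 0 (C a : SS k N d) :=
  ⟨isHomogeneous_C _ _, fun A c _ => by rw [eval_C, eval_C]⟩

/-- The maximal ideal of the point `f`. -/
def mf (f : Ix N d → k) : Ideal (SS k N d) := RingHom.ker (eval f)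

instance (f : Ix N d → k) : (mf f).IsPrime := RingHom.ker_isPrime _

theorem mem_mf (f : Ix N d → k) (P : SS k N d) : P ∈ mf f ↔ eval f P = 0 := Iff.rfl

/-- The local ring at `f` of the affine space of coefficient vectors. -/
abbrev LV (f : Ix N d → k) : Type := Localization.AtPrime (mf f)

/-- The fractions `a / b` with `a`, `b` homogeneous invariants of the same degree and
`b(f) ≠ 0`. -/
def OO (f : Ix N d → k) : Subalgebra k (LV f) where
  carrier := {x | ∃ (δ : ℕ) (a b : SS k N d), IsInv δ a ∧ IsInv δ b ∧ eval f b ≠ 0 ∧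
    x * algebraMap (SS k N d) (LV f) b = algebraMap (SS k N d) (LV f) a}
  mul_mem' := by
    rintro x y ⟨δ, a, b, ha, hb, hb0, hx⟩ ⟨ε, a', b', ha', hb', hb0', hy⟩
    refine ⟨δ + ε, a * a', b * b', ha.mul ha', hb.mul hb', ?_, ?_⟩
    · rw [map_mul]; exact mul_ne_zero hb0 hb0'
    · rw [map_mul, map_mul, ← hx, ← hy]; ring
  add_mem' := by
    rintro x y ⟨δ, a, b, ha, hb, hb0, hx⟩ ⟨ε, a', b', ha', hb', hb0', hy⟩
    refine ⟨δ + ε, a * b' + b * a', b * b', (ha.mul hb').add (hb.mul ha'), hb.mul hb', ?_, ?_⟩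
    · rw [map_mul]; exact mul_ne_zero hb0 hb0'
    · rw [map_mul, map_add, map_mul, map_mul, ← hx, ← hy]; ring
  algebraMap_mem' := by
    intro r
    refine ⟨0, C r, C 1, IsInv.const r, IsInv.const 1, by rw [eval_C]; exact one_ne_zero, ?_⟩
    rw [C_1, map_one, mul_one]
    rw [IsScalarTower.algebraMap_apply k (SS k N d) (LV f)]
    rfl

theorem mem_OO (f : Ix N d → k) (x : LV f) : x ∈ OO f ↔
    ∃ (δ : ℕ) (a b : SS k N d), IsInv δ a ∧ IsInv δ b ∧ eval f b ≠ 0 ∧
      x * algebraMap (SS k N d) (LV f) b = algebraMap (SS k N d) (LV f) a := Iff.rfl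

/-- `y` specialises to `f`. -/
def Spz {Ω : Type} [Field Ω] [Algebra k Ω] (f : Ix N d → k) (y : Ix N d → Ω) : Prop :=
  ∀ P : SS k N d, aeval y P = 0 → eval f P = 0

/-- Evaluation of elements of `LV f` at a point of a `k`-algebra at which the elements outside
`mf f` are units. -/
def evS {S : Type} [CommRing S] [Algebra k S] (f : Ix N d → k) (z : Ix N d → S)
    (hz : ∀ P : SS k N d, eval f P ≠ 0 → IsUnit (aeval z P)) : LV f →+* S :=
  IsLocalization.lift (M := (mf f).primeCompl) (g := (aeval z : SS k N d →ₐ[k] S).toRingHom)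
    (fun P => hz P.1 (fun h => P.2 h))

theorem evS_algebraMap {S : Type} [CommRing S] [Algebra k S] (f : Ix N d → k) (z : Ix N d → S)
    (hz : ∀ P : SS k N d, eval f P ≠ 0 → IsUnit (aeval z P)) (P : SS k N d) :
    evS f z hz (algebraMap (SS k N d) (LV f) P) = aeval z P :=
  IsLocalization.lift_eq _ P

theorem spz_unit {Ω : Type} [Field Ω] [Algebra k Ω] {f : Ix N d → k} {y : Ix N d → Ω}
    (h : Spz f y) (P : SS k N d) (hP : eval f P ≠ 0) : IsUnit (aeval y P) :=
  isUnit_iff_ne_zero.mpr fun h0 => hP (h P h0)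

theorem spz_unit_dual {Ω : Type} [Field Ω] [Algebra k Ω] {f : Ix N d → k} {y : Ix N d → Ω}
    (h : Spz f y) (v : Ix N d → Ω) (P : SS k N d) (hP : eval f P ≠ 0) :
    IsUnit (aeval (fun p => algebraMap Ω (DualNumber Ω) (y p) +
      DualNumber.eps * algebraMap Ω (DualNumber Ω) (v p)) P) := by
  rw [aeval_dual, TrivSqZeroExt.isUnit_iff_isUnit_fst, fst_form]
  exact spz_unit h P hP

/-- Evaluation at a point over an extension field. -/
def evP {Ω : Type} [Field Ω] [Algebra k Ω] {f : Ix N d → k} {y : Ix N d → Ω}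
    (h : Spz f y) : LV f →+* Ω := evS f y (spz_unit h)

/-- Evaluation at a tangent vector over an extension field. -/
def evD {Ω : Type} [Field Ω] [Algebra k Ω] {f : Ix N d → k} {y : Ix N d → Ω}
    (h : Spz f y) (v : Ix N d → Ω) : LV f →+* DualNumber Ω := evS f _ (spz_unit_dual h v)

/-- The derivative at `y` in the direction `v`. -/
def der {Ω : Type} [Field Ω] [Algebra k Ω] {f : Ix N d → k} {y : Ix N d → Ω}
    (h : Spz f y) (v : Ix N d → Ω) (x : LV f) : Ω := TrivSqZeroExt.snd (evD h v x)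

/-- The directional derivative of a polynomial over `k` at a point over an extension. -/
def dda {Ω : Type} [CommRing Ω] [Algebra k Ω] (P : SS k N d) (y v : Ix N d → Ω) : Ω :=
  ∑ p, v p * aeval y (pderiv p P)

theorem evP_algebraMap {Ω : Type} [Field Ω] [Algebra k Ω] {f : Ix N d → k} {y : Ix N d → Ω}
    (h : Spz f y) (P : SS k N d) : evP h (algebraMap (SS k N d) (LV f) P) = aeval y P :=
  evS_algebraMap _ _ _ _

theorem der_algebraMap {Ω : Type} [Field Ω] [Algebra k Ω] {f : Ix N d → k} {y : Ix N d → Ω}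
    (h : Spz f y) (v : Ix N d → Ω) (P : SS k N d) :
    der h v (algebraMap (SS k N d) (LV f) P) = dda P y v := by
  unfold der evD
  rw [evS_algebraMap, aeval_dual, snd_form]
  rfl

theorem fst_evD {Ω : Type} [Field Ω] [Algebra k Ω] {f : Ix N d → k} {y : Ix N d → Ω}
    (h : Spz f y) (v : Ix N d → Ω) (x : LV f) :
    TrivSqZeroExt.fst (evD h v x) = evP h x := by
  have h1 : ((TrivSqZeroExt.fstHom Ω Ω Ω).toRingHom).comp (evD h v) = evP h := by
    apply IsLocalization.ringHom_ext (mf f).primeCompl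
    ext P
    · simp only [RingHom.comp_apply]
      change TrivSqZeroExt.fst (evD h v (algebraMap _ _ (C P))) = evP h (algebraMap _ _ (C P))
      unfold evD evP
      rw [evS_algebraMap, evS_algebraMap, aeval_dual, fst_form]
    · simp only [RingHom.comp_apply]
      change TrivSqZeroExt.fst (evD h v (algebraMap _ _ (X P))) = evP h (algebraMap _ _ (X P))
      unfold evD evP
      rw [evS_algebraMap, evS_algebraMap, aeval_dual, fst_form]
  exact congrFun (congrArg DFunLike.coe h1) x

theorem der_add {Ω : Type} [Field Ω] [Algebra k Ω] {f : Ix N d → k} {y : Ix N d → Ω}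
    (h : Spz f y) (v : Ix N d → Ω) (x x' : LV f) :
    der h v (x + x') = der h v x + der h v x' := by
  unfold der
  rw [map_add, TrivSqZeroExt.snd_add]

theorem der_mul {Ω : Type} [Field Ω] [Algebra k Ω] {f : Ix N d → k} {y : Ix N d → Ω}
    (h : Spz f y) (v : Ix N d → Ω) (x x' : LV f) :
    der h v (x * x') = evP h x * der h v x' + evP h x' * der h v x := by
  unfold der
  rw [map_mul, DualNumber.snd_mul, fst_evD, fst_evD]
  ring

end

end Pool.Agent.H919M
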