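import Pool.Agent.H919M.ProjIso

/-!
The moduli scheme `M_d^N = End_d^N / PGL_{N+1}` as an open subscheme of `Proj` of the invariants
of `SL_{N+1}`, and the class of an endomorphism.
-/

open MvPolynomial AlgebraicGeometry

namespace Pool.Agent.H919M

open Pool.Agent.Helper819.Dyn Pool.Agent.Helper819.Apolar

noncomputable section

set_option linter.unusedSectionVars false

variable (k : Type) [Field k] [IsAlgClosed k] [CharZero k] (N d : ℕ)

/-- The open subset of `Proj` of the invariants which is the union of the basic open sets `D₊(R)`,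
where `R` runs over the homogeneous invariants of positive degree which vanish at every tuple of
forms having a nontrivial common zero. -/
def endOpen : (Proj (grd k N d)).Opens :=
  ⨆ R : {R : IR k N d // (∃ δ : ℕ, 0 < δ ∧ R ∈ grd k N d δ) ∧
    ∀ c : Ix N d → k, eval c (vl R) ≠ 0 → NZ (tup c)},
    Proj.basicOpen (grd k N d) R.1

/-- The moduli scheme of degree `d` endomorphisms of `ℙ^N`. -/
def ModuliScheme : Scheme.{0} := (endOpen k N d).toScheme

variable {k N d}

/-- The tuple of coefficients of an endomorphism. -/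
def cft (F : EndTuple k N d) : Ix N d → k := cf F.1

theorem tup_cft (F : EndTuple k N d) : tup (cft F) = F.1 :=
  tup_cf ((isEnd_iff_NZ F.1).mp F.2).1

theorem NZ_cft (F : EndTuple k N d) : NZ (tup (cft F)) := by
  rw [tup_cft]
  exact ((isEnd_iff_NZ F.1).mp F.2).2

theorem pt_mem (hd : 2 ≤ d) (f : Ix N d → k) (hf : NZ (tup f)) :
    (pt hd f hf : Proj (grd k N d)) ∈ endOpen k N d := by
  obtain ⟨w, R, h1, h2, h3⟩ := exists_semi_NZ hd hf
  have h0 : eval 0 R = 0 := by
    by_contra hne
    have h4 := h3 0 hne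
    have h5 := h4 (fun _ => 1) (by
      intro i
      have : tup (0 : Ix N d → k) i = 0 := by
        unfold tup
        simp
      rw [this, map_zero])
    exact one_ne_zero (congrFun h5 0)
  obtain ⟨δ, hδ, hh⟩ := semi_homog hd h1 h2 h0
  have hR : R ∈ inv k N d := by
    intro A c hA
    rw [h1 A c, hA, one_pow, one_mul]
  refine TopologicalSpace.Opens.mem_iSup.mpr
    ⟨⟨mkI R hR, ⟨δ, hδ, (mem_grd _).mpr hh⟩, h3⟩, ?_⟩
  exact notMem_of_eval f (i := δ) ((mem_grd _).mpr hh) h2

/-- The class of an endomorphism in the moduli scheme: the homogeneous prime ideal of the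
invariants vanishing at it. -/
def modCls (hd : 2 ≤ d) (F : EndTuple k N d) : ModuliScheme k N d :=
  (⟨pt hd (cft F) (NZ_cft F), pt_mem hd (cft F) (NZ_cft F)⟩ : endOpen k N d)

theorem isoModuli (hd : 2 ≤ d) (F : EndTuple k N d) :
    Nonempty (((ModuliScheme k N d).presheaf.stalk (modCls hd F)) ≃+* OO (cft F)) := by
  obtain ⟨e⟩ := isoStalk hd (cft F) (NZ_cft F)
  exact ⟨(((endOpen k N d).stalkIso
    ⟨pt hd (cft F) (NZ_cft F), pt_mem hd (cft F) (NZ_cft F)⟩).commRingCatIsoToRingEquiv).trans e⟩

end

end Pool.Agent.H919M
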