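import Pool.Agent.H919M.Defs

/-!
The scheme `Proj` of the ring of invariants of the special linear group on the coefficient space
of `(N+1)`-tuples of forms of degree `d`, and its points given by tuples.
-/

open MvPolynomial

namespace Pool.Agent.H919M

open Pool.Agent.Helper819.Dyn Pool.Agent.Helper819.Apolar

noncomputable section

set_option linter.unusedSectionVars false

variable (k : Type) [Field k] (N d : ℕ)

/-- The algebra of polynomials in the coefficients which are invariant under conjugation by
matrices of determinant one. -/
def inv : Subalgebra k (SS k N d) where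
  carrier := {P | ∀ (A : Matrix (Fin (N + 1)) (Fin (N + 1)) k) (c : Ix N d → k),
    A.det = 1 → eval (actT A c) P = eval c P}
  mul_mem' := by
    intro P Q hP hQ A c hA
    rw [map_mul, map_mul, hP A c hA, hQ A c hA]
  add_mem' := by
    intro P Q hP hQ A c hA
    rw [map_add, map_add, hP A c hA, hQ A c hA]
  algebraMap_mem' := by
    intro r A c _
    rw [algebraMap_eq, eval_C, eval_C]

/-- The ring of invariants. -/
def IR : Type := inv k N d

/-- The ring structure of the ring of invariants. -/
def ringIR : CommRing (IR k N d) := Subalgebra.toCommRing (inv k N d)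

instance commRing_IR : CommRing (IR k N d) := ringIR k N d

/-- The algebra structure of the ring of invariants. -/
def algIR : Algebra k (IR k N d) := Subalgebra.algebra (inv k N d)

instance algebra_IR : Algebra k (IR k N d) := algIR k N d

/-- An invariant as a polynomial in the coefficients. -/
def toPoly : IR k N d →ₐ[k] SS k N d := (inv k N d).val

/-- The grading of the ring of invariants by the degree. -/
def grd (i : ℕ) : Submodule k (IR k N d) :=
  Submodule.comap (toPoly k N d).toLinearMap (homogeneousSubmodule (Ix N d) k i)

variable {k N d}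

/-- coercion -/
abbrev vl (P : IR k N d) : SS k N d := toPoly k N d P

/-- an invariant polynomial as an element of the ring of invariants -/
def mkI (P : SS k N d) (hP : P ∈ inv k N d) : IR k N d := (⟨P, hP⟩ : inv k N d)

theorem vl_mkI (P : SS k N d) (hP : P ∈ inv k N d) : vl (mkI P hP) = P := rfl

theorem vl_inj {P Q : IR k N d} (h : vl P = vl Q) : P = Q := Subtype.ext h

theorem vl_mem (P : IR k N d) : vl P ∈ inv k N d := Subtype.prop (p := fun x => x ∈ inv k N d) P

theorem mem_inv (P : SS k N d) : P ∈ inv k N d ↔
    ∀ (A : Matrix (Fin (N + 1)) (Fin (N + 1)) k) (c : Ix N d → k),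
      A.det = 1 → eval (actT A c) P = eval c P := Iff.rfl

theorem mem_grd {i : ℕ} (P : IR k N d) : P ∈ grd k N d i ↔ (vl P).IsHomogeneous i := by
  unfold grd
  rw [Submodule.mem_comap, mem_homogeneousSubmodule]
  rfl

theorem comp_mem_inv [Infinite k] {P : SS k N d} (hP : P ∈ inv k N d) (i : ℕ) :
    homogeneousComponent i P ∈ inv k N d := by
  intro A c hA
  -- compare coefficients of `t ^ i` in `P (t c)`
  have h1 : ∀ (c : Ix N d → k) (r : k), eval (r • c) P =
      (∑ j ∈ Finset.range (P.totalDegree + 1),
        Polynomial.C (eval c (homogeneousComponent j P)) * Polynomial.X ^ j).eval r := by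
    intro c r
    conv_lhs => rw [← sum_homogeneousComponent P]
    rw [map_sum, Polynomial.eval_finsetSum]
    refine Finset.sum_congr rfl fun j _ => ?_
    rw [eval_smul_hom (homogeneousComponent_isHomogeneous j P)]
    simp only [Polynomial.eval_mul, Polynomial.eval_C, Polynomial.eval_pow, Polynomial.eval_X]
    ring
  have h2 : (∑ j ∈ Finset.range (P.totalDegree + 1),
        Polynomial.C (eval (actT A c) (homogeneousComponent j P)) * Polynomial.X ^ j) =
      (∑ j ∈ Finset.range (P.totalDegree + 1),
        Polynomial.C (eval c (homogeneousComponent j P)) * Polynomial.X ^ j) := by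
    apply Polynomial.funext
    intro r
    rw [← h1, ← h1, ← actT_smul]
    exact hP A (r • c) hA
  have h3 := congrArg (fun q => Polynomial.coeff q i) h2
  simp only [Polynomial.finsetSum_coeff, Polynomial.coeff_C_mul, Polynomial.coeff_X_pow] at h3
  by_cases hi : i ∈ Finset.range (P.totalDegree + 1)
  · rw [Finset.sum_eq_single i, Finset.sum_eq_single i] at h3
    · simpa using h3
    · intro b _ hb
      rw [if_neg hb.symm, mul_zero]
    · intro hn
      exact absurd hi hn
    · intro b _ hb
      rw [if_neg hb.symm, mul_zero]
    · intro hn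
      exact absurd hi hn
  · rw [homogeneousComponent_eq_zero i P (by simpa using hi)]
    simp

instance gradedMonoid_grd : SetLike.GradedMonoid (grd k N d) where
  one_mem := by
    rw [mem_grd, vl, map_one]
    exact isHomogeneous_one _ _
  mul_mem := by
    intro i j P Q hP hQ
    rw [mem_grd] at hP hQ ⊢
    rw [vl, map_mul]
    exact hP.mul hQ

/-- The component of degree `i`. -/
def cmp [Infinite k] (P : IR k N d) (i : ℕ) : grd k N d i :=
  ⟨mkI (homogeneousComponent i (vl P)) (comp_mem_inv (vl_mem P) i),
    (mem_grd _).mpr (homogeneousComponent_isHomogeneous i _)⟩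

theorem cmp_coe [Infinite k] (i : ℕ) (P : IR k N d) :
    vl (cmp P i : IR k N d) = homogeneousComponent i (vl P) := rfl

theorem cmp_coeAdd [Infinite k] (j : ℕ) (y : DirectSum ℕ fun i => grd k N d i) :
    cmp (DirectSum.coeAddMonoidHom (grd k N d) y) j = y j := by
  classical
  induction y using DirectSum.induction_on with
  | zero =>
    apply Subtype.ext
    apply vl_inj
    rw [cmp_coe, map_zero, vl, map_zero, map_zero]
    exact (map_zero (toPoly k N d)).symm
  | add y z hy hz =>
    have h1 : (cmp (DirectSum.coeAddMonoidHom (grd k N d) (y + z)) j : grd k N d j) =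
        cmp (DirectSum.coeAddMonoidHom (grd k N d) y) j +
          cmp (DirectSum.coeAddMonoidHom (grd k N d) z) j := by
      apply Subtype.ext
      apply vl_inj
      rw [cmp_coe, map_add, vl, map_add, map_add]
      exact (map_add (toPoly k N d)
        (cmp (DirectSum.coeAddMonoidHom (grd k N d) y) j : IR k N d)
        (cmp (DirectSum.coeAddMonoidHom (grd k N d) z) j : IR k N d)).symm
    rw [h1, hy, hz]; rfl
  | of i x =>
    rw [DirectSum.coeAddMonoidHom_of]
    apply Subtype.ext
    apply vl_inj
    rw [cmp_coe, homogeneousComponent_of_mem ((mem_grd _).mp x.2)]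
    by_cases hij : i = j
    · subst hij
      rw [if_pos rfl, DirectSum.of_eq_same]
    · rw [if_neg (fun h => hij h.symm), DirectSum.of_eq_of_ne _ _ _ (fun h => hij h.symm)]
      exact (map_zero (toPoly k N d)).symm

/-- The decomposition into homogeneous components. -/
def dcmp [Infinite k] (P : IR k N d) : DirectSum ℕ fun i => grd k N d i :=
  ∑ i ∈ Finset.range ((vl P).totalDegree + 1), DirectSum.of (fun i => grd k N d i) i (cmp P i)

theorem dcmp_apply [Infinite k] (P : IR k N d) (j : ℕ) : dcmp P j = cmp P j := by
  classical
  unfold dcmp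
  rw [DFinsupp.finsetSum_apply]
  by_cases hj : j ∈ Finset.range ((vl P).totalDegree + 1)
  · rw [Finset.sum_eq_single j]
    · exact DirectSum.of_eq_same _ _
    · intro b _ hb
      exact DirectSum.of_eq_of_ne _ _ _ hb.symm
    · intro hn
      exact absurd hj hn
  · have h1 : cmp P j = 0 := by
      apply Subtype.ext
      apply vl_inj
      rw [cmp_coe]
      exact (homogeneousComponent_eq_zero j _ (by simpa using hj)).trans
        (map_zero (toPoly k N d)).symm
    rw [h1]
    apply Finset.sum_eq_zero
    intro b hb
    apply DirectSum.of_eq_of_ne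
    intro h
    exact hj (h ▸ hb)

theorem dcmp_left [Infinite k] : Function.LeftInverse (DirectSum.coeAddMonoidHom (grd k N d))
    dcmp := by
  intro P
  unfold dcmp
  rw [map_sum]
  simp only [DirectSum.coeAddMonoidHom_of]
  apply vl_inj
  have h1 : vl (∑ i ∈ Finset.range ((vl P).totalDegree + 1), (cmp P i : IR k N d)) =
      ∑ i ∈ Finset.range ((vl P).totalDegree + 1), homogeneousComponent i (vl P) :=
    map_sum (toPoly k N d) (fun i => (cmp P i : IR k N d)) _
  rw [h1, sum_homogeneousComponent]

theorem dcmp_right [Infinite k] : Function.RightInverse (DirectSum.coeAddMonoidHom (grd k N d))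
    dcmp := by
  intro y
  refine DFinsupp.ext fun j => ?_
  rw [dcmp_apply, cmp_coeAdd]

theorem internal_grd [Infinite k] : DirectSum.IsInternal (grd k N d) :=
  ⟨dcmp_right.injective, dcmp_left.surjective⟩

instance decomposition_grd [Infinite k] : DirectSum.Decomposition (grd k N d) :=
  internal_grd.chooseDecomposition

theorem decompose_eq [Infinite k] (P : IR k N d) :
    DirectSum.decompose (grd k N d) P = dcmp P := by
  apply (DirectSum.decompose (grd k N d)).symm.injective
  rw [Equiv.symm_apply_apply]
  exact (dcmp_left P).symm

instance gradedAlgebra_grd [Infinite k] : GradedAlgebra (grd k N d) where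

/-- Restriction of invariants to the line through `f`. -/
def lineHom (f : Ix N d → k) : IR k N d →+* Polynomial k :=
  (aeval (fun p => Polynomial.C (f p) * Polynomial.X) : SS k N d →ₐ[k] Polynomial k).toRingHom.comp
    (toPoly k N d).toRingHom

theorem lineHom_apply (f : Ix N d → k) (P : IR k N d) :
    lineHom f P = aeval (fun p => Polynomial.C (f p) * Polynomial.X) (vl P) := rfl

theorem lineHom_eval (f : Ix N d → k) (P : IR k N d) (r : k) :
    (lineHom f P).eval r = eval (r • f) (vl P) := by
  rw [lineHom_apply]
  change Polynomial.evalRingHom r (aeval _ (vl P)) = _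
  rw [aeval_def, hom_eval₂]
  have h1 : (Polynomial.evalRingHom r).comp (algebraMap k (Polynomial k)) = RingHom.id k := by
    ext a; simp
  rw [h1]
  congr 1
  funext p
  simp only [map_mul, Polynomial.coe_evalRingHom, Polynomial.eval_C, Polynomial.eval_X,
    Pi.smul_apply, smul_eq_mul]
  ring

theorem lineHom_homog [Infinite k] (f : Ix N d → k) {i : ℕ} {P : IR k N d}
    (hP : (vl P).IsHomogeneous i) :
    lineHom f P = Polynomial.C (eval f (vl P)) * Polynomial.X ^ i := by
  apply Polynomial.funext
  intro r
  rw [lineHom_eval, eval_smul_hom hP, Polynomial.eval_mul, Polynomial.eval_C,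
    Polynomial.eval_pow, Polynomial.eval_X, mul_comm]

theorem lineHom_eq_sum [Infinite k] (f : Ix N d → k) (P : IR k N d) :
    lineHom f P = ∑ i ∈ Finset.range ((vl P).totalDegree + 1),
      Polynomial.C (eval f (homogeneousComponent i (vl P))) * Polynomial.X ^ i := by
  apply Polynomial.funext
  intro r
  rw [lineHom_eval, Polynomial.eval_finsetSum]
  conv_lhs => rw [← sum_homogeneousComponent (vl P)]
  rw [map_sum]
  refine Finset.sum_congr rfl fun j _ => ?_
  rw [eval_smul_hom (homogeneousComponent_isHomogeneous j _)]
  simp only [Polynomial.eval_mul, Polynomial.eval_C, Polynomial.eval_pow, Polynomial.eval_X]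
  ring

theorem coeff_lineHom [Infinite k] (f : Ix N d → k) (P : IR k N d) (i : ℕ) :
    (lineHom f P).coeff i = eval f (homogeneousComponent i (vl P)) := by
  rw [lineHom_eq_sum]
  simp only [Polynomial.finsetSum_coeff, Polynomial.coeff_C_mul, Polynomial.coeff_X_pow]
  by_cases hi : i ∈ Finset.range ((vl P).totalDegree + 1)
  · rw [Finset.sum_eq_single i]
    · simp
    · intro b _ hb
      rw [if_neg hb.symm, mul_zero]
    · intro hn
      exact absurd hi hn
  · rw [homogeneousComponent_eq_zero i _ (by simpa using hi), map_zero]
    apply Finset.sum_eq_zero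
    intro b hb
    rw [if_neg, mul_zero]
    rintro rfl
    exact hi hb

theorem ker_lineHom_homog [Infinite k] (f : Ix N d → k) :
    (RingHom.ker (lineHom f)).IsHomogeneous (grd k N d) := by
  intro i P hP
  have h0 : lineHom f P = 0 := hP
  change lineHom f _ = 0
  have h1 : vl (DirectSum.decompose (grd k N d) P i : IR k N d) =
      homogeneousComponent i (vl P) := by
    rw [decompose_eq, dcmp_apply]; rfl
  rw [lineHom_homog f (i := i) (by
    rw [h1]; exact homogeneousComponent_isHomogeneous i _), h1, ← coeff_lineHom, h0]
  simp

/-- The homogeneous prime ideal of the invariants vanishing on the line through `f`. -/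
def lineIdeal [Infinite k] (f : Ix N d → k) : HomogeneousIdeal (grd k N d) where
  toSubmodule := RingHom.ker (lineHom f)
  is_homogeneous' := ker_lineHom_homog f

theorem mem_lineIdeal [Infinite k] (f : Ix N d → k) (P : IR k N d) :
    P ∈ (lineIdeal f).toIdeal ↔ lineHom f P = 0 := Iff.rfl

end

end Pool.Agent.H919M
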