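import Pool.Agent.H919M.ProjPt

open MvPolynomial AlgebraicGeometry

namespace Pool.Agent.H919M

open Pool.Agent.Helper819.Dyn Pool.Agent.Helper819.Apolar

noncomputable section

set_option linter.unusedSectionVars false

variable {k : Type} [Field k] [IsAlgClosed k] [CharZero k] {N d : ℕ}

instance lineIdeal_isPrime (f : Ix N d → k) : (lineIdeal f).toIdeal.IsPrime :=
  RingHom.ker_isPrime (lineHom f)

/-- The homogeneous localization of the invariants at `f`. -/
abbrev HL (f : Ix N d → k) : Type :=
  HomogeneousLocalization.AtPrime (grd k N d) (lineIdeal f).toIdeal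

/-- Two subrings of a ring with the same elements. -/
theorem exists_equiv {A B K : Type} [CommRing A] [CommRing B] [CommRing K] (j : A →+* K)
    (i : B →+* K) (hj : Function.Injective j) (hi : Function.Injective i)
    (h1 : ∀ x, ∃ y, i y = j x) (h2 : ∀ y, ∃ x, j x = i y) : Nonempty (A ≃+* B) := by
  choose g hg using h1
  let G : A →+* B :=
    { toFun := g
      map_one' := by apply hi; rw [hg, map_one, map_one]
      map_mul' := by intro x y; apply hi; rw [hg, map_mul, map_mul, hg, hg]
      map_zero' := by apply hi; rw [hg, map_zero, map_zero]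
      map_add' := by intro x y; apply hi; rw [hg, map_add, map_add, hg, hg] }
  refine ⟨RingEquiv.ofBijective G ⟨?_, ?_⟩⟩
  · intro x y hxy
    apply hj
    rw [← hg, ← hg]
    exact congrArg i hxy
  · intro y
    obtain ⟨x, hx⟩ := h2 y
    refine ⟨x, hi ?_⟩
    rw [← hx]
    exact hg x

/-- invariants in the fraction field -/
def invK (k : Type) [Field k] (N d : ℕ) : IR k N d →+* FractionRing (SS k N d) :=
  (algebraMap (SS k N d) (FractionRing (SS k N d))).comp (toPoly k N d).toRingHom

theorem invK_inj : Function.Injective (invK k N d) := by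
  intro a b h
  apply vl_inj
  exact IsFractionRing.injective (SS k N d) (FractionRing (SS k N d)) h

theorem invK_unit (f : Ix N d → k) (P : (lineIdeal f).toIdeal.primeCompl) :
    IsUnit (invK k N d P.1) := by
  rw [isUnit_iff_ne_zero]
  intro h
  rw [← map_zero (invK k N d)] at h
  have h1 := invK_inj h
  apply P.2
  rw [h1]
  exact zero_mem _

/-- the localization in the fraction field -/
def locK (f : Ix N d → k) :
    Localization (lineIdeal f).toIdeal.primeCompl →+* FractionRing (SS k N d) :=
  IsLocalization.lift (M := (lineIdeal f).toIdeal.primeCompl) (invK_unit f)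

theorem locK_algebraMap (f : Ix N d → k) (P : IR k N d) :
    locK f (algebraMap (IR k N d) _ P) = invK k N d P := IsLocalization.lift_eq _ P

theorem locK_inj (f : Ix N d → k) : Function.Injective (locK f) := by
  rw [injective_iff_map_eq_zero]
  intro x hx
  obtain ⟨a, s, rfl⟩ := IsLocalization.exists_mk'_eq (lineIdeal f).toIdeal.primeCompl x
  unfold locK at hx
  rw [IsLocalization.lift_mk'_spec, mul_zero] at hx
  have h1 : a = 0 := invK_inj (hx.trans (map_zero _).symm)
  rw [h1, IsLocalization.mk'_zero]

/-- the homogeneous localization in the fraction field -/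
def jK (f : Ix N d → k) : HL f →+* FractionRing (SS k N d) :=
  (locK f).comp (algebraMap (HL f) (Localization (lineIdeal f).toIdeal.primeCompl))

theorem jK_inj (f : Ix N d → k) : Function.Injective (jK f) := by
  intro x y h
  have h1 := locK_inj f h
  rw [HomogeneousLocalization.algebraMap_apply, HomogeneousLocalization.algebraMap_apply] at h1
  exact HomogeneousLocalization.val_injective _ h1

theorem LV_unit (f : Ix N d → k) (P : (mf f).primeCompl) :
    IsUnit (algebraMap (SS k N d) (FractionRing (SS k N d)) P.1) := by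
  rw [isUnit_iff_ne_zero]
  intro h
  rw [← map_zero (algebraMap (SS k N d) (FractionRing (SS k N d)))] at h
  have h1 := IsFractionRing.injective (SS k N d) (FractionRing (SS k N d)) h
  apply P.2
  rw [h1]
  exact zero_mem _

/-- the local ring of the affine space in the fraction field -/
def iK (f : Ix N d → k) : LV f →+* FractionRing (SS k N d) :=
  IsLocalization.lift (M := (mf f).primeCompl) (LV_unit f)

theorem iK_algebraMap (f : Ix N d → k) (P : SS k N d) :
    iK f (algebraMap (SS k N d) (LV f) P) = algebraMap _ _ P := IsLocalization.lift_eq _ P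

theorem iK_inj (f : Ix N d → k) : Function.Injective (iK f) := by
  rw [injective_iff_map_eq_zero]
  intro x hx
  obtain ⟨a, s, rfl⟩ := IsLocalization.exists_mk'_eq (mf f).primeCompl x
  unfold iK at hx
  rw [IsLocalization.lift_mk'_spec, mul_zero] at hx
  have h1 : a = 0 := IsFractionRing.injective (SS k N d) (FractionRing (SS k N d))
    (hx.trans (map_zero _).symm)
  rw [h1, IsLocalization.mk'_zero]

/-- the local ring of the quotient in the fraction field -/
def oK (f : Ix N d → k) : OO f →+* FractionRing (SS k N d) := (iK f).comp (OO f).val.toRingHom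

theorem oK_inj (f : Ix N d → k) : Function.Injective (oK f) := by
  intro x y h
  apply Subtype.ext
  exact iK_inj f h

theorem eval_ne_of_homog (f : Ix N d → k) {i : ℕ} {P : IR k N d} (hP : P ∈ grd k N d i)
    (h : P ∉ (lineIdeal f).toIdeal) : eval f (vl P) ≠ 0 := by
  intro h0
  apply h
  rw [mem_lineIdeal, lineHom_homog f ((mem_grd _).mp hP), h0]
  simp

theorem notMem_of_eval (f : Ix N d → k) {i : ℕ} {P : IR k N d} (hP : P ∈ grd k N d i)
    (h : eval f (vl P) ≠ 0) : P ∉ (lineIdeal f).toIdeal := by
  intro h0
  rw [mem_lineIdeal, lineHom_homog f ((mem_grd _).mp hP)] at h0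
  have h3 := congrArg (Polynomial.eval 1) h0
  simp at h3
  exact h h3

theorem jK_spec (f : Ix N d → k) (x : HL f) :
    jK f x * algebraMap (SS k N d) (FractionRing (SS k N d)) (vl x.den) =
      algebraMap (SS k N d) (FractionRing (SS k N d)) (vl x.num) := by
  have h1 := congrArg (locK f) (HomogeneousLocalization.den_smul_val x)
  rw [Algebra.smul_def, map_mul, locK_algebraMap, locK_algebraMap] at h1
  rw [mul_comm]
  exact h1

theorem range_le (f : Ix N d → k) (x : HL f) : ∃ y : OO f, oK f y = jK f x := by
  have h1 := jK_spec f x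
  have hden : eval f (vl x.den) ≠ 0 := eval_ne_of_homog f x.den_mem_deg x.den_mem
  obtain ⟨y, hy⟩ : ∃ y : LV f, y * algebraMap (SS k N d) (LV f) (vl x.den) =
      algebraMap (SS k N d) (LV f) (vl x.num) :=
    ⟨IsLocalization.mk' (LV f) (vl x.num) ⟨(vl x.den), hden⟩,
      IsLocalization.mk'_spec (LV f) _ (⟨(vl x.den), hden⟩ : (mf f).primeCompl)⟩
  have hyO : y ∈ OO f := ⟨x.deg, vl x.num, vl x.den, ⟨(mem_grd _).mp x.num_mem_deg, vl_mem x.num⟩,
    ⟨(mem_grd _).mp x.den_mem_deg, vl_mem x.den⟩, hden, hy⟩
  refine ⟨⟨y, hyO⟩, ?_⟩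
  have h2 := congrArg (iK f) hy
  rw [map_mul, iK_algebraMap, iK_algebraMap] at h2
  have h3 : algebraMap (SS k N d) (FractionRing (SS k N d)) (vl x.den) ≠ 0 := by
    intro h
    apply hden
    rw [IsFractionRing.injective (SS k N d) (FractionRing (SS k N d)) (h.trans (map_zero _).symm),
      map_zero]
  apply mul_right_cancel₀ h3
  rw [h1, ← h2]
  rfl

theorem range_ge (f : Ix N d → k) (y : OO f) : ∃ x : HL f, jK f x = oK f y := by
  obtain ⟨y, δ, a, b, ha, hb, hb0, hy⟩ := y
  have hbn : (mkI b hb.2) ∉ (lineIdeal f).toIdeal :=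
    notMem_of_eval f (i := δ) ((mem_grd _).mpr hb.1) hb0
  let c : HomogeneousLocalization.NumDenSameDeg (grd k N d) (lineIdeal f).toIdeal.primeCompl :=
    { deg := δ
      num := ⟨mkI a ha.2, (mem_grd _).mpr ha.1⟩
      den := ⟨mkI b hb.2, (mem_grd _).mpr hb.1⟩
      den_mem := hbn }
  refine ⟨HomogeneousLocalization.mk c, ?_⟩
  have h2 := congrArg (iK f) hy
  rw [map_mul, iK_algebraMap, iK_algebraMap] at h2
  have h3 : algebraMap (SS k N d) (FractionRing (SS k N d)) b ≠ 0 := by
    intro h
    apply hb0
    rw [IsFractionRing.injective (SS k N d) (FractionRing (SS k N d)) (h.trans (map_zero _).symm),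
      map_zero]
  apply mul_right_cancel₀ h3
  have h4 : oK f ⟨y, δ, a, b, ha, hb, hb0, hy⟩ = iK f y := rfl
  rw [h4, h2]
  have h5 : jK f (HomogeneousLocalization.mk c) =
      locK f (Localization.mk (mkI a ha.2) ⟨mkI b hb.2, hbn⟩) := rfl
  have h6 : algebraMap (SS k N d) (FractionRing (SS k N d)) b =
      locK f (algebraMap (IR k N d) _ (mkI b hb.2)) := by
    rw [locK_algebraMap]; rfl
  rw [h5, h6, ← map_mul]
  have h7 : Localization.mk (mkI a ha.2)
      (⟨mkI b hb.2, hbn⟩ : (lineIdeal f).toIdeal.primeCompl) *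
        algebraMap (IR k N d) (Localization (lineIdeal f).toIdeal.primeCompl)
          (mkI b hb.2) =
      algebraMap (IR k N d) _ (mkI a ha.2) := by
    rw [Localization.mk_eq_mk']
    exact IsLocalization.mk'_spec _ _
      (⟨mkI b hb.2, hbn⟩ : (lineIdeal f).toIdeal.primeCompl)
  rw [h7, locK_algebraMap]
  rfl

/-- The local ring of the quotient is the homogeneous localization. -/
theorem isoHL (f : Ix N d → k) : Nonempty (HL f ≃+* OO f) :=
  exists_equiv (A := HL f) (B := OO f) (jK f) (oK f) (jK_inj f) (oK_inj f) (range_le f) (range_ge f)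

/-- The stalk of `Proj` of the invariants at the point of `f`. -/
theorem isoStalk (hd : 2 ≤ d) (f : Ix N d → k) (hf : NZ (tup f)) :
    Nonempty (((Proj (grd k N d)).presheaf.stalk (pt hd f hf)) ≃+* OO f) := by
  obtain ⟨e⟩ := isoHL f
  exact ⟨((Proj.stalkIso (grd k N d) (pt hd f hf)).commRingCatIsoToRingEquiv).trans e⟩

end

end Pool.Agent.H919M
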