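import Pool.Agent.H919M.ProjDefs

open MvPolynomial AlgebraicGeometry

namespace Pool.Agent.H919M

open Pool.Agent.Helper819.Dyn Pool.Agent.Helper819.Apolar

noncomputable section

set_option linter.unusedSectionVars false

variable {k : Type} [Field k] [IsAlgClosed k] [CharZero k] {N d : ℕ}

theorem semi_homog (hd : 2 ≤ d) {f : Ix N d → k} {w : ℕ} {R : SS k N d} (hR : IsSemi w R)
    (hf : eval f R ≠ 0) (h0 : eval 0 R = 0) :
    ∃ δ : ℕ, 0 < δ ∧ R.IsHomogeneous δ := by
  have hNd : N + d ≠ 0 := by omega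
  have hsc : ∀ (r : k) (c : Ix N d → k), eval (r ^ (N + d) • c) R =
      (r ^ (N + 1)) ^ w * eval c R := by
    intro r c
    have h1 := hR (r • 1) c
    rw [actT_scalar, Matrix.det_smul, Matrix.det_one, mul_one, Fintype.card_fin] at h1
    exact h1
  haveI : NeZero (N + d) := ⟨hNd⟩
  haveI : NeZero ((N + d : ℕ) : k) := ⟨Nat.cast_ne_zero.mpr hNd⟩
  obtain ⟨ζ, hζ⟩ := HasEnoughRootsOfUnity.exists_primitiveRoot k (N + d)
  have hdvd : N + d ∣ (N + 1) * w := by
    apply hζ.dvd_of_pow_eq_one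
    have h1 := hsc ζ f
    rw [hζ.pow_eq_one, one_smul, ← pow_mul] at h1
    have h2 : (ζ ^ ((N + 1) * w) - 1) * eval f R = 0 := by
      rw [sub_mul, one_mul, ← h1, sub_self]
    rcases mul_eq_zero.mp h2 with h3 | h3
    · exact sub_eq_zero.mp h3
    · exact absurd h3 hf
  obtain ⟨δ, hδ⟩ := hdvd
  have hhom : R.IsHomogeneous δ := by
    apply homog_of_scale
    intro t c
    obtain ⟨r, hr⟩ := IsAlgClosed.exists_pow_nat_eq t (Nat.pos_of_ne_zero hNd)
    rw [← hr, hsc, ← pow_mul, hδ, pow_mul]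
  refine ⟨δ, ?_, hhom⟩
  rcases Nat.eq_zero_or_pos δ with h | h
  · exfalso
    rw [h] at hδ
    have h1 := hsc 0 f
    rw [zero_pow hNd, zero_smul, h0, ← pow_mul, hδ, mul_zero, pow_zero, one_mul] at h1
    exact hf h1.symm
  · exact h

/-- There is a homogeneous invariant of positive degree not vanishing at a nondegenerate `f`. -/
theorem exists_inv (hd : 2 ≤ d) {f : Ix N d → k} (hf : NZ (tup f)) :
    ∃ (δ : ℕ) (R : IR k N d), 0 < δ ∧ R ∈ grd k N d δ ∧ eval f (vl R) ≠ 0 := by
  obtain ⟨w, R, h1, h2, h3⟩ := exists_semi_NZ hd hf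
  have h0 : eval 0 R = 0 := by
    by_contra hne
    have h4 := h3 0 hne
    have h5 := h4 (fun _ => 1) (by
      intro i
      have : tup (0 : Ix N d → k) i = 0 := by
        unfold tup
        simp
      rw [this, map_zero])
    exact one_ne_zero (congrFun h5 0)
  obtain ⟨δ, hδ, hh⟩ := semi_homog hd h1 h2 h0
  have hR : R ∈ inv k N d := by
    intro A c hA
    rw [h1 A c, hA, one_pow, one_mul]
  exact ⟨δ, mkI R hR, hδ, (mem_grd _).mpr hh, h2⟩

theorem lineIdeal_relevant (hd : 2 ≤ d) (f : Ix N d → k) (hf : NZ (tup f)) :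
    ¬ HomogeneousIdeal.irrelevant (grd k N d) ≤ lineIdeal f := by
  intro hle
  obtain ⟨δ, R, hδ, hR, hRf⟩ := exists_inv hd hf
  have h1 : R ∈ (HomogeneousIdeal.irrelevant (grd k N d)) := by
    rw [HomogeneousIdeal.mem_irrelevant_iff]
    change GradedRing.proj (grd k N d) 0 R = 0
    rw [GradedRing.proj_apply, DirectSum.decompose_of_mem_ne _ hR hδ.ne']
  have h2 : lineHom f R = 0 := hle h1
  rw [lineHom_homog f ((mem_grd _).mp hR)] at h2
  have h3 := congrArg (Polynomial.eval 1) h2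
  simp at h3
  exact hRf h3

/-- The point of `Proj` of the invariants given by a tuple of forms without common zeros. -/
def pt (hd : 2 ≤ d) (f : Ix N d → k) (hf : NZ (tup f)) : ProjectiveSpectrum (grd k N d) where
  asHomogeneousIdeal := lineIdeal f
  isPrime := RingHom.ker_isPrime (lineHom f)
  not_irrelevant_le := lineIdeal_relevant hd f hf

end

end Pool.Agent.H919M
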