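import Pool.Agent.H919M.Defs

open MvPolynomial

namespace Pool.Agent.H919M

open Pool.Agent.Helper819.Dyn Pool.Agent.Helper819.Apolar

noncomputable section

set_option linter.unusedSectionVars false

variable {k : Type} [Field k] {N d : ℕ}

/-- a matrix over an extension which fixes `y` gives one over `k`, avoiding `r = 0` -/
theorem t01_spec [IsAlgClosed k] (y : Ix N d → k) {L : Type} [Field L] [Algebra k L]
    (A : Matrix (Fin (N + 1)) (Fin (N + 1)) L) (hA : A.det ≠ 0)
    (h : actT A (fun p => algebraMap k L (y p)) = fun p => algebraMap k L (y p))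
    (r : MvPolynomial (Fin (N + 1) × Fin (N + 1)) k) (hr : aeval (ent A) r ≠ 0) :
    ∃ B : Matrix (Fin (N + 1)) (Fin (N + 1)) k, B.det ≠ 0 ∧ actT B y = y ∧ eval (ent B) r ≠ 0 := by
  have hq : aeval (ent A) (dt (N + 1) k * r) ≠ 0 := by
    rw [map_mul, aeval_dt_S]
    exact mul_ne_zero hA hr
  obtain ⟨b, hb, hb2⟩ := exists_point (ent A) (dt (N + 1) k * r) hq
  set B : Matrix (Fin (N + 1)) (Fin (N + 1)) k := fun i j => b (i, j) with hB
  have hBe : ent B = b := by
    funext p
    rfl
  rw [map_mul] at hb2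
  refine ⟨B, ?_, ?_, ?_⟩
  · rw [← eval_dt, hBe]
    exact left_ne_zero_of_mul hb2
  · funext p
    have h1 : aeval (ent A) (orb y p - C (y p)) = 0 := by
      rw [map_sub, aeval_orb_S, h, aeval_C, sub_self]
    have h2 := hb _ h1
    rw [map_sub, eval_C, ← hBe, eval_orb] at h2
    exact sub_eq_zero.1 h2
  · rw [hBe]
    exact right_ne_zero_of_mul hb2

theorem free_ext [IsAlgClosed k] {y : Ix N d → k} (hy : Free y) {L : Type} [Field L]
    [Algebra k L] : Free (fun p => algebraMap k L (y p)) := by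
  intro A hA h
  refine ⟨A 0 0, ?_⟩
  ext i j
  rw [Matrix.smul_apply, smul_eq_mul]
  by_cases hij : i = j
  · subst hij
    rw [Matrix.one_apply_eq, mul_one]
    by_contra hne
    obtain ⟨B, hB, hBy, hBr⟩ := t01_spec y A hA h (X (i, i) - X (0, 0)) (by
      rw [map_sub, aeval_X, aeval_X]
      exact sub_ne_zero.2 hne)
    obtain ⟨μ, hμ⟩ := hy B hB hBy
    apply hBr
    rw [map_sub, eval_X, eval_X]
    simp [ent, hμ]
  · rw [Matrix.one_apply_ne hij, mul_zero]
    by_contra hne
    obtain ⟨B, hB, hBy, hBr⟩ := t01_spec y A hA h (X (i, j)) (by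
      rw [aeval_X]
      exact hne)
    obtain ⟨μ, hμ⟩ := hy B hB hBy
    apply hBr
    rw [eval_X]
    simp [ent, hμ, Matrix.one_apply_ne hij]

end

end Pool.Agent.H919M
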