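import Pool.Agent.H919M.Defs

open MvPolynomial

namespace Pool.Agent.H919M

open Pool.Agent.Helper819.Dyn Pool.Agent.Helper819.Apolar

noncomputable section

set_option linter.unusedSectionVars false

variable {k : Type} [Field k] {N d : ℕ}

/-- the generic value of the tuple -/
def T02_G (k : Type) [Field k] (N d : ℕ) (j : Fin (N + 1)) :
    MvPolynomial (Ix N d ⊕ Fin (N + 1)) k :=
  ∑ m : Ex N d, X (Sum.inl (j, m)) * ∏ i, X (Sum.inr i) ^ (m.1 i)

theorem T02_aeval {Ω : Type} [Field Ω] [Algebra k Ω] (y : Ix N d → Ω) (x : Fin (N + 1) → Ω)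
    (j : Fin (N + 1)) : aeval (Sum.elim y x) (T02_G k N d j) = eval x (tup y j) := by
  unfold T02_G tup
  rw [map_sum, map_sum]
  refine Finset.sum_congr rfl fun m _ => ?_
  rw [map_mul, aeval_X, Sum.elim_inl, map_prod, eval_monomial, Finsupp.prod_fintype _ _ (by simp)]
  congr 1
  refine Finset.prod_congr rfl fun i _ => ?_
  rw [map_pow, aeval_X, Sum.elim_inr]

theorem NZ_gen [IsAlgClosed k] {f : Ix N d → k} (hf : NZ (tup f)) :
    ∃ P : SS k N d, eval f P ≠ 0 ∧ ∀ (Ω : Type) [Field Ω] [Algebra k Ω] (y : Ix N d → Ω),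
      aeval y P ≠ 0 → NZ (tup y) := by
  obtain ⟨P, hP0, hP⟩ := exists_open hf
  refine ⟨P, hP0, ?_⟩
  intro Ω _ _ y hy x hx
  funext i
  have hrad : (rename Sum.inl P * X (Sum.inr i) : MvPolynomial (Ix N d ⊕ Fin (N + 1)) k) ∈
      (Ideal.span (Set.range (T02_G k N d))).radical := by
    rw [← vanishingIdeal_zeroLocus_eq_radical (K := k), mem_vanishingIdeal_iff]
    intro z hz
    have hz' : z = Sum.elim (z ∘ Sum.inl) (z ∘ Sum.inr) := (Sum.elim_comp_inl_inr z).symm
    have h1 : ∀ j, eval (z ∘ Sum.inr) (tup (z ∘ Sum.inl) j) = 0 := by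
      intro j
      have := (mem_zeroLocus_iff.mp hz) (T02_G k N d j) (Ideal.subset_span ⟨j, rfl⟩)
      rw [hz', T02_aeval] at this
      exact this
    rw [map_mul, aeval_rename, aeval_X]
    by_cases h2 : eval (z ∘ Sum.inl) P = 0
    · rw [← coe_aeval_eq_eval] at h2
      have h3 : aeval (z ∘ Sum.inl) P = 0 := h2
      rw [h3, zero_mul]
    · have h3 := hP _ h2 _ h1
      have h4 : z (Sum.inr i) = 0 := congrFun h3 i
      rw [h4, mul_zero]
  obtain ⟨r, hr⟩ := hrad
  have hker : Ideal.span (Set.range (T02_G k N d)) ≤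
      RingHom.ker (aeval (Sum.elim y x) : MvPolynomial (Ix N d ⊕ Fin (N + 1)) k →ₐ[k] Ω) := by
    rw [Ideal.span_le]
    rintro _ ⟨j, rfl⟩
    change aeval (Sum.elim y x) (T02_G k N d j) = 0
    rw [T02_aeval]
    exact hx j
  have h5 : aeval (Sum.elim y x) ((rename Sum.inl P * X (Sum.inr i) :
      MvPolynomial (Ix N d ⊕ Fin (N + 1)) k) ^ r) = 0 := hker hr
  rw [map_pow, map_mul, aeval_rename, aeval_X, Sum.elim_inr, Sum.elim_comp_inl] at h5
  have h6 := eq_zero_of_pow_eq_zero h5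
  rcases mul_eq_zero.mp h6 with h | h
  · exact absurd h hy
  · exact h

end

end Pool.Agent.H919M
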