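import Pool.Agent.H919M.Defs

/-! Semi-invariants stay semi-invariant after extension of the field. -/

open MvPolynomial

namespace Pool.Agent.H919M

open Pool.Agent.Helper819.Dyn Pool.Agent.Helper819.Apolar

noncomputable section

set_option linter.unusedSectionVars false

variable {k : Type} [Field k] {N d : ℕ}

theorem isSemi_map [Infinite k] {L : Type} [Field L] [Algebra k L] {w : ℕ} {P : SS k N d}
    (hP : IsSemi w P) : IsSemi w (map (algebraMap k L) P : SS L N d) := by
  let T := MvPolynomial ((Fin (N + 1) × Fin (N + 1)) ⊕ Ix N d) k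
  let G : Matrix (Fin (N + 1)) (Fin (N + 1)) T := Matrix.of fun i j => X (Sum.inl (i, j))
  let Y : Ix N d → T := fun p => X (Sum.inr p)
  have key : ∀ (K : Type) [Field K] [Algebra k K] (φ : T →ₐ[k] K),
      φ (aeval (actT G Y) P - G.det ^ w * aeval Y P) =
        aeval (actT (G.map φ) (fun p => φ (Y p))) P -
          (G.map φ).det ^ w * aeval (fun p => φ (Y p)) P := by
    intro K _ _ φ
    rw [map_sub, map_mul, map_pow, comp_aeval_apply, comp_aeval_apply]
    have h1 : (fun p => φ (actT G Y p)) = actT (G.map φ) (fun p => φ (Y p)) := by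
      funext p
      exact map_actT (φ : T →+* K) G Y p
    have h2 : φ G.det = (G.map φ).det := RingHom.map_det (φ : T →+* K) G
    rw [h1, h2]
  have hgen : aeval (actT G Y) P - G.det ^ w * aeval Y P = 0 := by
    apply MvPolynomial.funext
    intro x
    have h1 := key k (aeval x)
    rw [map_zero]
    have h2 : ∀ q : T, aeval x q = eval x q := fun q => by rw [← coe_aeval_eq_eval]; rfl
    rw [← h2, h1, sub_eq_zero]
    have h3 := hP (G.map (aeval x : T →ₐ[k] k)) (fun p => (aeval x : T →ₐ[k] k) (Y p))
    exact h3
  intro A c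
  have h1 := key L (aeval (Sum.elim (ent A) c))
  rw [hgen, map_zero] at h1
  have hG : G.map (aeval (Sum.elim (ent A) c) : T →ₐ[k] L) = A := by
    ext i j
    simp [G, ent]
  have hY : (fun p => (aeval (Sum.elim (ent A) c) : T →ₐ[k] L) (Y p)) = c := by
    funext p
    simp [Y]
  rw [hG, hY] at h1
  rw [eval_map, eval_map]
  exact (sub_eq_zero.mp h1.symm)

end

end Pool.Agent.H919M
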