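import Pool.Agent.H919M.Defs

open MvPolynomial

namespace Pool.Agent.H919M

open Pool.Agent.Helper819.Dyn Pool.Agent.Helper819.Apolar

noncomputable section

set_option linter.unusedSectionVars false

section aux

variable {k L : Type} [Field k] [Field L] [Algebra k L]

theorem t04_pr {σ : Type} (f g : MvPolynomial σ k) :
    pr (map (algebraMap k L) f) (map (algebraMap k L) g) = algebraMap k L (pr f g) := by
  rw [pr_eq_of_subset (support_map_subset _ _)]
  unfold pr
  rw [map_sum]
  refine Finset.sum_congr rfl fun m _ => ?_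
  rw [coeff_map, coeff_map, map_mul, map_mul, map_natCast]

theorem t04_dt (n : ℕ) : map (algebraMap k L) (dt n k) = dt n L := by
  unfold dt
  rw [RingHom.map_det]
  congr 1
  ext i j
  simp [Matrix.mvPolynomialX]

theorem t04_rho {n : ℕ} (w : ℕ) (p : MvPolynomial (Fin n × Fin n) k) :
    rho w (map (algebraMap k L) p) = algebraMap k L (rho w p) := by
  unfold rho cw
  rw [← t04_dt (k := k), ← map_pow, t04_pr, t04_pr, map_div₀]

theorem t04_gm (N : ℕ) : (gm k N).map (map (algebraMap k L)) = gm L N := by
  ext i j
  simp [gm, Matrix.mvPolynomialX]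

theorem t04_bigP {N d : ℕ} (P : SS k N d) :
    map (map (algebraMap k L)) (bigP P) = bigP (map (algebraMap k L) P) := by
  unfold bigP
  rw [aeval_def, aeval_def, hom_eval₂, eval₂_map]
  congr 1
  · apply RingHom.ext
    intro a
    rw [RingHom.comp_apply, RingHom.comp_apply,
      IsScalarTower.algebraMap_apply k (KA k N) (MvPolynomial (Ix N d) (KA k N)) a,
      IsScalarTower.algebraMap_apply L (KA L N) (MvPolynomial (Ix N d) (KA L N))]
    change map (map (algebraMap k L)) (C (C a)) = C (C (algebraMap k L a))
    rw [map_C, map_C]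
  · funext p
    have h1 := map_actT (map (map (algebraMap k L)) : MvPolynomial (Ix N d) (KA k N) →+*
      MvPolynomial (Ix N d) (KA L N)) ((gm k N).map C)
      (X : Ix N d → MvPolynomial (Ix N d) (KA k N)) p
    rw [h1]
    congr 1
    · rw [← t04_gm (k := k) (L := L)]
      ext i j : 2
      simp only [Matrix.map_apply, map_C]
    · funext q
      rw [map_X]

theorem t04_coeff {N d : ℕ} (w : ℕ) (P : SS k N d) (m : Ix N d →₀ ℕ) :
    coeff m (sharp w P) = rho w (coeff m (bigP P)) := by
  classical
  unfold sharp
  rw [coeff_sum]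
  simp only [coeff_monomial]
  rw [Finset.sum_ite_eq']
  split_ifs with h
  · rfl
  · rw [notMem_support_iff.mp h]
    unfold rho
    rw [pr_zero_right, zero_div]

end aux

variable {k : Type} [Field k] {N d : ℕ}

theorem map_sharp [CharZero k] {L : Type} [Field L] [Algebra k L] (w : ℕ) (P : SS k N d) :
    map (algebraMap k L) (sharp w P) = sharp w (map (algebraMap k L) P) := by
  ext m
  rw [coeff_map, t04_coeff, t04_coeff, ← t04_bigP, coeff_map, t04_rho]

end

end Pool.Agent.H919M
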