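import Pool.Agent.H919M.Defs

/-! The Reynolds operator preserves the degree. -/

open MvPolynomial

namespace Pool.Agent.H919M

open Pool.Agent.Helper819.Dyn Pool.Agent.Helper819.Apolar

noncomputable section

set_option linter.unusedSectionVars false

variable {k : Type} [Field k] {N d : ℕ}

theorem sharp_homog [CharZero k] (w : ℕ) {δ : ℕ} {P : SS k N d} (hP : P.IsHomogeneous δ) :
    (sharp w P).IsHomogeneous δ := by
  have hinf : Infinite k := inferInstance
  apply homog_of_scale
  intro r c
  rw [eval_sharp, eval_sharp]
  have h1 : aeval (orb (r • c)) P = C (r ^ δ) * aeval (orb c) P := by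
    apply poly_ext
    intro A _
    rw [eval_aeval_orb, actT_smul, eval_smul_hom hP, map_mul, eval_C, eval_aeval_orb]
  rw [h1, rho_smul]

end

end Pool.Agent.H919M
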