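import Pool.Agent.H919M.Defs

/-! Equivariance of the infinitesimal action. -/

open MvPolynomial

namespace Pool.Agent.H919M

open Pool.Agent.Helper819.Dyn Pool.Agent.Helper819.Apolar

noncomputable section

set_option linter.unusedSectionVars false

variable {k : Type} [Field k] {N d : ℕ}

theorem xi_equiv {g : Matrix (Fin (N + 1)) (Fin (N + 1)) k} (hg : g.det ≠ 0)
    (A : Matrix (Fin (N + 1)) (Fin (N + 1)) k) (c : Ix N d → k) :
    actT g (xi A c) = xi (g⁻¹ * A * g) (actT g c) := by
  have hgu : IsUnit g.det := isUnit_iff_ne_zero.mpr hg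
  have hm : (oneEps (DualNumber.eps : DualNumber k) A) * g.map (algebraMap k (DualNumber k)) =
      g.map (algebraMap k (DualNumber k)) *
        oneEps (DualNumber.eps : DualNumber k) (g⁻¹ * A * g) := by
    unfold oneEps
    rw [add_mul, one_mul, mul_add, mul_one, Matrix.smul_mul, Matrix.mul_smul,
      ← Matrix.map_mul, ← Matrix.map_mul, ← mul_assoc, ← mul_assoc,
      Matrix.mul_nonsing_inv _ hgu, one_mul]
  have e1 : actT (g.map (algebraMap k (DualNumber k)))
      (actT (oneEps (DualNumber.eps : DualNumber k) A)
        (fun p => algebraMap k (DualNumber k) (c p))) =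
      actT (oneEps (DualNumber.eps : DualNumber k) (g⁻¹ * A * g))
        (actT (g.map (algebraMap k (DualNumber k)))
          (fun p => algebraMap k (DualNumber k) (c p))) := by
    rw [actT_actT, actT_actT, hm]
  have e3 : actT (oneEps (DualNumber.eps : DualNumber k) A)
      (fun p => algebraMap k (DualNumber k) (c p)) =
      (fun p => algebraMap k (DualNumber k) (c p)) +
        (DualNumber.eps : DualNumber k) • (fun p => algebraMap k (DualNumber k) (xi A c p)) :=
    funext fun p => actT_eps _ DualNumber.eps_mul_eps A c p
  have e4 : ∀ c : Ix N d → k, actT (g.map (algebraMap k (DualNumber k)))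
      (fun p => algebraMap k (DualNumber k) (c p)) =
      fun p => algebraMap k (DualNumber k) (actT g c p) :=
    fun c => funext fun p => (map_actT (algebraMap k (DualNumber k)) g c p).symm
  rw [e3, actT_add, actT_smul, e4, e4] at e1
  funext p
  have e2 := congrFun e1 p
  rw [actT_eps _ DualNumber.eps_mul_eps] at e2
  have e5 := congrArg TrivSqZeroExt.snd e2
  rw [snd_form] at e5
  exact (snd_form _ _).symm.trans e5

end

end Pool.Agent.H919M
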