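import Pool.Agent.H919M.Defs

/-! The infinitesimal action is injective. -/

open MvPolynomial

namespace Pool.Agent.H919M

open Pool.Agent.Helper819.Dyn Pool.Agent.Helper819.Apolar

noncomputable section

set_option linter.unusedSectionVars false

variable {k : Type} [Field k] {N d : ℕ}

theorem xi_inj [IsAlgClosed k] [CharZero k] (hd : 2 ≤ d) {f : Ix N d → k} (hf : NZ (tup f))
    {A : Matrix (Fin (N + 1)) (Fin (N + 1)) k} (hA : xi A f = 0) : A = 0 := by
  apply lie_inj hd hf A
  intro i
  have h1 := congrFun (tup_xi (by omega : 1 ≤ d) A f) i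
  rw [hA] at h1
  have h2 : tup (0 : Ix N d → k) i = 0 := by simp [tup]
  rw [h2] at h1
  unfold lieT at h1
  linear_combination -h1

end

end Pool.Agent.H919M
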