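import Pool.Agent.H919M.Defs
import Pool.Agent.H919M.T01
import Pool.Agent.H919M.T07

open MvPolynomial

namespace Pool.Agent.H919M

open Pool.Agent.Helper819.Dyn Pool.Agent.Helper819.Apolar

noncomputable section

set_option linter.unusedSectionVars false

variable {k : Type} [Field k] {N d : ℕ}

namespace T08aux

/-- the field of the generic matrix -/
abbrev LK (k : Type) [Field k] (N : ℕ) : Type := FractionRing (KA k N)

/-- the generic matrix over the field -/
def gL (k : Type) [Field k] (N : ℕ) : Matrix (Fin (N + 1)) (Fin (N + 1)) (LK k N) :=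
  fun i j => algebraMap (KA k N) (LK k N) (X (i, j))

theorem aeval_gL (P : KA k N) : aeval (ent (gL k N)) P = algebraMap (KA k N) (LK k N) P := by
  have h1 : aeval (ent (gL k N)) P = (IsScalarTower.toAlgHom k (KA k N) (LK k N)) P := by
    apply DFunLike.congr_fun
    apply MvPolynomial.algHom_ext
    intro i
    rw [aeval_X]
    rfl
  rw [h1]
  rfl

theorem algebraMap_ne {P : KA k N} (hP : P ≠ 0) : algebraMap (KA k N) (LK k N) P ≠ 0 := by
  intro h
  exact hP ((IsFractionRing.to_map_eq_zero_iff (K := LK k N)).1 h)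

theorem det_gL : (gL k N).det ≠ 0 := by
  rw [← aeval_dt_S (k := k) (gL k N), aeval_gL]
  apply algebraMap_ne
  exact Matrix.det_mvPolynomialX_ne_zero _ _

/-- the generic point of the orbit -/
def xo (y : Ix N d → k) : Ix N d → LK k N := fun p => algebraMap (KA k N) (LK k N) (orb y p)

theorem xo_eq (y : Ix N d → k) :
    xo y = actT (gL k N) (fun p => algebraMap k (LK k N) (y p)) := by
  funext p
  rw [← aeval_orb_S, aeval_gL]
  rfl

theorem aeval_xo (y : Ix N d → k) (P : SS k N d) :
    aeval (xo y) P = algebraMap (KA k N) (LK k N) (aeval (orb y) P) := by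
  have h1 := comp_aeval_apply (orb y) (IsScalarTower.toAlgHom k (KA k N) (LK k N)) P
  exact h1.symm

instance ess : Algebra.EssFiniteType k (LK k N) := by
  have h1 : Algebra.EssFiniteType (KA k N) (LK k N) :=
    Algebra.EssFiniteType.of_isLocalization (LK k N) (nonZeroDivisors (KA k N))
  exact Algebra.EssFiniteType.comp k (KA k N) (LK k N)

/-- image of the orbit point under a `k`-homomorphism -/
theorem hom_xo {S : Type} [CommRing S] [Algebra k S] (φ : LK k N →+* S)
    (hφ : ∀ a : k, φ (algebraMap k (LK k N) a) = algebraMap k S a) (y : Ix N d → k) (p : Ix N d) :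
    φ (xo y p) = actT ((gL k N).map φ) (fun p => algebraMap k S (y p)) p := by
  rw [xo_eq, map_actT]
  congr 1
  funext p
  exact hφ (y p)

theorem hom_KA {S : Type} [CommRing S] [Algebra k S] (φ : LK k N →+* S)
    (hφ : ∀ a : k, φ (algebraMap k (LK k N) a) = algebraMap k S a) (P : KA k N) :
    φ (algebraMap (KA k N) (LK k N) P) = aeval (ent ((gL k N).map φ)) P := by
  let φ' : LK k N →ₐ[k] S := { φ with commutes' := hφ }
  rw [← aeval_gL]
  exact comp_aeval_apply (ent (gL k N)) φ' P

theorem NZ_ne_zero {K : Type} [Field K] (hd : 2 ≤ d) {y : Ix N d → K} (hy : NZ (tup y)) :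
    y ≠ 0 := by
  rintro rfl
  have h1 := hy (fun _ => 1) (fun i => by
    unfold tup
    simp)
  exact one_ne_zero (congrFun h1 0)

theorem NZ_ext [IsAlgClosed k] {y : Ix N d → k} (hy : NZ (tup y)) {K : Type} [Field K]
    [Algebra k K] : NZ (tup fun p => algebraMap k K (y p)) := by
  have h1 := NZ_map (K := K) hy
  have h2 : (fun i => map (algebraMap k K) (tup y i)) = tup fun p => algebraMap k K (y p) := by
    funext i
    exact map_tup (algebraMap k K) y i
  rw [h2] at h1
  exact h1

/-- infinitesimal freeness over any extension -/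
theorem xi_inj_ext [IsAlgClosed k] [CharZero k] (hd : 2 ≤ d) {y : Ix N d → k}
    (hy : NZ (tup y)) {K : Type} [Field K] [Algebra k K]
    {A : Matrix (Fin (N + 1)) (Fin (N + 1)) K}
    (hA : xi A (fun p => algebraMap k K (y p)) = 0) : A = 0 := by
  have hchar : CharZero K := charZero_of_injective_algebraMap (algebraMap k K).injective
  have h2 : xi (A.map (algebraMap K (AlgebraicClosure K)))
      (fun p => algebraMap k (AlgebraicClosure K) (y p)) = 0 := by
    funext p
    have h3 := map_xi (algebraMap K (AlgebraicClosure K)) A (fun p => algebraMap k K (y p)) p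
    rw [hA, Pi.zero_apply, map_zero] at h3
    rw [Pi.zero_apply, h3]
    congr 1
  have hchar2 : CharZero (AlgebraicClosure K) :=
    charZero_of_injective_algebraMap (algebraMap K (AlgebraicClosure K)).injective
  have h3 := xi_inj hd (NZ_ext (K := AlgebraicClosure K) hy) h2
  ext i j
  have h4 := congrFun (congrFun h3 i) j
  rw [Matrix.map_apply] at h4
  exact (map_eq_zero (algebraMap K (AlgebraicClosure K))).1 h4

/-- cancellation of an invertible matrix -/
theorem actT_cancel {K : Type} [Field K] {g : Matrix (Fin (N + 1)) (Fin (N + 1)) K}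
    (hg : g.det ≠ 0) {v : Ix N d → K} (h : actT g v = 0) : v = 0 := by
  have h1 := congrArg (actT g⁻¹) h
  rw [actT_actT, Matrix.mul_nonsing_inv _ (isUnit_iff_ne_zero.2 hg), actT_one] at h1
  rw [h1]
  have h2 := actT_smul (g⁻¹) (0 : K) (0 : Ix N d → K)
  rw [zero_smul, zero_smul] at h2
  exact h2

theorem sep [IsAlgClosed k] [CharZero k] (hd : 2 ≤ d) {y : Ix N d → k} (hy : NZ (tup y)) :
    Algebra.IsSeparable (IntermediateField.adjoin k (Set.range (xo y))) (LK k N) := by
  apply sep_of_unram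
  intro φ hφ1 hφ2 hφ3
  obtain ⟨Z, hZ⟩ : ∃ Z : Matrix (Fin (N + 1)) (Fin (N + 1)) (LK k N), ∀ i j,
      Z i j = (φ (gL k N i j)).snd := ⟨Matrix.of fun i j => (φ (gL k N i j)).snd, fun _ _ => rfl⟩
  obtain ⟨e, he⟩ : ∃ e : DualNumber (LK k N), e = DualNumber.eps := ⟨_, rfl⟩
  have hee : e * e = 0 := by
    rw [he]
    exact DualNumber.eps_mul_eps
  have hform : ∀ z : DualNumber (LK k N), z = algebraMap (LK k N) (DualNumber (LK k N)) z.fst +
      e * algebraMap (LK k N) (DualNumber (LK k N)) z.snd := by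
    intro z
    rw [he]
    apply TrivSqZeroExt.ext
    · rw [fst_form]
    · rw [snd_form]
  have hgu : (gL k N)⁻¹ * gL k N = 1 :=
    Matrix.nonsing_inv_mul _ (isUnit_iff_ne_zero.2 det_gL)
  have hφg : (gL k N).map φ = oneEps e (Z * (gL k N)⁻¹) *
      (gL k N).map (algebraMap (LK k N) (DualNumber (LK k N))) := by
    unfold oneEps
    rw [Matrix.add_mul, Matrix.one_mul, Matrix.smul_mul, ← Matrix.map_mul, Matrix.mul_assoc, hgu,
      Matrix.mul_one]
    apply Matrix.ext
    intro i j
    rw [Matrix.map_apply, hform (φ (gL k N i j)), hφ1, Matrix.add_apply, Matrix.smul_apply,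
      Matrix.map_apply, Matrix.map_apply, hZ, smul_eq_mul]
  have hxi : xi (Z * (gL k N)⁻¹) (fun p => algebraMap k (LK k N) (y p)) = 0 := by
    apply actT_cancel (det_gL (k := k) (N := N))
    funext p
    have h1 := hom_xo φ hφ2 y p
    have h2 : (fun p => algebraMap k (DualNumber (LK k N)) (y p)) = fun p =>
        algebraMap (LK k N) (DualNumber (LK k N)) (algebraMap k (LK k N) (y p)) := rfl
    rw [hφg, ← actT_actT, h2] at h1
    have h3 : actT (oneEps e (Z * (gL k N)⁻¹)) (fun p =>
        algebraMap (LK k N) (DualNumber (LK k N)) (algebraMap k (LK k N) (y p))) =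
        (fun p => algebraMap (LK k N) (DualNumber (LK k N)) (algebraMap k (LK k N) (y p))) +
        e • (fun p => algebraMap (LK k N) (DualNumber (LK k N))
          (xi (Z * (gL k N)⁻¹) (fun p => algebraMap k (LK k N) (y p)) p)) := by
      funext p
      rw [actT_eps _ hee]
      rfl
    rw [h3, actT_add, actT_smul, Pi.add_apply, Pi.smul_apply, ← map_actT, ← map_actT, smul_eq_mul,
      he] at h1
    have h4 := congrArg TrivSqZeroExt.snd h1
    rw [hφ3, snd_form] at h4
    exact h4.symm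
  have hY := xi_inj_ext hd hy hxi
  have hZ0 : Z = 0 := by
    have h1 : Z * (gL k N)⁻¹ * gL k N = 0 := by rw [hY, Matrix.zero_mul]
    rwa [Matrix.mul_assoc, hgu, Matrix.mul_one] at h1
  have hφeq : φ = algebraMap (LK k N) (DualNumber (LK k N)) := by
    apply IsLocalization.ringHom_ext (nonZeroDivisors (KA k N))
    apply MvPolynomial.ringHom_ext
    · intro a
      exact hφ2 a
    · rintro ⟨i, j⟩
      change φ (gL k N i j) = algebraMap (LK k N) (DualNumber (LK k N)) (gL k N i j)
      rw [hform (φ (gL k N i j)), hφ1, ← hZ, hZ0, Matrix.zero_apply, map_zero, mul_zero, add_zero]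
  intro a
  rw [hφeq, TrivSqZeroExt.algebraMap_eq_inl]
  simp

theorem aeval_smul_hom {S : Type} [Field S] [Algebra k S] {σ : Type} {p : MvPolynomial σ k} {j : ℕ}
    (hp : p.IsHomogeneous j) (r : S) (x : σ → S) :
    aeval (r • x) p = r ^ j * aeval x p := by
  have h1 := eval_smul_hom (hp.map (algebraMap k S)) r x
  rw [eval_map, eval_map] at h1
  exact h1

/-- forms of degree `(N+d)m` are fractions of functions on the orbit -/
theorem frac [IsAlgClosed k] [CharZero k] (hd : 2 ≤ d) {y : Ix N d → k} (hy : NZ (tup y))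
    (hfree : Free y) {m : ℕ} {h : KA k N} (hh : h.IsHomogeneous ((N + d) * m)) :
    ∃ P Q : SS k N d, aeval (orb y) Q ≠ 0 ∧ aeval (orb y) P = aeval (orb y) Q * h := by
  have hsep := sep hd hy
  obtain ⟨P, Q, hQ, hPQ⟩ := mem_of_embeddings (k := k) (xo y) (algebraMap (KA k N) (LK k N) h) (by
    intro σ hσ1 hσ2
    obtain ⟨τ, hτ⟩ : ∃ τ : LK k N →+* AlgebraicClosure (LK k N),
        τ = algebraMap (LK k N) (AlgebraicClosure (LK k N)) := ⟨_, rfl⟩
    have hτ1 : ∀ a : k, τ (algebraMap k (LK k N) a) = algebraMap k (AlgebraicClosure (LK k N)) a := by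
      intro a
      rw [hτ]
      exact (IsScalarTower.algebraMap_apply k (LK k N) (AlgebraicClosure (LK k N)) a).symm
    have hinf : Infinite k := IsAlgClosed.instInfinite
    have hdet : ∀ ψ : LK k N →+* AlgebraicClosure (LK k N), ((gL k N).map ψ).det ≠ 0 := by
      intro ψ
      have h1 : ((gL k N).map ψ).det = ψ (gL k N).det := by
        rw [RingHom.map_det]
        rfl
      rw [h1]
      intro h2
      exact det_gL ((map_eq_zero ψ).1 h2)
    obtain ⟨yΩ, hyΩ⟩ : ∃ yΩ : Ix N d → AlgebraicClosure (LK k N), yΩ = fun p =>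
        algebraMap k (AlgebraicClosure (LK k N)) (y p) := ⟨_, rfl⟩
    have h1 : actT ((gL k N).map σ) yΩ = actT ((gL k N).map τ) yΩ := by
      funext p
      rw [hyΩ, ← hom_xo σ hσ1 y p, ← hom_xo τ hτ1 y p, hσ2, hτ]
    have hinv : (gL k N).map τ * ((gL k N).map τ)⁻¹ = 1 :=
      Matrix.mul_nonsing_inv _ (isUnit_iff_ne_zero.2 (hdet τ))
    have h2 : actT ((gL k N).map σ * ((gL k N).map τ)⁻¹) yΩ = yΩ := by
      rw [← actT_actT, h1, actT_actT, hinv, actT_one]
    have hfree' : Free yΩ := by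
      rw [hyΩ]
      exact free_ext hfree
    obtain ⟨μ, hμ⟩ := hfree' _ (by
      rw [Matrix.det_mul]
      apply mul_ne_zero (hdet σ)
      rw [Matrix.det_nonsing_inv, Ring.inverse_eq_inv']
      exact inv_ne_zero (hdet τ)) h2
    have hσg : (gL k N).map σ = μ • (gL k N).map τ := by
      have h3 : (gL k N).map σ * ((gL k N).map τ)⁻¹ * (gL k N).map τ =
          (μ • (1 : Matrix (Fin (N + 1)) (Fin (N + 1)) (AlgebraicClosure (LK k N)))) *
            (gL k N).map τ := by rw [hμ]
      rw [Matrix.mul_assoc, Matrix.nonsing_inv_mul _ (isUnit_iff_ne_zero.2 (hdet τ)),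
        Matrix.mul_one, Matrix.smul_mul, Matrix.one_mul] at h3
      exact h3
    have hμ1 : μ ^ (N + d) = 1 := by
      rw [hμ, actT_scalar] at h2
      have hy0 : yΩ ≠ 0 := by
        rw [hyΩ]
        exact NZ_ne_zero hd (NZ_ext hy)
      obtain ⟨p, hp⟩ := Function.ne_iff.1 hy0
      have h3 := congrFun h2 p
      rw [Pi.smul_apply, smul_eq_mul] at h3
      rw [Pi.zero_apply] at hp
      have h4 : (μ ^ (N + d) - 1) * yΩ p = 0 := by linear_combination h3
      rcases mul_eq_zero.1 h4 with h5 | h5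
      · linear_combination h5
      · exact absurd h5 hp
    rw [hom_KA σ hσ1, hσg, ← hτ, hom_KA τ hτ1]
    have h3 : ent (μ • (gL k N).map τ) = μ • ent ((gL k N).map τ) := rfl
    rw [h3, aeval_smul_hom hh, pow_mul, hμ1, one_pow, one_mul])
  refine ⟨P, Q, ?_, ?_⟩
  · rw [aeval_xo] at hQ
    intro h0
    rw [h0, map_zero] at hQ
    exact hQ rfl
  · rw [aeval_xo, aeval_xo, ← map_mul] at hPQ
    have h1 := IsFractionRing.injective (KA k N) (LK k N) hPQ
    rw [← h1, mul_comm]

/-- finitely many monomials at once -/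
theorem frac_finset [IsAlgClosed k] [CharZero k] (hd : 2 ≤ d) {y : Ix N d → k}
    (hy : NZ (tup y)) (hfree : Free y) (m : ℕ) (s : Finset (Fin (N + 1) × Fin (N + 1) →₀ ℕ)) :
    (∀ α ∈ s, α.degree = (N + d) * m) →
    ∃ Q : SS k N d, aeval (orb y) Q ≠ 0 ∧ ∀ h : KA k N, h.support ⊆ s →
      ∃ P : SS k N d, aeval (orb y) P = aeval (orb y) Q * h := by
  classical
  induction s using Finset.induction_on with
  | empty =>
    intro _
    refine ⟨1, by simp, fun h hh => ⟨0, ?_⟩⟩
    have h0 : h = 0 := by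
      rw [← support_eq_empty]
      exact Finset.subset_empty.1 hh
    rw [h0]
    simp
  | insert α s hα ih =>
    intro hs
    obtain ⟨Q, hQ, hQh⟩ := ih (fun β hβ => hs β (Finset.mem_insert_of_mem hβ))
    have hmon : (monomial α (1 : k)).IsHomogeneous ((N + d) * m) :=
      isHomogeneous_monomial _ (hs α (Finset.mem_insert_self _ _))
    obtain ⟨P', Q', hQ', hPQ'⟩ := frac hd hy hfree hmon
    refine ⟨Q * Q', ?_, fun h hh => ?_⟩
    · rw [map_mul]
      exact mul_ne_zero hQ hQ'
    · obtain ⟨P, hP⟩ := hQh (h - C (coeff α h) * monomial α 1) (by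
        intro β hβ
        rw [mem_support_iff, coeff_sub, coeff_C_mul, coeff_monomial] at hβ
        by_cases hβα : α = β
        · rw [← hβα] at hβ
          simp at hβ
        · rw [if_neg hβα, mul_zero, sub_zero] at hβ
          rcases Finset.mem_insert.1 (hh (mem_support_iff.2 hβ)) with h1 | h1
          · exact absurd h1.symm hβα
          · exact h1)
      refine ⟨P * Q' + C (coeff α h) * P' * Q, ?_⟩
      rw [map_add, map_mul, map_mul, map_mul, map_mul, hP, hPQ', aeval_C, algebraMap_eq]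
      ring

/-- the ideal of denominators -/
def DI (y : Ix N d → k) (m : ℕ) : Ideal (SS k N d) where
  carrier := {Q | ∀ h : KA k N, h.IsHomogeneous ((N + d) * m) →
    ∃ P : SS k N d, aeval (orb y) P = aeval (orb y) Q * h}
  add_mem' := by
    intro Q Q' hQ hQ' h hh
    obtain ⟨P, hP⟩ := hQ h hh
    obtain ⟨P', hP'⟩ := hQ' h hh
    refine ⟨P + P', ?_⟩
    rw [map_add, map_add, hP, hP']
    ring
  zero_mem' := by
    intro h _
    exact ⟨0, by simp⟩
  smul_mem' := by
    intro a Q hQ h hh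
    obtain ⟨P, hP⟩ := hQ h hh
    refine ⟨a * P, ?_⟩
    rw [smul_eq_mul, map_mul, map_mul, hP]
    ring

theorem Rsub_homog [Infinite k] (B : Matrix (Fin (N + 1)) (Fin (N + 1)) k) {h : KA k N} {e : ℕ}
    (hh : h.IsHomogeneous e) : (Rsub B h).IsHomogeneous e := by
  unfold Rsub
  have h1 := hh.aeval (fun p : Fin (N + 1) × Fin (N + 1) =>
    (∑ l, C (B l p.2) * X (p.1, l) : KA k N)) (n := 1) (by
      intro p
      refine IsHomogeneous.sum _ _ _ fun l _ => ?_
      exact isHomogeneous_C_mul_X _ _)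
  rw [one_mul] at h1
  exact h1

theorem Rsub_Rsub_inv [Infinite k] {B : Matrix (Fin (N + 1)) (Fin (N + 1)) k} (hB : B.det ≠ 0)
    (h : KA k N) : Rsub B (Rsub B⁻¹ h) = h := by
  apply poly_ext
  intro A _
  rw [eval_Rsub, eval_Rsub, Matrix.mul_assoc, Matrix.mul_nonsing_inv _ (isUnit_iff_ne_zero.2 hB),
    Matrix.mul_one]

theorem DI_stable [Infinite k] {y : Ix N d → k} {m : ℕ}
    {B : Matrix (Fin (N + 1)) (Fin (N + 1)) k} (hB : B.det ≠ 0) {Q : SS k N d}
    (hQ : Q ∈ DI y m) : compT B Q ∈ DI y m := by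
  intro h hh
  obtain ⟨P, hP⟩ := hQ (Rsub B⁻¹ h) (Rsub_homog _ hh)
  refine ⟨compT B P, ?_⟩
  rw [← Rsub_aeval_orb, hP, map_mul, Rsub_aeval_orb, Rsub_Rsub_inv hB]

theorem aeval_semi [Infinite k] {w : ℕ} {P : SS k N d} (hP : IsSemi w P) (c : Ix N d → k) :
    aeval (orb c) P = dt (N + 1) k ^ w * C (eval c P) := by
  apply poly_ext
  intro A _
  rw [eval_aeval_orb, hP A c, map_mul, map_pow, eval_dt, eval_C]

end T08aux

open T08aux

theorem closed_imm [IsAlgClosed k] [CharZero k] (hd : 2 ≤ d) {y : Ix N d → k}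
    (hy : NZ (tup y)) (hfree : Free y) (m : ℕ) :
    ∃ t : ℕ, (∃ P₀ : SS k N d, aeval (orb y) P₀ = dt (N + 1) k ^ t) ∧
      ∀ h : KA k N, h.IsHomogeneous ((N + d) * m) →
        ∃ P : SS k N d, aeval (orb y) P = dt (N + 1) k ^ t * h := by
  classical
  have hinf : Infinite k := IsAlgClosed.instInfinite
  -- a nonzero element of the ideal of denominators
  obtain ⟨Q0, hQ0, hQ0h⟩ := frac_finset hd hy hfree m
    (Finset.finsuppAntidiag Finset.univ ((N + d) * m)) (by
      intro α hα
      rw [Finset.mem_finsuppAntidiag] at hα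
      rw [Finsupp.degree_eq_sum]
      exact hα.1)
  have hQ0D : Q0 ∈ DI y m := by
    intro h hh
    apply hQ0h
    intro α hα
    rw [Finset.mem_finsuppAntidiag]
    refine ⟨?_, Finset.subset_univ _⟩
    rw [← Finsupp.degree_eq_sum]
    by_contra hne
    exact (mem_support_iff.1 hα) (hh.coeff_eq_zero hne)
  -- the closed set
  obtain ⟨Z, hZ⟩ : ∃ Z : Set (Ix N d → k), ∀ c, c ∈ Z ↔ ∀ Q ∈ DI y m, eval c Q = 0 :=
    ⟨{c | ∀ Q ∈ DI y m, eval c Q = 0}, fun _ => Iff.rfl⟩
  obtain ⟨w, R, hR1, hR2, hR3⟩ := exists_semi hd hy Z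
    (by
      intro c hc
      rw [hZ]
      intro Q hQ
      apply hc
      intro z hz
      exact (hZ z).1 hz Q hQ)
    (by
      intro A hA z hz
      rw [hZ] at hz ⊢
      intro Q hQ
      rw [← eval_compT]
      exact hz _ (DI_stable hA hQ))
    (by
      intro hyZ
      rw [hZ] at hyZ
      apply hQ0
      apply poly_ext
      intro A hA
      rw [map_zero, eval_aeval_orb, ← eval_compT]
      exact hyZ _ (DI_stable hA hQ0D))
  -- Nullstellensatz
  have hrad : R ∈ (DI y m).radical := by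
    rw [← vanishingIdeal_zeroLocus_eq_radical (K := k)]
    rw [mem_vanishingIdeal_iff]
    intro z hz
    have h1 : z ∈ Z := by
      rw [hZ]
      intro Q hQ
      exact hz Q hQ
    exact hR3 z h1
  obtain ⟨r, hr⟩ := hrad
  have hsemi : aeval (orb y) (R ^ r) = dt (N + 1) k ^ (w * r) * C ((eval y R) ^ r) := by
    rw [aeval_semi (hR1.pow r) y, map_pow]
  have he : (eval y R) ^ r ≠ 0 := pow_ne_zero _ hR2
  refine ⟨w * r, ⟨C ((eval y R) ^ r)⁻¹ * R ^ r, ?_⟩, fun h hh => ?_⟩
  · rw [map_mul, aeval_C, algebraMap_eq, hsemi, mul_left_comm, ← C_mul,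
      inv_mul_cancel₀ he, C_1, mul_one]
  · obtain ⟨P, hP⟩ := hr h hh
    refine ⟨C ((eval y R) ^ r)⁻¹ * P, ?_⟩
    rw [map_mul, aeval_C, algebraMap_eq, hP, hsemi]
    have h1 : C ((eval y R) ^ r)⁻¹ * C ((eval y R) ^ r) = (1 : KA k N) := by
      rw [← C_mul, inv_mul_cancel₀ he, C_1]
    linear_combination (dt (N + 1) k ^ (w * r) * h) * h1

end

end Pool.Agent.H919M
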