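import Pool.Agent.H919M.Defs

open MvPolynomial

namespace Pool.Agent.H919M

open Pool.Agent.Helper819.Dyn Pool.Agent.Helper819.Apolar

noncomputable section

set_option linter.unusedSectionVars false
set_option linter.unusedVariables false

variable {k : Type} [Field k] {N d : ℕ}

namespace T09

theorem qq_sum (y v : Ix N d → k) {ι : Type} (s : Finset ι) (P : ι → SS k N d) :
    qq y v (∑ i ∈ s, P i) = ∑ i ∈ s, qq y v (P i) := by
  unfold qq
  rw [Finset.sum_comm]
  refine Finset.sum_congr rfl fun p _ => ?_
  rw [map_sum, map_sum, Finset.mul_sum]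

theorem comp_zero [Infinite k] (hd : 1 ≤ d) (y : Ix N d → k) (P : SS k N d)
    (h : aeval (orb y) P = 0) (δ : ℕ) : aeval (orb y) (homogeneousComponent δ P) = 0 := by
  have h2 : homogeneousComponent ((N + d) * δ) (aeval (orb y) P) =
      aeval (orb y) (homogeneousComponent δ P) := by
    conv_lhs => rw [← sum_homogeneousComponent P]
    rw [map_sum, map_sum, Finset.sum_eq_single δ]
    · rw [homogeneousComponent_of_mem (aeval_orb_homog y (homogeneousComponent_isHomogeneous δ P)),
        if_pos rfl]
    · intro b _ hb
      rw [homogeneousComponent_of_mem (aeval_orb_homog y (homogeneousComponent_isHomogeneous b P)),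
        if_neg]
      intro h3
      exact hb (Nat.eq_of_mul_eq_mul_left (by omega) h3.symm)
    · intro hn
      have h5 : homogeneousComponent δ P = 0 :=
        homogeneousComponent_eq_zero _ _ (by simpa using hn)
      rw [h5, map_zero, map_zero]
  rw [← h2, h, map_zero]

theorem qq_zero [Infinite k] (hd : 1 ≤ d) (y v : Ix N d → k)
    (hv : ∀ (δ : ℕ) (P : SS k N d), P.IsHomogeneous δ → aeval (orb y) P = 0 → qq y v P = 0)
    (P : SS k N d) (h : aeval (orb y) P = 0) : qq y v P = 0 := by
  rw [← sum_homogeneousComponent P, qq_sum]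
  exact Finset.sum_eq_zero fun δ _ =>
    hv δ _ (homogeneousComponent_isHomogeneous δ P) (comp_zero hd y P h δ)

theorem xi_expand {R : Type} [CommRing R] (A : Matrix (Fin (N + 1)) (Fin (N + 1)) R)
    (c : Ix N d → R) (p : Ix N d) :
    xi A c p = ∑ i, ∑ j, A i j * xi (Matrix.single i j 1) c p := by
  have h1 : xiL c A = ∑ i, ∑ j, A i j • xiL c (Matrix.single i j 1) := by
    conv_lhs => rw [Matrix.matrix_eq_sum_single A]
    rw [map_sum]
    refine Finset.sum_congr rfl fun i _ => ?_
    rw [map_sum]
    refine Finset.sum_congr rfl fun j _ => ?_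
    rw [← map_smul, Matrix.smul_single, smul_eq_mul, mul_one]
  have h2 := congrFun h1 p
  simp only [Finset.sum_apply, Pi.smul_apply, smul_eq_mul] at h2
  exact h2

theorem descend {L : Type} [Field L] [Algebra k L] (y v : Ix N d → k)
    (Y : Matrix (Fin (N + 1)) (Fin (N + 1)) L)
    (h : (fun p => algebraMap k L (v p)) = xi Y (fun p => algebraMap k L (y p))) :
    ∃ A, v = xi A y := by
  obtain ⟨l, hl⟩ : ∃ l : L →ₗ[k] k, l 1 = 1 := by
    have h1 : (Algebra.linearMap k L) 1 = 1 := by simp
    obtain ⟨l, hl⟩ := (Algebra.linearMap k L).exists_leftInverse_of_injective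
      (LinearMap.ker_eq_bot.mpr (algebraMap k L).injective)
    refine ⟨l, ?_⟩
    have h2 := congrArg (fun g => g (1 : k)) hl
    simpa using h2
  have hl2 : ∀ a : k, l (algebraMap k L a) = a := by
    intro a
    rw [Algebra.algebraMap_eq_smul_one, map_smul, hl, smul_eq_mul, mul_one]
  refine ⟨Y.map l, ?_⟩
  funext p
  have h1 := congrArg l (congrFun h p)
  rw [hl2, xi_expand] at h1
  rw [xi_expand, h1, map_sum]
  refine Finset.sum_congr rfl fun i _ => ?_
  rw [map_sum]
  refine Finset.sum_congr rfl fun j _ => ?_
  have h2 : xi (Matrix.single i j (1 : L)) (fun p => algebraMap k L (y p)) p =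
      algebraMap k L (xi (Matrix.single i j 1) y p) := by
    rw [map_xi]
    congr 1
    ext i' j'
    simp [Matrix.single_apply, apply_ite (algebraMap k L)]
  rw [h2, mul_comm, ← Algebra.smul_def, map_smul, smul_eq_mul, mul_comm, Matrix.map_apply]

end T09

open T09

theorem tangent_of_ideal [IsAlgClosed k] [CharZero k] (hd : 2 ≤ d) {y : Ix N d → k}
    (hy : NZ (tup y)) (v : Ix N d → k)
    (hv : ∀ (δ : ℕ) (P : SS k N d), P.IsHomogeneous δ → aeval (orb y) P = 0 → qq y v P = 0) :
    ∃ A, v = xi A y := by
  have hinf : Infinite k := inferInstance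
  let L := FractionRing (KA k N)
  let a : KA k N →ₐ[k] L := IsScalarTower.toAlgHom k (KA k N) L
  have hinj : Function.Injective a := IsFractionRing.injective (KA k N) L
  have hE : Algebra.EssFiniteType k L := inferInstance
  let x : Ix N d → L := fun p => a (orb y p)
  let u : Ix N d → L := fun p => a (orb v p)
  have hx : ∀ P : SS k N d, aeval x P = a (aeval (orb y) P) :=
    fun P => (comp_aeval_apply (orb y) a P).symm
  obtain ⟨φ, h1, h2, h3⟩ := exists_dual_ext (k := k) (L := L) x u (by
    intro P hP
    rw [hx] at hP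
    have hP0 : aeval (orb y) P = 0 := hinj (by rw [hP, map_zero])
    have h4 := congrArg a (qq_zero (by omega) y v hv P hP0)
    unfold qq at h4
    rw [map_sum, map_zero] at h4
    rw [← h4]
    refine Finset.sum_congr rfl fun p _ => ?_
    rw [map_mul, hx])
  -- matrices
  let G : Matrix (Fin (N + 1)) (Fin (N + 1)) L := (gm k N).map a
  have hdet : IsUnit G.det := by
    rw [isUnit_iff_ne_zero]
    have e1 : G.det = a (gm k N).det := by
      have := AlgHom.map_det a (gm k N)
      rw [this]; rfl
    rw [e1]
    intro h0
    exact Matrix.det_mvPolynomialX_ne_zero (Fin (N + 1)) k (hinj (by rw [h0, map_zero]))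
  let D : Matrix (Fin (N + 1)) (Fin (N + 1)) L := Matrix.of fun i j => (φ (G i j)).snd
  let Y : Matrix (Fin (N + 1)) (Fin (N + 1)) L := D * G⁻¹
  have hYG : Y * G = D := by
    change D * G⁻¹ * G = D
    rw [Matrix.mul_assoc, Matrix.nonsing_inv_mul _ hdet, Matrix.mul_one]
  have hφG : G.map φ = oneEps (DualNumber.eps : DualNumber L) Y *
      G.map (algebraMap L (DualNumber L)) := by
    unfold oneEps
    rw [Matrix.add_mul, Matrix.one_mul, Matrix.smul_mul, ← Matrix.map_mul, hYG]
    refine Matrix.ext fun i j => ?_
    rw [Matrix.map_apply, Matrix.add_apply, Matrix.smul_apply, Matrix.map_apply, Matrix.map_apply,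
      smul_eq_mul]
    apply TrivSqZeroExt.ext
    · rw [fst_form, h1]
    · rw [snd_form]
      rfl
  have hxG : ∀ (c : Ix N d → k) (p : Ix N d),
      a (orb c p) = actT G (fun p => algebraMap k L (c p)) p := by
    intro c p
    have e1 := map_actT (a : KA k N →+* L) (gm k N) (fun p => C (c p)) p
    have e2 : (fun p => (a : KA k N →+* L) (C (c p))) = fun p => algebraMap k L (c p) := by
      funext q
      exact a.commutes (c q)
    rw [e2] at e1
    exact e1
  -- apply φ to x p
  have key : ∀ p, u p = actT G (xi Y (fun p => algebraMap k L (y p))) p := by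
    intro p
    rw [← h3 p]
    change (φ (a (orb y p))).snd = _
    rw [hxG y p, map_actT φ G, hφG]
    have e1 : (fun p => φ (algebraMap k L (y p))) =
        fun p => algebraMap L (DualNumber L) (algebraMap k L (y p)) := by
      funext q
      rw [h2]
      rfl
    rw [e1, ← actT_actT]
    have e2 : actT (oneEps (DualNumber.eps : DualNumber L) Y)
        (fun p => algebraMap L (DualNumber L) (algebraMap k L (y p))) =
        (fun p => algebraMap L (DualNumber L) (algebraMap k L (y p))) +
          (DualNumber.eps : DualNumber L) • (fun p => algebraMap L (DualNumber L)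
            (xi Y (fun p => algebraMap k L (y p)) p)) := by
      funext q
      exact actT_eps _ DualNumber.eps_mul_eps Y (fun p => algebraMap k L (y p)) q
    rw [e2, actT_add, actT_smul, Pi.add_apply, Pi.smul_apply, smul_eq_mul]
    rw [← map_actT (algebraMap L (DualNumber L)) G, ← map_actT (algebraMap L (DualNumber L)) G,
      snd_form]
  have hL : (fun p => algebraMap k L (v p)) = xi Y (fun p => algebraMap k L (y p)) := by
    have e1 : actT G (fun p => algebraMap k L (v p)) =
        actT G (xi Y (fun p => algebraMap k L (y p))) := by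
      funext p
      rw [← key p, ← hxG v p]
    have e2 := congrArg (actT G⁻¹) e1
    rw [actT_actT, actT_actT, Matrix.mul_nonsing_inv _ hdet, actT_one, actT_one] at e2
    exact e2
  exact descend y v Y hL

end

end Pool.Agent.H919M
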