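import Pool.Agent.H919M.T08
import Pool.Agent.H919M.T09

open MvPolynomial

namespace Pool.Agent.H919M

open Pool.Agent.Helper819.Dyn Pool.Agent.Helper819.Apolar

noncomputable section

set_option linter.unusedSectionVars false

variable {k : Type} [Field k] {N d : ℕ}

namespace T10

theorem qq_mul (y v : Ix N d → k) (H f : SS k N d) (hf : aeval (orb y) f = 0) :
    qq y v (H * f) = aeval (orb y) H * qq y v f := by
  unfold qq
  rw [Finset.mul_sum]
  refine Finset.sum_congr rfl fun p _ => ?_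
  rw [pderiv_mul, map_add, map_mul, map_mul, hf]
  ring

theorem qq_homog [Infinite k] (y v : Ix N d → k) {f : SS k N d} {δ : ℕ} (hδ : 1 ≤ δ)
    (hf : f.IsHomogeneous δ) : (qq y v f).IsHomogeneous ((N + d) * δ) := by
  unfold qq
  refine IsHomogeneous.sum _ _ _ fun p _ => ?_
  have h1 := (orb_homog v p).mul (aeval_orb_homog y (hf.pderiv (i := p)))
  have e : N + d + (N + d) * (δ - 1) = (N + d) * δ := by
    obtain ⟨e, rfl⟩ := Nat.exists_eq_add_of_le hδ
    rw [Nat.add_sub_cancel_left]; ring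
  rwa [e] at h1

theorem qq_const (y v : Ix N d → k) {f : SS k N d} (hf : f.IsHomogeneous 0) : qq y v f = 0 := by
  have h0 : f = C (coeff 0 f) := by
    have := totalDegree_eq_zero_iff_eq_C.mp (Nat.le_zero.mp hf.totalDegree_le)
    exact this
  rw [h0]
  unfold qq
  simp

/-- lifting to the right degree -/
theorem lift_comp [Infinite k] (hL : 0 < N + d) (y : Ix N d → k) (P : SS k N d) (g : KA k N) (τ : ℕ)
    (hg : g.IsHomogeneous ((N + d) * τ)) (hP : aeval (orb y) P = g) :
    aeval (orb y) (homogeneousComponent τ P) = g := by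
  have h1 : homogeneousComponent ((N + d) * τ) g = g := by
    rw [homogeneousComponent_of_mem hg, if_pos rfl]
  conv_rhs => rw [← h1, ← hP, ← sum_homogeneousComponent P]
  rw [map_sum, map_sum]
  have h2 : ∀ j, homogeneousComponent ((N + d) * τ)
      (aeval (orb y) (homogeneousComponent j P)) =
        if τ = j then aeval (orb y) (homogeneousComponent j P) else 0 := by
    intro j
    rw [homogeneousComponent_of_mem (aeval_orb_homog y (homogeneousComponent_isHomogeneous j P))]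
    by_cases h : τ = j
    · rw [if_pos h, if_pos (by rw [h])]
    · rw [if_neg h, if_neg]
      intro h'
      exact h (Nat.eq_of_mul_eq_mul_left hL h')
  simp_rw [h2]
  rw [Finset.sum_ite_eq]
  split_ifs with h
  · rfl
  · rw [homogeneousComponent_eq_zero _ _ (by simpa using h), map_zero]

theorem rho_det_pow [CharZero k] (w t : ℕ) (p : KA k N) :
    rho (w + t) (dt (N + 1) k ^ t * p) = rho w p := by
  induction t with
  | zero => simp
  | succ t ih =>
    rw [pow_succ', mul_assoc, ← add_assoc, rho_det_mul, ih]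

theorem Lsub_homog (B : Matrix (Fin (N + 1)) (Fin (N + 1)) k) {q : KA k N} {e : ℕ}
    (hq : q.IsHomogeneous e) : (Lsub B q).IsHomogeneous e := by
  have h1 : (aeval (fun p : Fin (N + 1) × Fin (N + 1) =>
      (∑ l, C (B p.1 l) * X (l, p.2) : KA k N)) q).IsHomogeneous (1 * e) :=
    hq.aeval _ (fun p => IsHomogeneous.sum _ _ _ fun l _ => isHomogeneous_C_mul_X _ _)
  rw [one_mul] at h1
  rw [aeval_eq_bind₁] at h1
  exact h1

theorem Lsub_Lsub_inv [Infinite k] (B : Matrix (Fin (N + 1)) (Fin (N + 1)) k) (hB : B.det ≠ 0)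
    (q : KA k N) : Lsub B (Lsub B⁻¹ q) = q := by
  apply poly_ext
  intro A _
  rw [eval_Lsub, eval_Lsub, ← Matrix.mul_assoc,
    Matrix.nonsing_inv_mul _ (isUnit_iff_ne_zero.mpr hB), Matrix.one_mul]

end T10

open T10

theorem tangent [IsAlgClosed k] [CharZero k] (hd : 2 ≤ d) {y : Ix N d → k}
    (hy : NZ (tup y)) (hfree : Free y) (δ₀ : ℕ) (hδ₀ : 0 < δ₀) (v : Ix N d → k)
    (hv : ∀ (w j : ℕ) (P : SS k N d), P.IsHomogeneous (δ₀ * j) → dd (sharp w P) y v = 0) :
    ∃ A, v = xi A y := by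
  have hinf : Infinite k := inferInstance
  have hL : 0 < N + d := by omega
  apply tangent_of_ideal hd hy v
  intro δ f hf haf
  by_contra hψ
  obtain ⟨ψ, hψdef⟩ : ∃ ψ, ψ = qq y v f := ⟨_, rfl⟩
  rw [← hψdef] at hψ
  have hδ : 1 ≤ δ := by
    rcases Nat.eq_zero_or_pos δ with h | h
    · subst h
      exact absurd (hψdef.trans (qq_const y v hf)) hψ
    · exact h
  have hψh : ψ.IsHomogeneous ((N + d) * δ) := by rw [hψdef]; exact qq_homog y v hδ hf
  -- F2
  have F2 : ∀ (w e : ℕ) (H : SS k N d), H.IsHomogeneous e → δ₀ ∣ e + δ →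
      rho w (aeval (orb y) H * ψ) = 0 := by
    intro w e H hH ⟨j, hj⟩
    rw [hψdef, ← qq_mul y v H f haf, ← dd_sharp]
    apply hv w j
    rw [← hj]
    exact hH.mul hf
  -- F3
  have F3 : ∀ (w m : ℕ) (q : KA k N), q.IsHomogeneous ((N + d) * m) → δ₀ ∣ m + δ →
      rho w (q * ψ) = 0 := by
    intro w m q hq hdiv
    obtain ⟨t, ⟨P₀, hP₀⟩, hlift⟩ := closed_imm hd hy hfree m
    obtain ⟨P, hP⟩ := hlift q hq
    have hdt := dt_homog (N + 1) k
    obtain ⟨L', hL'⟩ := Nat.exists_eq_succ_of_ne_zero hL.ne'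
    have e1 : aeval (orb y) (P₀ ^ (N + d)) = dt (N + 1) k ^ (t * (N + d)) := by
      rw [map_pow, hP₀, ← pow_mul]
    have e2 : aeval (orb y) (P * P₀ ^ (N + d - 1)) = dt (N + 1) k ^ (t * (N + d)) * q := by
      rw [map_mul, map_pow, hP, hP₀, ← pow_mul]
      have : t * (N + d) = t + t * (N + d - 1) := by
        rw [hL', Nat.succ_sub_one, Nat.mul_succ, add_comm]
      rw [this, pow_add]; ring
    have d1 : (dt (N + 1) k ^ (t * (N + d))).IsHomogeneous ((N + d) * ((N + 1) * t)) := by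
      have := hdt.pow (t * (N + d))
      have e : (N + 1) * (t * (N + d)) = (N + d) * ((N + 1) * t) := by ring
      rwa [e] at this
    have d2 : (dt (N + 1) k ^ (t * (N + d)) * q).IsHomogeneous
        ((N + d) * ((N + 1) * t + m)) := by
      have := d1.mul hq
      rwa [← mul_add] at this
    have f1 := lift_comp hL y _ _ _ d1 e1
    have f2 := lift_comp hL y _ _ _ d2 e2
    set P₁ := homogeneousComponent ((N + 1) * t) (P₀ ^ (N + d)) with hP₁
    set Q₁ := homogeneousComponent ((N + 1) * t + m) (P * P₀ ^ (N + d - 1)) with hQ₁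
    have g1 : P₁.IsHomogeneous ((N + 1) * t) := homogeneousComponent_isHomogeneous _ _
    have g2 : Q₁.IsHomogeneous ((N + 1) * t + m) := homogeneousComponent_isHomogeneous _ _
    obtain ⟨δ', hδ'⟩ := Nat.exists_eq_succ_of_ne_zero hδ₀.ne'
    have hH : (Q₁ * P₁ ^ (δ₀ - 1)).IsHomogeneous (m + δ₀ * ((N + 1) * t)) := by
      have := g2.mul (g1.pow (δ₀ - 1))
      have e : (N + 1) * t + m + (N + 1) * t * (δ₀ - 1) = m + δ₀ * ((N + 1) * t) := by
        rw [hδ', Nat.succ_sub_one, Nat.succ_eq_add_one]; ring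
      rwa [e] at this
    have hHa : aeval (orb y) (Q₁ * P₁ ^ (δ₀ - 1)) = dt (N + 1) k ^ (t * (N + d) * δ₀) * q := by
      rw [map_mul, map_pow, f1, f2, ← pow_mul]
      have : t * (N + d) * δ₀ = t * (N + d) + t * (N + d) * (δ₀ - 1) := by
        rw [hδ', Nat.succ_sub_one, Nat.mul_succ, add_comm]
      rw [this, pow_add]; ring
    have h3 := F2 (w + t * (N + d) * δ₀) _ _ hH (by
      have : m + δ₀ * ((N + 1) * t) + δ = m + δ + δ₀ * ((N + 1) * t) := by ring
      rw [this]
      exact dvd_add hdiv (dvd_mul_right _ _))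
    rw [hHa, mul_assoc (dt (N + 1) k ^ (t * (N + d) * δ₀)) q ψ, rho_det_pow] at h3
    exact h3
  -- F4
  have F4 : ∀ (w m : ℕ) (B : Matrix (Fin (N + 1)) (Fin (N + 1)) k), B.det ≠ 0 → ∀ q : KA k N,
      q.IsHomogeneous ((N + d) * m) → δ₀ ∣ m + δ → rho w (q * Lsub B ψ) = 0 := by
    intro w m B hB q hq hdiv
    have e : q * Lsub B ψ = Lsub B (Lsub B⁻¹ q * ψ) := by
      rw [map_mul, Lsub_Lsub_inv B hB]
    rw [e, rho_Lsub, F3 w m _ (Lsub_homog _ hq) hdiv, mul_zero]
  -- F5
  obtain ⟨A₀, hA₀, hA₀ψ⟩ : ∃ A₀ : Matrix (Fin (N + 1)) (Fin (N + 1)) k, A₀.det ≠ 0 ∧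
      eval (ent A₀) ψ ≠ 0 := by
    by_contra hcon
    push Not at hcon
    apply hψ
    apply poly_ext
    intro A hA
    rw [hcon A hA, map_zero]
  set I : Ideal (KA k N) := Ideal.span {g | ∃ B : Matrix (Fin (N + 1)) (Fin (N + 1)) k,
    B.det ≠ 0 ∧ g = Lsub B ψ} with hI
  have hrad : dt (N + 1) k ∈ I.radical := by
    rw [← vanishingIdeal_zeroLocus_eq_radical (K := k), mem_vanishingIdeal_iff]
    intro x hx
    obtain ⟨A, rfl⟩ := ent_surj x
    by_contra hne
    have hne' : eval (ent A) (dt (N + 1) k) ≠ 0 := by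
      intro h
      apply hne
      rw [← coe_aeval_eq_eval] at h
      exact h
    rw [eval_dt] at hne'
    have hAinv : (A⁻¹).det ≠ 0 := by
      rw [Matrix.det_nonsing_inv, Ring.inverse_eq_inv']
      exact inv_ne_zero hne'
    have h3 := (mem_zeroLocus_iff.mp hx) (Lsub (A₀ * A⁻¹) ψ) (Ideal.subset_span
      ⟨A₀ * A⁻¹, by rw [Matrix.det_mul]; exact mul_ne_zero hA₀ hAinv, rfl⟩)
    have h4 : eval (ent A) (Lsub (A₀ * A⁻¹) ψ) = 0 := by
      rw [← coe_aeval_eq_eval]; exact h3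
    rw [eval_Lsub, Matrix.mul_assoc, Matrix.nonsing_inv_mul _ (isUnit_iff_ne_zero.mpr hne'),
      Matrix.mul_one] at h4
    exact hA₀ψ h4
  obtain ⟨r, hr⟩ := hrad
  -- exponents
  have hs : δ ≤ (N + 1) * δ₀ * (r + δ) := by
    have h1 : 1 ≤ (N + 1) * δ₀ := Nat.mul_pos (Nat.succ_pos _) hδ₀
    calc δ ≤ 1 * (r + δ) := by omega
      _ ≤ (N + 1) * δ₀ * (r + δ) := Nat.mul_le_mul_right _ h1
  obtain ⟨m', hm'⟩ := Nat.exists_eq_add_of_le hs
  set R := (N + d) * δ₀ * (r + δ) with hR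
  have hrR : r ≤ R := by
    have h1 : 1 ≤ (N + d) * δ₀ := Nat.mul_pos hL hδ₀
    calc r ≤ 1 * (r + δ) := by omega
      _ ≤ (N + d) * δ₀ * (r + δ) := Nat.mul_le_mul_right _ h1
  have hdeg : (N + 1) * R = (N + d) * m' + (N + d) * δ := by
    rw [← mul_add, hR]
    have : m' + δ = (N + 1) * δ₀ * (r + δ) := by rw [hm']; ring
    rw [this]; ring
  have hdivm : δ₀ ∣ m' + δ := by
    have : m' + δ = δ₀ * ((N + 1) * (r + δ)) := by
      have : m' + δ = (N + 1) * δ₀ * (r + δ) := by rw [hm']; ring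
      rw [this]; ring
    exact ⟨_, this⟩
  have hmem : dt (N + 1) k ^ R ∈ I := by
    rw [← Nat.add_sub_cancel' hrR, pow_add]
    exact Ideal.mul_mem_right _ _ hr
  have hall : ∀ g ∈ I, ∀ a : KA k N, rho R (homogeneousComponent ((N + 1) * R) (a * g)) = 0 := by
    intro g hg
    refine Submodule.span_induction (p := fun g _ => ∀ a : KA k N,
      rho R (homogeneousComponent ((N + 1) * R) (a * g)) = 0) ?_ ?_ ?_ ?_ hg
    · rintro g ⟨B, hB, rfl⟩ a
      rw [hdeg, homComp_mul (Lsub_homog B hψh)]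
      exact F4 R m' B hB _ (homogeneousComponent_isHomogeneous _ _) hdivm
    · intro a
      rw [mul_zero, map_zero, rho_zero]
    · intro x z _ _ hx hz a
      rw [mul_add, map_add, rho_add, hx a, hz a, add_zero]
    · intro b x _ hx a
      have e : a * (b • x) = a * b * x := by rw [smul_eq_mul, mul_assoc a b x]
      rw [e]
      exact hx (a * b)
  have hfin := hall _ hmem 1
  rw [one_mul, homogeneousComponent_of_mem ((dt_homog (N + 1) k).pow R), if_pos rfl, rho_dt] at hfin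
  exact one_ne_zero hfin

end

end Pool.Agent.H919M
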