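import Pool.Agent.H919M.Defs

/-!
T11: the counting lemma (helper459).
-/

open MvPolynomial

namespace Pool.Agent.H919M

open Pool.Agent.Helper819.Dyn Pool.Agent.Helper819.Apolar

noncomputable section

set_option linter.unusedSectionVars false

variable {k : Type} [Field k] {N d : ℕ}

/-- monomials of degree `d ≥ 2` are at least as many as unordered pairs of variables -/
theorem T11_ex_card (hd : 2 ≤ d) : (N + 1) * (N + 2) ≤ 2 * Fintype.card (Ex N d) := by
  classical
  let F : Fin (N + 1) → Fin (N + 1) → Ex N d := fun i j =>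
    ⟨Finsupp.single i 1 + Finsupp.single j 1 + Finsupp.single 0 (d - 2), by
      rw [Finset.mem_finsuppAntidiag]
      refine ⟨?_, Finset.subset_univ _⟩
      simp only [Finsupp.coe_add, Pi.add_apply, Finset.sum_add_distrib]
      have hs : ∀ (a : Fin (N + 1)) (b : ℕ), ∑ x, (Finsupp.single a b) x = b := by
        intro a b
        rw [Finset.sum_eq_single a] <;> simp +contextual
      rw [hs, hs, hs]
      omega⟩
  let G : Sym2 (Fin (N + 1)) → Ex N d := Sym2.lift ⟨F, by
    intro i j
    apply Subtype.ext
    show Finsupp.single i 1 + Finsupp.single j 1 + Finsupp.single 0 (d - 2) =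
      Finsupp.single j 1 + Finsupp.single i 1 + Finsupp.single 0 (d - 2)
    rw [add_comm (Finsupp.single i 1)]⟩
  have hG : Function.Injective G := by
    intro x y
    induction x using Sym2.ind with
    | _ a b =>
    induction y using Sym2.ind with
    | _ a' b' =>
    intro h
    have h1 : (Finsupp.single a 1 + Finsupp.single b 1 + Finsupp.single 0 (d - 2) : Fin (N + 1) →₀ ℕ) =
      Finsupp.single a' 1 + Finsupp.single b' 1 + Finsupp.single 0 (d - 2) := congrArg Subtype.val h
    have h2 := add_right_cancel h1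
    rw [Finsupp.single_add_single_eq_single_add_single one_ne_zero one_ne_zero] at h2
    rw [Sym2.eq_iff]
    rcases h2 with h2 | h2 | h2
    · exact Or.inl h2
    · exact Or.inr ⟨h2.2.1, h2.2.2⟩
    · exact absurd h2.1 (by norm_num)
  have h3 := Fintype.card_le_of_injective G hG
  rw [Sym2.card, Fintype.card_fin, Nat.choose_two_right] at h3
  have h4 : 2 * ((N + 1 + 1) * (N + 1 + 1 - 1) / 2) = (N + 1 + 1) * (N + 1 + 1 - 1) :=
    Nat.mul_div_cancel' (Nat.even_mul_pred_self _).two_dvd
  calc (N + 1) * (N + 2) = (N + 1 + 1) * (N + 1 + 1 - 1) := by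
        rw [Nat.add_sub_cancel]; ring
    _ = 2 * ((N + 1 + 1) * (N + 1 + 1 - 1) / 2) := h4.symm
    _ ≤ 2 * Fintype.card (Ex N d) := Nat.mul_le_mul_left 2 h3

theorem count_lemma (hN : 2 ≤ N) (hd : 2 ≤ d) (l : Fin (N + 1) → k) (D : k)
    (hl : ∃ i j, l i ≠ l j) : 2 + Nat.card {p : Fin (N + 1) × Fin (N + 1) // l p.1 ≠ l p.2} ≤
      Nat.card {p : Ix N d // D * ∏ m, l m ^ (p.2.1 m) ≠ l p.1} := by
  classical
  set m : k → ℕ := fun v => (Finset.univ.filter fun i => l i = v).card with hm
  obtain ⟨i0, hi0⟩ := Finite.exists_max (fun i => m (l i))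
  have hM : ∀ v, m v ≤ m (l i0) := by
    intro v
    by_cases hv : ∃ i, l i = v
    · obtain ⟨i, rfl⟩ := hv
      exact hi0 i
    · have : m v = 0 := by
        rw [hm]
        simp only [Finset.card_eq_zero, Finset.filter_eq_empty_iff, Finset.mem_univ, true_imp_iff]
        intro i hi
        exact hv ⟨i, hi⟩
      omega
  have hcompl : ∀ v, m v + (Finset.univ.filter fun i => v ≠ l i).card = N + 1 := by
    intro v
    have := Finset.card_filter_add_card_filter_not (s := (Finset.univ : Finset (Fin (N + 1)))) (fun i => l i = v)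
    rw [Finset.card_univ, Fintype.card_fin] at this
    refine Eq.trans ?_ this
    congr 2
    ext i
    simp [eq_comm]
  have hMn : m (l i0) ≤ N := by
    by_contra hcon
    push Not at hcon
    have h1 := hcompl (l i0)
    have h2 : (Finset.univ.filter fun i => l i0 ≠ l i).card = 0 := by omega
    rw [Finset.card_eq_zero, Finset.filter_eq_empty_iff] at h2
    obtain ⟨i, j, hij⟩ := hl
    have h3 := h2 (Finset.mem_univ i)
    have h4 := h2 (Finset.mem_univ j)
    push Not at h3 h4
    exact hij (h3.symm.trans h4)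
  -- right hand side
  have hR : (N + 1 - m (l i0)) * Fintype.card (Ex N d) ≤
      Nat.card {p : Ix N d // D * ∏ m, l m ^ (p.2.1 m) ≠ l p.1} := by
    have h0 : Nat.card {p : Ix N d // D * ∏ m, l m ^ (p.2.1 m) ≠ l p.1} =
        (Finset.univ.filter fun p : Ix N d => D * ∏ m, l m ^ (p.2.1 m) ≠ l p.1).card := by
      rw [Nat.card_eq_fintype_card]
      exact Fintype.card_subtype _
    rw [h0, Finset.card_filter, Fintype.sum_prod_type_right]
    have : (N + 1 - m (l i0)) * Fintype.card (Ex N d) = ∑ _y : Ex N d, (N + 1 - m (l i0)) := by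
      rw [Finset.sum_const, Finset.card_univ, smul_eq_mul, mul_comm]
    rw [this]
    apply Finset.sum_le_sum
    intro y _
    rw [← Finset.card_filter]
    have h1 := hcompl (D * ∏ m, l m ^ (y.1 m))
    have h2 := hM (D * ∏ m, l m ^ (y.1 m))
    simp only at h1 ⊢
    omega
  -- left hand side
  have hL : Nat.card {p : Fin (N + 1) × Fin (N + 1) // l p.1 ≠ l p.2} + m (l i0) ^ 2 + (N + 1 - m (l i0)) ≤
      (N + 1) ^ 2 := by
    have h1 : Nat.card {p : Fin (N + 1) × Fin (N + 1) // l p.1 ≠ l p.2} = ∑ i, (N + 1 - m (l i)) := by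
      rw [Nat.card_eq_fintype_card, Fintype.card_subtype, Finset.card_filter, Fintype.sum_prod_type]
      apply Finset.sum_congr rfl
      intro i _
      rw [← Finset.card_filter]
      have := hcompl (l i)
      simp only
      omega
    have h2 : Nat.card {p : Fin (N + 1) × Fin (N + 1) // l p.1 ≠ l p.2} + ∑ i, m (l i) = (N + 1) ^ 2 := by
      rw [h1, ← Finset.sum_add_distrib]
      have : ∀ i ∈ (Finset.univ : Finset (Fin (N + 1))), (N + 1 - m (l i) + m (l i)) = N + 1 := by
        intro i _
        have := hcompl (l i)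
        omega
      rw [Finset.sum_congr rfl this, Finset.sum_const, Finset.card_univ, Fintype.card_fin, smul_eq_mul, sq]
    have h3 : m (l i0) ^ 2 + (N + 1 - m (l i0)) ≤ ∑ i, m (l i) := by
      have h4 : ∑ i, (if l i = l i0 then m (l i0) else 1) ≤ ∑ i, m (l i) := by
        apply Finset.sum_le_sum
        intro i _
        split_ifs with h
        · rw [h]
        · rw [hm]
          apply Finset.card_pos.2
          exact ⟨i, by simp⟩
      refine le_trans (le_of_eq ?_) h4
      rw [Finset.sum_ite, Finset.sum_const, Finset.sum_const, smul_eq_mul, smul_eq_mul, mul_one, sq]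
      have h5 := hcompl (l i0)
      have h6 : (Finset.univ.filter fun i => ¬ l i = l i0) = Finset.univ.filter fun i => l i0 ≠ l i := by
        ext i
        simp [eq_comm]
      rw [h6]
      have h7 : (Finset.univ.filter fun i => l i = l i0).card = m (l i0) := rfl
      rw [h7]
      omega
    omega
  have hE := T11_ex_card (N := N) hd
  set M := m (l i0) with hMdef
  obtain ⟨c, hc⟩ : ∃ c, N + 1 = M + c := ⟨N + 1 - M, by omega⟩
  have hc1 : 1 ≤ c := by omega
  have hc2 : N + 1 - M = c := by omega
  rw [hc2] at hR hL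
  have key : 2 + ((N + 1) ^ 2 - M ^ 2 - c) ≤ c * Fintype.card (Ex N d) := by
    have h1 : c * ((N + 1) * (N + 2)) ≤ 2 * (c * Fintype.card (Ex N d)) := by
      calc c * ((N + 1) * (N + 2)) ≤ c * (2 * Fintype.card (Ex N d)) := Nat.mul_le_mul_left c hE
        _ = 2 * (c * Fintype.card (Ex N d)) := by ring
    have h2 : 2 * (2 + ((N + 1) ^ 2 - M ^ 2 - c)) ≤ c * ((N + 1) * (N + 2)) := by
      have h3 : (N + 1) ^ 2 - M ^ 2 - c = 2 * M * c + c ^ 2 - c := by
        rw [hc, add_sq]
        omega
      rw [h3]
      have h4 : c ≤ c ^ 2 := Nat.le_self_pow two_ne_zero c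
      zify [h4.trans (Nat.le_add_left (c ^ 2) (2 * M * c))]
      have h5 : (M : ℤ) = N + 1 - c := by
        have : (N : ℤ) + 1 = M + c := by exact_mod_cast hc
        linarith
      rw [h5]
      have h6 : (2 : ℤ) ≤ N := by exact_mod_cast hN
      have h7 : (1 : ℤ) ≤ c := by exact_mod_cast hc1
      have h8 : (c : ℤ) ≤ N + 1 := by
        have : c ≤ N + 1 := by omega
        exact_mod_cast this
      have h9 : 0 ≤ (c : ℤ) * (N - 2) := by
        apply mul_nonneg <;> linarith
      have h10 : 0 ≤ (c : ℤ) * (N - 2) * N := by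
        apply mul_nonneg h9; linarith
      nlinarith
    omega
  omega

end

end Pool.Agent.H919M
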