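import Pool.Agent.H919M.Defs

open MvPolynomial

namespace Pool.Agent.H919M

noncomputable section

variable {k : Type} [Field k]

/-- A matrix with a left inverse has an invertible maximal square submatrix. -/
theorem exists_submatrix_det {B : Type} [Fintype B] [DecidableEq B] {n : ℕ}
    (L : Matrix B (Fin n) k) (M : Matrix (Fin n) B k) (h : L * M = 1) :
    ∃ ρ : B → Fin n, (M.submatrix ρ id).det ≠ 0 := by
  by_contra hcon
  push Not at hcon
  have h1 : (L * M).det = 0 := by
    have h2 : (L * M) = fun i => ∑ p, L i p • M p := by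
      ext i j
      simp [Matrix.mul_apply]
    have h3 : (L * M).det = ∑ r : (B → Fin n), Matrix.detRowAlternating (fun i => L i (r i) • M (r i)) := by
      rw [h2]
      exact (Matrix.detRowAlternating (n := B) (R := k)).toMultilinearMap.map_sum (fun i p => L i p • M p)
    rw [h3]
    apply Finset.sum_eq_zero
    intro r _
    have h4 : Matrix.detRowAlternating (fun i => L i (r i) • M (r i)) = 
        (∏ i, L i (r i)) • Matrix.detRowAlternating (fun i => M (r i)) :=
      (Matrix.detRowAlternating (n := B) (R := k)).toMultilinearMap.map_smul_univ (fun i => L i (r i)) (fun i => M (r i))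
    rw [h4]
    have h5 : Matrix.detRowAlternating (fun i => M (r i)) = 0 := hcon r
    rw [h5, smul_zero]
  rw [h, Matrix.det_one] at h1
  exact one_ne_zero h1

theorem exists_normal {n : ℕ} (g : Matrix (Fin n) (Fin n) k) (hg : g.det ≠ 0)
    (l : Fin n → k) : ∃ (z : Matrix (Fin n) (Fin n) k) (ρ : Fin n → Fin n), z.det ≠ 0 ∧
      (∀ i j, l i ≠ l j → z i j = 0) ∧ (∀ i j, l i = l j → i ≠ j → ρ i ≠ ρ j) ∧
      ∀ i j, l i = l j → (g * z) (ρ i) j = if i = j then 1 else 0 := by
  classical
  have hgi : g⁻¹ * g = 1 := Matrix.nonsing_inv_mul g (isUnit_iff_ne_zero.2 hg)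
  have key : ∀ lam : k, ∃ ρ : {j : Fin n // l j = lam} → Fin n,
      (g.submatrix ρ (Subtype.val : {j : Fin n // l j = lam} → Fin n)).det ≠ 0 := by
    intro lam
    have h1 : (g⁻¹.submatrix (Subtype.val : {j : Fin n // l j = lam} → Fin n) id) *
        (g.submatrix id (Subtype.val : {j : Fin n // l j = lam} → Fin n)) = 1 := by
      ext i j
      have := congrFun (congrFun hgi i.1) j.1
      rw [Matrix.mul_apply] at this
      rw [Matrix.mul_apply]
      simp only [Matrix.submatrix_apply, id]
      rw [this, Matrix.one_apply, Matrix.one_apply]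
      simp [Subtype.ext_iff]
    obtain ⟨ρ, hρ⟩ := exists_submatrix_det _ _ h1
    exact ⟨ρ, by simpa using hρ⟩
  choose r hr using key
  let Nm : ∀ lam : k, Matrix {j : Fin n // l j = lam} {j : Fin n // l j = lam} k := fun lam =>
    g.submatrix (r lam) (Subtype.val : {j : Fin n // l j = lam} → Fin n)
  have hN : ∀ lam, Nm lam * (Nm lam)⁻¹ = 1 := fun lam =>
    Matrix.mul_nonsing_inv _ (isUnit_iff_ne_zero.2 (hr lam))
  let z : Matrix (Fin n) (Fin n) k := fun i j =>
    if h : l i = l j then (Nm (l j))⁻¹ ⟨i, h⟩ ⟨j, rfl⟩ else 0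
  let ρ : Fin n → Fin n := fun i => r (l i) ⟨i, rfl⟩
  have hz0 : ∀ i j, l i ≠ l j → z i j = 0 := fun i j h => dif_neg h
  have hρ : ∀ (i : Fin n) (lam : k) (h : l i = lam), ρ i = r lam ⟨i, h⟩ := by
    rintro i lam rfl; rfl
  have hgz : ∀ i j, l i = l j → (g * z) (ρ i) j = if i = j then 1 else 0 := by
    intro i j hij
    rw [Matrix.mul_apply]
    have h1 : ∑ m, g (ρ i) m * z m j = 
        ∑ m ∈ Finset.univ.filter (fun m => l m = l j), g (ρ i) m * z m j := by
      rw [Finset.sum_filter_of_ne]
      intro m _ hm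
      by_contra hlm
      apply hm
      rw [hz0 m j hlm, mul_zero]
    rw [h1, Finset.sum_subtype (p := fun m => l m = l j) _ (by intro x; simp)]
    have h2 := congrFun (congrFun (hN (l j)) ⟨i, hij⟩) ⟨j, rfl⟩
    rw [Matrix.mul_apply, Matrix.one_apply] at h2
    have h3 : (∑ m : {m // l m = l j}, g (ρ i) m.1 * z m.1 j) = 
       ∑ m : {m // l m = l j}, Nm (l j) ⟨i, hij⟩ m * (Nm (l j))⁻¹ m ⟨j, rfl⟩ := by
      apply Finset.sum_congr rfl
      intro m _
      have h4 : z m.1 j = (Nm (l j))⁻¹ m ⟨j, rfl⟩ := dif_pos m.2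
      rw [h4, hρ i (l j) hij]
      rfl
    rw [h3, h2]
    simp [Subtype.ext_iff]
  refine ⟨z, ρ, ?_, hz0, ?_, hgz⟩
  · let z' : Matrix (Fin n) (Fin n) k := fun i j => if l i = l j then g (ρ i) j else 0
    have h1 : z' * z = 1 := by
      ext i j
      rw [Matrix.mul_apply, Matrix.one_apply]
      by_cases hij : l i = l j
      · rw [← hgz i j hij, Matrix.mul_apply]
        apply Finset.sum_congr rfl
        intro m _
        by_cases hm : l m = l j
        · have : z' i m = g (ρ i) m := if_pos (hij.trans hm.symm)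
          rw [this]
        · rw [hz0 m j hm, mul_zero, mul_zero]
      · rw [if_neg (by rintro rfl; exact hij rfl)]
        apply Finset.sum_eq_zero
        intro m _
        by_cases hm : l m = l j
        · have : z' i m = 0 := if_neg (fun h => hij (h.trans hm))
          rw [this, zero_mul]
        · rw [hz0 m j hm, mul_zero]
    intro h0
    have h2 := congrArg Matrix.det h1
    rw [Matrix.det_mul, h0, mul_zero, Matrix.det_one] at h2
    exact zero_ne_one h2
  · intro i j hij hne heq
    apply hr (l j)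
    apply Matrix.det_zero_of_row_eq (i := ⟨i, hij⟩) (j := ⟨j, rfl⟩)
    · simpa [Subtype.ext_iff] using hne
    · ext m
      have e1 : ρ i = r (l j) ⟨i, hij⟩ := hρ i (l j) hij
      have e2 : ρ j = r (l j) ⟨j, rfl⟩ := hρ j (l j) rfl
      rw [Matrix.submatrix_apply, Matrix.submatrix_apply, ← e1, ← e2, heq]

end

end Pool.Agent.H919M
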