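import Pool.Agent.H919M.Defs

open MvPolynomial

namespace Pool.Agent.H919M

open Pool.Agent.Helper819.Dyn Pool.Agent.Helper819.Apolar

noncomputable section

set_option linter.unusedSectionVars false

variable {k : Type} [Field k] {N d : ℕ}

theorem coeff_scale (l : Fin (N + 1) → k) (F : MvPolynomial (Fin (N + 1)) k)
    (α : Fin (N + 1) →₀ ℕ) :
    coeff α (bind₁ (fun a => C (l a) * X a) F) = (∏ m, l m ^ α m) * coeff α F := by
  classical
  induction F using MvPolynomial.induction_on' with
  | monomial s a =>
    have h1 : bind₁ (fun a => C (l a) * X a) (monomial s a) =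
        monomial s (a * ∏ m, l m ^ s m) := by
      rw [bind₁_monomial]
      have h2 : ∀ i, (C (l i) * X i : MvPolynomial (Fin (N + 1)) k) ^ s i =
          C (l i ^ s i) * X i ^ s i := by
        intro i
        rw [mul_pow, C_pow]
      rw [Finset.prod_subset (Finset.subset_univ s.support)
        (f := fun i => (C (l i) * X i : MvPolynomial (Fin (N + 1)) k) ^ s i) (by
          intro i _ hi
          rw [Finsupp.notMem_support_iff.mp hi, pow_zero])]
      simp_rw [h2]
      rw [Finset.prod_mul_distrib, ← map_prod, ← mul_assoc, ← C_mul]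
      rw [monomial_eq (s := s), Finsupp.prod_fintype _ _ (by intro i; exact pow_zero _)]
    rw [h1, coeff_monomial, coeff_monomial]
    split_ifs with h
    · rw [h, mul_comm]
    · rw [mul_zero]
  | add p q hp hq => rw [map_add, coeff_add, hp, hq, coeff_add, mul_add]

theorem actT_diag (l : Fin (N + 1) → k) (c : Ix N d → k) (p : Ix N d) :
    l p.1 * actT (Matrix.diagonal l) c p =
      (∏ m, l m) * (∏ m, l m ^ (p.2.1 m)) * c p := by
  classical
  unfold actT cf act
  have h1 : (fun a => ∑ m, C (Matrix.diagonal l a m) * X m :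
      Fin (N + 1) → MvPolynomial (Fin (N + 1)) k) = fun a => C (l a) * X a := by
    funext a
    rw [Finset.sum_eq_single a]
    · rw [Matrix.diagonal_apply_eq]
    · intro b _ hb
      rw [Matrix.diagonal_apply_ne _ hb.symm, C_0, zero_mul]
    · intro h; exact absurd (Finset.mem_univ _) h
  rw [h1, Matrix.adjugate_diagonal, Finset.sum_eq_single p.1]
  · rw [Matrix.diagonal_apply_eq, coeff_C_mul, coeff_scale, coeff_tup,
      ← Finset.mul_prod_erase Finset.univ l (Finset.mem_univ p.1)]
    ring
  · intro b _ hb
    rw [Matrix.diagonal_apply_ne _ hb.symm, C_0, zero_mul]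
  · intro h; exact absurd (Finset.mem_univ _) h

end

end Pool.Agent.H919M
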