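import Pool.Agent.H919M.Defs
import Pool.Agent.H919M.T11
import Pool.Agent.H919M.T12
import Pool.Agent.H919M.T13

open MvPolynomial

namespace Pool.Agent.H919M

open Pool.Agent.Helper819.Dyn Pool.Agent.Helper819.Apolar

noncomputable section

set_option linter.unusedSectionVars false

theorem t14_card_le {k Ω : Type} [Field k] [Field Ω] [Algebra k Ω] {ι κ : Type} [Finite ι]
    [Finite κ] (x : ι → Ω) (s : κ → Ω) (hx : AlgebraicIndependent k x)
    (h : ∀ i, x i ∈ IntermediateField.adjoin k (Set.range s)) : Nat.card ι ≤ Nat.card κ := by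
  let s'' : κ → IntermediateField.adjoin k (Set.range s) :=
    fun i => ⟨s i, IntermediateField.subset_adjoin k _ ⟨i, rfl⟩⟩
  let x'' : ι → IntermediateField.adjoin k (Set.range s) := fun i => ⟨x i, h i⟩
  have hx'' : AlgebraicIndependent k x'' := by
    have h1 : AlgebraicIndependent k
        (fun i => (IntermediateField.adjoin k (Set.range s)).val (x'' i)) := hx
    exact AlgebraicIndependent.of_comp _ h1
  have hmap : Algebra.adjoin k (Set.range s) =
      (Algebra.adjoin k (Set.range s'')).map (IntermediateField.adjoin k (Set.range s)).val := by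
    rw [AlgHom.map_adjoin, ← Set.range_comp]
    rfl
  have halg : Algebra.IsAlgebraic (Algebra.adjoin k (Set.range s''))
      (IntermediateField.adjoin k (Set.range s)) := by
    constructor
    intro z
    obtain ⟨r, hr, q, hq, hz⟩ := IntermediateField.mem_adjoin_iff_div.1 z.2
    rw [hmap] at hr hq
    obtain ⟨r', hr', rfl⟩ := hr
    obtain ⟨q', hq', rfl⟩ := hq
    have hz' : z = r' / q' := by
      apply Subtype.ext
      rw [hz]
      rfl
    rw [hz', div_eq_mul_inv]
    have h1 : IsAlgebraic (Algebra.adjoin k (Set.range s'')) r' :=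
      isAlgebraic_algebraMap (⟨r', hr'⟩ : Algebra.adjoin k (Set.range s''))
    have h2 : IsAlgebraic (Algebra.adjoin k (Set.range s'')) q' :=
      isAlgebraic_algebraMap (⟨q', hq'⟩ : Algebra.adjoin k (Set.range s''))
    exact h1.mul h2.inv
  have h3 := Algebra.IsAlgebraic.trdeg_le_cardinalMk k (Set.range s'')
  have h4 := hx''.cardinalMk_le_trdeg
  have h5 := h4.trans h3
  have h6 : Cardinal.mk (Set.range s'') ≤ Cardinal.mk κ := Cardinal.mk_range_le
  have h7 := h5.trans h6
  exact Cardinal.toNat_le_toNat h7 (Cardinal.lt_aleph0_of_finite κ)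

theorem t14_card_compl {α : Type} [Finite α] (P : α → Prop) :
    Nat.card {a // P a} + Nat.card {a // ¬ P a} = Nat.card α := by
  classical
  rw [← Nat.card_sum]
  exact Nat.card_congr (Equiv.sumCompl P)

theorem t14_count {n : ℕ} {K : Type} (l : Fin n → K) (ρ : Fin n → Fin n)
    (hρ : ∀ i j, l i = l j → i ≠ j → ρ i ≠ ρ j) :
    Nat.card {x : Fin n × Fin n // ∀ i, l i = l x.2 → ρ i ≠ x.1} ≤
      Nat.card {p : Fin n × Fin n // l p.1 ≠ l p.2} := by
  classical
  have key : ∀ (P : Fin n → Fin n → Prop), Nat.card {x : Fin n × Fin n // P x.1 x.2} =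
      ∑ j : Fin n, (Finset.univ.filter (fun r => P r j)).card := by
    intro P
    rw [Nat.card_eq_fintype_card, Fintype.card_subtype, Finset.card_filter,
      Fintype.sum_prod_type_right]
    refine Finset.sum_congr rfl fun j _ => ?_
    rw [Finset.card_filter]
  rw [key (fun r j => ∀ i, l i = l j → ρ i ≠ r), key (fun r j => l r ≠ l j)]
  refine Finset.sum_le_sum fun j _ => ?_
  have h3 : ((Finset.univ.filter (fun i => l i = l j)).image ρ).card =
      (Finset.univ.filter (fun i => l i = l j)).card := by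
    apply Finset.card_image_of_injOn
    intro a ha b hb hab
    by_contra hne
    have ha' : l a = l j := (Finset.mem_filter.1 ha).2
    have hb' : l b = l j := (Finset.mem_filter.1 hb).2
    exact hρ a b (ha'.trans hb'.symm) hne hab
  refine (Finset.card_le_card (t := ((Finset.univ.filter (fun i => l i = l j)).image ρ)ᶜ)
    ?_).trans ?_
  · intro r hr
    simp only [Finset.mem_filter, Finset.mem_univ, true_and] at hr
    rw [Finset.mem_compl, Finset.mem_image]
    rintro ⟨i, hi, rfl⟩
    exact hr i (Finset.mem_filter.1 hi).2 rfl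
  · rw [Finset.card_compl, h3, ← Finset.card_compl]
    apply Finset.card_le_card
    intro r hr
    rw [Finset.mem_compl] at hr
    simp only [Finset.mem_filter, Finset.mem_univ, true_and] at hr ⊢
    exact hr

variable {k : Type} [Field k] {N d : ℕ}

theorem free_of_indep [IsAlgClosed k] [CharZero k] {Ω : Type} [Field Ω] [IsAlgClosed Ω]
    [Algebra k Ω] (hN : 2 ≤ N) (hd : 2 ≤ d) {y : Ix N d → Ω} (hy : NZ (tup y)) (p₀ : Ix N d)
    (hind : AlgebraicIndependent k (fun q : {q : Ix N d // q ≠ p₀} => y q)) : Free y := by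
  classical
  have hcz : CharZero Ω := charZero_of_injective_algebraMap (algebraMap k Ω).injective
  intro A hdet hA
  by_contra hns
  obtain ⟨g, l, hg, hgl⟩ := exists_diag hd hy A hdet hA
  have hl : ∃ i j, l i ≠ l j := by
    by_contra hcon
    push Not at hcon
    apply hns
    refine ⟨l 0, ?_⟩
    have h1 : Matrix.diagonal l = l 0 • (1 : Matrix (Fin (N + 1)) (Fin (N + 1)) Ω) := by
      ext i j
      rw [Matrix.diagonal_apply, Matrix.smul_apply, Matrix.one_apply]
      by_cases h : i = j
      · rw [if_pos h, if_pos h, hcon i 0]; simp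
      · rw [if_neg h, if_neg h]; simp
    have hgu : IsUnit g.det := isUnit_iff_ne_zero.2 hg
    calc A = A * g * g⁻¹ := by rw [Matrix.mul_assoc, Matrix.mul_nonsing_inv _ hgu, mul_one]
      _ = l 0 • (1 : Matrix (Fin (N + 1)) (Fin (N + 1)) Ω) := by
        rw [hgl, h1, Matrix.mul_smul, Matrix.mul_one, Matrix.smul_mul,
          Matrix.mul_nonsing_inv _ hgu]
  obtain ⟨z, ρ, hz, hz0, hρ, hnorm⟩ := exists_normal g hg l
  set B := g * z with hB
  have hBdet : B.det ≠ 0 := by rw [hB, Matrix.det_mul]; exact mul_ne_zero hg hz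
  have hzd : z * Matrix.diagonal l = Matrix.diagonal l * z := by
    ext i j
    rw [Matrix.mul_diagonal, Matrix.diagonal_mul]
    by_cases h : l i = l j
    · rw [h, mul_comm]
    · rw [hz0 i j h]; simp
  have hAB : A * B = B * Matrix.diagonal l := by
    rw [hB, ← Matrix.mul_assoc, hgl, Matrix.mul_assoc, Matrix.mul_assoc, hzd]
  set y' := actT B y with hy'
  have h1 : actT (Matrix.diagonal l) y' = y' := by
    rw [hy', actT_actT, ← hAB, ← actT_actT, hA]
  have hsupp : ∀ p : Ix N d, y' p ≠ 0 → (∏ m, l m) * ∏ m, l m ^ (p.2.1 m) = l p.1 := by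
    intro p hp
    have h2 := actT_diag l y' p
    rw [h1] at h2
    exact mul_right_cancel₀ hp h2.symm
  -- the generators
  let κ1 : Type := {x : Fin (N + 1) × Fin (N + 1) // ∀ i, l i = l x.2 → ρ i ≠ x.1}
  let κ2 : Type := {p : Ix N d // (∏ m, l m) * ∏ m, l m ^ (p.2.1 m) = l p.1}
  let s : κ1 ⊕ κ2 → Ω := Sum.elim (fun x => B x.1.1 x.1.2) (fun p => y' p.1)
  let F : IntermediateField k Ω := IntermediateField.adjoin k (Set.range s)
  have hBF : ∀ r j, B r j ∈ F := by
    intro r j
    by_cases h : ∀ i, l i = l j → ρ i ≠ r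
    · exact IntermediateField.subset_adjoin k _ ⟨Sum.inl ⟨(r, j), h⟩, rfl⟩
    · push Not at h
      obtain ⟨i, hi, rfl⟩ := h
      rw [hnorm i j hi]
      by_cases hij : i = j
      · rw [if_pos hij]; exact F.one_mem
      · rw [if_neg hij]; exact F.zero_mem
  have hyF : ∀ p, y' p ∈ F := by
    intro p
    by_cases h : y' p = 0
    · rw [h]; exact F.zero_mem
    · exact IntermediateField.subset_adjoin k _ ⟨Sum.inr ⟨p, hsupp p h⟩, rfl⟩
  let M : Matrix (Fin (N + 1)) (Fin (N + 1)) F := Matrix.of fun r j => ⟨B r j, hBF r j⟩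
  let y'' : Ix N d → F := fun p => ⟨y' p, hyF p⟩
  have hMB : M.map (algebraMap F Ω) = B := by
    ext r j
    rfl
  have hMdet : M.det ≠ 0 := by
    intro h0
    apply hBdet
    rw [← hMB, ← RingHom.mapMatrix_apply, ← RingHom.map_det, h0, map_zero]
  have hinv : B * (M⁻¹).map (algebraMap F Ω) = 1 := by
    have h2 : M * M⁻¹ = 1 := Matrix.mul_nonsing_inv _ (isUnit_iff_ne_zero.2 hMdet)
    have h3 := congrArg (fun X : Matrix (Fin (N + 1)) (Fin (N + 1)) F =>
      X.map (algebraMap F Ω)) h2
    simp only [Matrix.map_mul] at h3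
    rw [hMB] at h3
    rw [h3]
    exact Matrix.map_one _ (map_zero _) (map_one _)
  have hyq : ∀ q, y q ∈ F := by
    intro q
    have h2 := map_actT (algebraMap F Ω) M⁻¹ y'' q
    have h3 : (fun p => algebraMap F Ω (y'' p)) = actT B y := rfl
    rw [h3, actT_actT, hinv, actT_one] at h2
    rw [← h2]
    exact (actT M⁻¹ y'' q).2
  have hfin1 : Finite κ1 := Subtype.finite
  have hfin2 : Finite κ2 := Subtype.finite
  have hcard := t14_card_le (fun q : {q : Ix N d // q ≠ p₀} => y q) s hind
    (fun i => hyq i.1)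
  rw [Nat.card_sum] at hcard
  have hc1 : Nat.card κ1 ≤ Nat.card {p : Fin (N + 1) × Fin (N + 1) // l p.1 ≠ l p.2} :=
    t14_count l ρ hρ
  have hc2 : Nat.card κ2 + Nat.card {p : Ix N d // (∏ m, l m) * ∏ m, l m ^ (p.2.1 m) ≠ l p.1}
      = Nat.card (Ix N d) :=
    t14_card_compl (fun p : Ix N d => (∏ m, l m) * ∏ m, l m ^ (p.2.1 m) = l p.1)
  have hc3 := t14_card_compl (fun q : Ix N d => q = p₀)
  have hc4 : Nat.card {q : Ix N d // q = p₀} = 1 := by
    rw [Nat.card_eq_one_iff_unique]
    exact ⟨⟨fun a b => Subtype.ext (a.2.trans b.2.symm)⟩, ⟨⟨p₀, rfl⟩⟩⟩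
  have hc5 := count_lemma hN hd l (∏ m, l m) hl
  have hc6 : Nat.card {q : Ix N d // q ≠ p₀} = Nat.card {q : Ix N d // ¬ q = p₀} := rfl
  omega

end

end Pool.Agent.H919M
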