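import Pool.Agent.H919M.Defs

open MvPolynomial

namespace Pool.Agent.H919M

noncomputable section

variable {k : Type} [Field k]

theorem exists_generic_aux [CharZero k] {σ : Type} 
    (f : σ → k) (φ : MvPolynomial σ k) (I : Ideal (MvPolynomial σ k)) [hI : I.IsPrime]
    (hφI : φ ∈ I) (hIf : ∀ P ∈ I, eval f P = 0) (p₀ : σ)
    (hp₀ : ∀ Q : MvPolynomial {q : σ // q ≠ p₀} k, rename (Subtype.val) Q ∈ I → Q = 0) :
    ∃ (Ω : Type) (_ : Field Ω) (_ : IsAlgClosed Ω) (_ : CharZero Ω) (_ : Algebra k Ω)
      (y : σ → Ω) (p₀ : σ), aeval y φ = 0 ∧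
      (∀ P : MvPolynomial σ k, aeval y P = 0 → eval f P = 0) ∧
      AlgebraicIndependent k (fun q : {q : σ // q ≠ p₀} => y q) := by
  let A := MvPolynomial σ k ⧸ I
  let K := FractionRing A
  let Ω := AlgebraicClosure K
  have hinj : Function.Injective (algebraMap A Ω) := by
    rw [IsScalarTower.algebraMap_eq A K Ω]
    exact (algebraMap K Ω).injective.comp (IsFractionRing.injective A K)
  let y : σ → Ω := fun p => algebraMap A Ω (Ideal.Quotient.mk I (X p))
  have hy : ∀ P : MvPolynomial σ k, aeval y P = algebraMap A Ω (Ideal.Quotient.mk I P) := by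
    intro P
    have : (aeval y : MvPolynomial σ k →ₐ[k] Ω) = 
      (IsScalarTower.toAlgHom k A Ω).comp (Ideal.Quotient.mkₐ k I) := by
      apply MvPolynomial.algHom_ext
      intro p
      rw [aeval_X]
      rfl
    rw [this]; rfl
  have hy0 : ∀ P : MvPolynomial σ k, aeval y P = 0 ↔ P ∈ I := by
    intro P
    rw [hy, map_eq_zero_iff _ hinj, Ideal.Quotient.eq_zero_iff_mem]
  have hcz : CharZero Ω := charZero_of_injective_algebraMap (algebraMap k Ω).injective
  refine ⟨Ω, inferInstance, inferInstance, hcz, inferInstance, y, p₀, (hy0 φ).2 hφI,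
    fun P hP => hIf P ((hy0 P).1 hP), ?_⟩
  rw [algebraicIndependent_iff]
  intro Q hQ
  apply hp₀
  rw [← hy0, aeval_rename]
  exact hQ

theorem exists_generic [IsAlgClosed k] [CharZero k] {σ : Type} [Finite σ] [Nonempty σ]
    (f : σ → k) (φ : MvPolynomial σ k) (hφ : eval f φ = 0) :
    ∃ (Ω : Type) (_ : Field Ω) (_ : IsAlgClosed Ω) (_ : CharZero Ω) (_ : Algebra k Ω)
      (y : σ → Ω) (p₀ : σ), aeval y φ = 0 ∧
      (∀ P : MvPolynomial σ k, aeval y P = 0 → eval f P = 0) ∧
      AlgebraicIndependent k (fun q : {q : σ // q ≠ p₀} => y q) := by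
  classical
  by_cases h0 : φ = 0
  · obtain ⟨p₀⟩ := (inferInstance : Nonempty σ)
    refine exists_generic_aux f φ ⊥ (by rw [h0]; exact zero_mem _) ?_ p₀ ?_
    · intro P hP
      rw [Ideal.mem_bot] at hP
      rw [hP, map_zero]
    · intro Q hQ
      rw [Ideal.mem_bot] at hQ
      exact rename_injective _ Subtype.val_injective (by rw [hQ, map_zero])
  · -- choose irreducible factor
    obtain ⟨π, hπirr, hπdvd, hπf⟩ : ∃ π : MvPolynomial σ k, Prime π ∧ π ∣ φ ∧ eval f π = 0 := by
      obtain ⟨s, hs, hsφ⟩ := UniqueFactorizationMonoid.exists_prime_factors φ h0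
      have h1 : eval f s.prod = 0 := by
        obtain ⟨u, hu⟩ := hsφ
        have h2 : eval f s.prod * eval f (u : MvPolynomial σ k) = 0 := by
          rw [← map_mul, hu, hφ]
        rcases mul_eq_zero.1 h2 with h3 | h3
        · exact h3
        · exact absurd h3 ((u.isUnit.map (eval f)).ne_zero)
      rw [map_multiset_prod, Multiset.prod_eq_zero_iff, Multiset.mem_map] at h1
      obtain ⟨π, hπs, hπ0⟩ := h1
      exact ⟨π, hs π hπs, (Multiset.dvd_prod hπs).trans hsφ.dvd, hπ0⟩
    -- π involves a variable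
    have hvars : ∃ p₀, p₀ ∈ π.vars := by
      by_contra hcon
      push Not at hcon
      have hv : π.vars = ∅ := Finset.eq_empty_of_forall_notMem hcon
      have hC : π = C (coeff 0 π) := by
        have := (vars_eq_empty_iff_eq_C (p := π)).1 hv
        exact this
      have hc : coeff 0 π = 0 := by
        rw [hC, eval_C] at hπf
        exact hπf
      rw [hc, C_0] at hC
      exact hπirr.ne_zero hC
    obtain ⟨p₀, hp₀⟩ := hvars
    have : (Ideal.span {π}).IsPrime := (Ideal.span_singleton_prime hπirr.ne_zero).2 hπirr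
    refine exists_generic_aux f φ (Ideal.span {π}) (Ideal.mem_span_singleton.2 hπdvd) ?_ p₀ ?_
    · intro P hP
      obtain ⟨R, hR⟩ := Ideal.mem_span_singleton.1 hP
      rw [hR, map_mul, hπf, zero_mul]
    · intro Q hQ
      by_contra hQ0
      obtain ⟨R, hR⟩ := Ideal.mem_span_singleton.1 hQ
      have hren0 : rename (Subtype.val : {q : σ // q ≠ p₀} → σ) Q ≠ 0 := by
        intro h
        exact hQ0 (rename_injective _ Subtype.val_injective (by rw [h, map_zero]))
      have hR0 : R ≠ 0 := by
        rintro rfl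
        rw [mul_zero] at hR
        exact hren0 hR
      have hd : degreeOf p₀ (rename (Subtype.val : {q : σ // q ≠ p₀} → σ) Q) = 0 := by
        by_contra hne
        have hmem : p₀ ∈ (rename (Subtype.val : {q : σ // q ≠ p₀} → σ) Q).vars := by
          rw [vars_def, Multiset.mem_toFinset]
          rw [degreeOf_def] at hne
          exact Multiset.count_ne_zero.1 hne
        have := vars_rename (Subtype.val : {q : σ // q ≠ p₀} → σ) Q hmem
        rw [Finset.mem_image] at this
        obtain ⟨q, -, hq⟩ := this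
        exact q.2 hq
      have hd2 : 0 < degreeOf p₀ π := by
        rw [degreeOf_def]
        rw [vars_def, Multiset.mem_toFinset] at hp₀
        exact Multiset.count_pos.2 hp₀
      rw [hR, degreeOf_mul_eq hπirr.ne_zero hR0] at hd
      omega

end

end Pool.Agent.H919M
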