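import Mathlib

namespace Pool.Agent.H919M

noncomputable section

set_option linter.unusedSectionVars false

theorem nak_abs {B Ω ι : Type} [CommRing B] [IsLocalRing B] [IsNoetherianRing B] [Field Ω]
    [Finite ι] (E : B →+* Ω) (D : B → Ω) (hadd : ∀ x y, D (x + y) = D x + D y)
    (hmul : ∀ x y, D (x * y) = E x * D y + E y * D x) (v : ι → Ω)
    (hrange : ∀ x, ∃ c : ι → B, D x = ∑ᶠ i, E (c i) * v i) (O : Subring B) {e : ℕ}
    (b : Fin e → B) (hbm : ∀ i, b i ∈ IsLocalRing.maximalIdeal B)
    (hspan : ∀ x ∈ O, ∃ (a₀ : B) (a : Fin e → B), D a₀ = 0 ∧ (∀ i, a i ∈ O) ∧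
      x = a₀ + ∑ i, a i * b i)
    (hD : ∀ i, D (b i) = 0) : ∀ x ∈ O, D x = 0 := by
  classical
  let _ : Fintype ι := Fintype.ofFinite ι
  let _ : Algebra B Ω := E.toAlgebra
  have hsm : ∀ (r : B) (w : Ω), r • w = E r * w := fun r w => by
    rw [Algebra.smul_def]; rfl
  let Nn : Submodule B Ω := Submodule.span B (Set.range v)
  let M : Submodule B Ω := Submodule.span B (D '' (O : Set B))
  have hle : M ≤ Nn := by
    refine Submodule.span_le.mpr ?_
    rintro _ ⟨x, _, rfl⟩
    obtain ⟨c, hc⟩ := hrange x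
    rw [hc, finsum_eq_sum_of_fintype]
    refine Submodule.sum_mem _ fun i _ => ?_
    rw [← hsm]
    exact Submodule.smul_mem _ _ (Submodule.subset_span ⟨i, rfl⟩)
  have hNf : Module.Finite B Nn := Module.Finite.span_of_finite B (Set.finite_range v)
  have hNn : IsNoetherian B Nn := isNoetherian_of_isNoetherianRing_of_finite B Nn
  have hfg : M.FG := by
    have hN' : ∀ s : Submodule B Ω, s ≤ Nn → s.FG := isNoetherian_submodule.mp hNn
    exact hN' M hle
  have hsub : M ≤ IsLocalRing.maximalIdeal B • M := by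
    refine Submodule.span_le.mpr ?_
    rintro _ ⟨x, hx, rfl⟩
    obtain ⟨a₀, a, h0, ha, hxe⟩ := hspan x hx
    have hsum : ∀ s : Finset (Fin e), D (∑ i ∈ s, a i * b i) = ∑ i ∈ s, D (a i * b i) := by
      intro s
      induction s using Finset.induction_on with
      | empty =>
        have h1 := hadd 0 0
        rw [add_zero] at h1
        simpa using h1
      | insert i s hi ih => rw [Finset.sum_insert hi, Finset.sum_insert hi, hadd, ih]
    rw [hxe, hadd, h0, zero_add, hsum]
    refine Submodule.sum_mem _ fun i _ => ?_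
    rw [hmul, hD i, mul_zero, zero_add, ← hsm]
    exact Submodule.smul_mem_smul (hbm i) (Submodule.subset_span ⟨a i, ha i, rfl⟩)
  have hM : M = ⊥ := Submodule.eq_bot_of_le_smul_of_le_jacobson_bot _ M hfg hsub
    (IsLocalRing.maximalIdeal_le_jacobson _)
  intro x hx
  have h1 : D x ∈ M := Submodule.subset_span ⟨x, hx, rfl⟩
  rw [hM] at h1
  exact (Submodule.mem_bot B).mp h1

end

end Pool.Agent.H919M
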