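import Pool.Agent.H919M.Defs
import Pool.Agent.H919M.T16

open MvPolynomial

namespace Pool.Agent.H919M

open Pool.Agent.Helper819.Dyn Pool.Agent.Helper819.Apolar

noncomputable section

set_option linter.unusedSectionVars false

variable {k : Type} [Field k] [IsAlgClosed k] [CharZero k] {N d : ℕ}

theorem der_zero {Ω : Type} [Field Ω] [Algebra k Ω] {f : Ix N d → k} {y : Ix N d → Ω}
    (hs : Spz f y) (v : Ix N d → Ω) {e : ℕ} (b : Fin e → LV f)
    (hb0 : ∀ i, evP (Ω := k) (y := f) (fun _ h => h) (b i) = 0)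
    (hspan : ∀ x ∈ OO f, ∃ (a₀ : k) (a : Fin e → LV f), (∀ i, a i ∈ OO f) ∧
      x = algebraMap k (LV f) a₀ + ∑ i, a i * b i)
    (hD : ∀ i, der hs v (b i) = 0) : ∀ x ∈ OO f, der hs v x = 0 := by
  classical
  have hnoeth : IsNoetherianRing (LV f) :=
    IsLocalization.isNoetherianRing (mf f).primeCompl (LV f) inferInstance
  have hC : ∀ a₀ : k, der hs v (algebraMap k (LV f) a₀) = 0 := by
    intro a₀
    have h1 : algebraMap k (LV f) a₀ = algebraMap (SS k N d) (LV f) (C a₀) := by
      rw [IsScalarTower.algebraMap_apply k (SS k N d) (LV f)]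
      rfl
    rw [h1, der_algebraMap]
    unfold dda
    refine Finset.sum_eq_zero fun p _ => ?_
    rw [pderiv_C, map_zero, mul_zero]
  refine nak_abs (B := LV f) (ι := Ix N d) (evP hs) (der hs v) (der_add hs v) (der_mul hs v) v
    ?_ (OO f).toSubring b ?_ ?_ hD
  · intro x
    obtain ⟨⟨a, s⟩, hx⟩ := IsLocalization.surj (mf f).primeCompl x
    obtain ⟨u, hu⟩ := IsLocalization.map_units (LV f) s
    have hx' : x * algebraMap (SS k N d) (LV f) s.1 = algebraMap (SS k N d) (LV f) a := hx
    refine ⟨fun p => (↑u⁻¹ : LV f) * (algebraMap (SS k N d) (LV f) (pderiv p a) -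
      x * algebraMap (SS k N d) (LV f) (pderiv p s.1)), ?_⟩
    rw [finsum_eq_sum_of_fintype]
    have h1 : evP hs x * dda s.1 y v + evP hs (algebraMap (SS k N d) (LV f) s.1) * der hs v x =
        dda a y v := by
      rw [← der_algebraMap hs v a, ← hx', der_mul, der_algebraMap]
    have h2 : evP hs (↑u⁻¹ : LV f) * evP hs (algebraMap (SS k N d) (LV f) s.1) = 1 := by
      rw [← map_mul, ← hu, Units.inv_mul, map_one]
    have h3 : der hs v x = evP hs (↑u⁻¹ : LV f) * (dda a y v - evP hs x * dda s.1 y v) := by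
      rw [← h1]
      linear_combination (-(der hs v x)) * h2
    rw [h3]
    unfold dda
    rw [Finset.mul_sum, ← Finset.sum_sub_distrib, Finset.mul_sum]
    refine Finset.sum_congr rfl fun p _ => ?_
    rw [map_mul, map_sub, map_mul, evP_algebraMap, evP_algebraMap]
    ring
  · intro i
    rw [IsLocalRing.mem_maximalIdeal, mem_nonunits_iff]
    intro hu
    have h1 := hu.map (evP (Ω := k) (y := f) (f := f) (fun _ h => h))
    rw [hb0 i] at h1
    exact not_isUnit_zero h1
  · intro x hx
    obtain ⟨a₀, a, ha, hxe⟩ := hspan x hx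
    exact ⟨algebraMap k (LV f) a₀, a, hC a₀, ha, hxe⟩

end

end Pool.Agent.H919M
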