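import Pool.Agent.H919M.Defs
import Pool.Agent.H919M.T04
import Pool.Agent.H919M.T05
import Pool.Agent.H919M.T10

open MvPolynomial

namespace Pool.Agent.H919M

open Pool.Agent.Helper819.Dyn Pool.Agent.Helper819.Apolar

noncomputable section

set_option linter.unusedSectionVars false

section aux

variable {k : Type} [Field k] {N d : ℕ}

/-- the infinitesimal action of the identity matrix -/
theorem t18_xi_one (c : Ix N d → k) : xi 1 c = ((N + d : ℕ) : k) • c := by
  have h1 : lieT 1 (tup c) = fun i => C ((N + d : ℕ) : k) * tup c i := by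
    funext i
    unfold lieT
    have e1 : ∀ l : Fin (N + 1),
        (∑ m, C ((1 : Matrix (Fin (N + 1)) (Fin (N + 1)) k) l m) * X m :
          MvPolynomial (Fin (N + 1)) k) = X l := by
      intro l
      rw [Finset.sum_eq_single l]
      · simp
      · intro b _ hb
        rw [Matrix.one_apply_ne hb.symm]; simp
      · simp
    have e2 : ∑ j, C ((1 : Matrix (Fin (N + 1)) (Fin (N + 1)) k) i j) * tup c j = tup c i := by
      rw [Finset.sum_eq_single i]
      · simp
      · intro b _ hb
        rw [Matrix.one_apply_ne hb.symm]; simp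
      · simp
    simp_rw [e1]
    rw [e2, (tup_homog c i).sum_X_mul_pderiv, Matrix.trace_one, Fintype.card_fin, nsmul_eq_mul]
    simp only [Nat.cast_add, Nat.cast_one, map_add, map_one, map_natCast]
    ring
  unfold xi
  rw [h1, cf_C_mul, cf_tup]

variable {Ω : Type} [Field Ω] [Algebra k Ω]

/-- Euler's identity -/
theorem t18_euler {m : ℕ} {P : SS k N d} (hP : P.IsHomogeneous m) (y : Ix N d → Ω) :
    dda P y y = (m : Ω) * aeval y P := by
  have h1 := congrArg (aeval y) hP.sum_X_mul_pderiv
  rw [map_sum, nsmul_eq_mul, map_mul, map_natCast] at h1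
  simp only [map_mul, aeval_X] at h1
  exact h1

theorem t18_dda_sub (P : SS k N d) (y v u : Ix N d → Ω) (t : Ω) :
    dda P y (v - t • u) = dda P y v - t * dda P y u := by
  unfold dda
  rw [Finset.mul_sum, ← Finset.sum_sub_distrib]
  refine Finset.sum_congr rfl fun p _ => ?_
  simp only [Pi.sub_apply, Pi.smul_apply, smul_eq_mul]
  ring

theorem t18_dda_mul (P Q : SS k N d) (y v : Ix N d → Ω) :
    dda (P * Q) y v = aeval y P * dda Q y v + aeval y Q * dda P y v := by
  unfold dda
  rw [Finset.mul_sum, Finset.mul_sum, ← Finset.sum_add_distrib]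
  refine Finset.sum_congr rfl fun p _ => ?_
  rw [Derivation.leibniz]
  simp only [smul_eq_mul, map_add, map_mul]
  ring

theorem t18_dda_pow (P : SS k N d) (y v : Ix N d → Ω) (j : ℕ) :
    aeval y P * dda (P ^ j) y v = (j : Ω) * aeval y P ^ j * dda P y v := by
  induction j with
  | zero =>
    have h1 : dda (1 : SS k N d) y v = 0 := by
      unfold dda
      apply Finset.sum_eq_zero
      intro p _
      rw [Derivation.map_one_eq_zero, map_zero, mul_zero]
    rw [pow_zero, h1]
    simp
  | succ j ih =>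
    rw [pow_succ, t18_dda_mul, map_pow, mul_add]
    rw [show aeval y P * (aeval y P * dda (P ^ j) y v) =
      aeval y P * ((j : Ω) * aeval y P ^ j * dda P y v) by rw [ih]]
    push_cast
    ring

theorem t18_inv_pow {δ : ℕ} {P : SS k N d} (hP : IsInv δ P) (j : ℕ) :
    IsInv (δ * j) (P ^ j) := by
  induction j with
  | zero =>
    rw [mul_zero, pow_zero, ← C_1]
    exact IsInv.const 1
  | succ j ih =>
    rw [pow_succ, mul_add, mul_one]
    exact ih.mul hP

/-- the derivative of a polynomial extended to the big field -/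
theorem t18_dd_map (P : SS k N d) (y v : Ix N d → Ω) :
    dd (map (algebraMap k Ω) P) y v = dda P y v := by
  unfold dd dda
  refine Finset.sum_congr rfl fun p _ => ?_
  rw [pderiv_map, eval_map, aeval_def]

theorem t18_qq_add (y v : Ix N d → k) (P Q : SS k N d) :
    qq y v (P + Q) = qq y v P + qq y v Q := by
  unfold qq
  simp only [map_add, mul_add, Finset.sum_add_distrib]

theorem t18_qq_C_mul (y v : Ix N d → k) (a : k) (P : SS k N d) :
    qq y v (C a * P) = C a * qq y v P := by
  unfold qq
  rw [Finset.mul_sum]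
  refine Finset.sum_congr rfl fun p _ => ?_
  rw [pderiv_C_mul, map_mul, algHom_C]
  simp only [algebraMap_eq]
  ring

theorem t18_qq_zero (y v : Ix N d → k) : qq y v (0 : SS k N d) = 0 := by
  unfold qq
  simp

theorem t18_qq_sum {ι : Type} (s : Finset ι) (g : ι → SS k N d) (y v : Ix N d → k) :
    qq y v (∑ i ∈ s, g i) = ∑ i ∈ s, qq y v (g i) := by
  classical
  induction s using Finset.induction_on with
  | empty => simp [t18_qq_zero]
  | insert a s ha ih => rw [Finset.sum_insert ha, Finset.sum_insert ha, t18_qq_add, ih]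

end aux

variable {k : Type} [Field k] [IsAlgClosed k] [CharZero k] {N d : ℕ}

/-- the semi-invariant is homogeneous of positive degree -/
theorem t18_homog (hd : 2 ≤ d) {f : Ix N d → k} {w : ℕ} {R : SS k N d} (hR : IsSemi w R)
    (hf : eval f R ≠ 0) (h0 : eval 0 R = 0) :
    ∃ δ : ℕ, 0 < δ ∧ R.IsHomogeneous δ := by
  have hNd : N + d ≠ 0 := by omega
  have hsc : ∀ (r : k) (c : Ix N d → k), eval (r ^ (N + d) • c) R =
      (r ^ (N + 1)) ^ w * eval c R := by
    intro r c
    have h1 := hR (r • 1) c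
    rw [actT_scalar, Matrix.det_smul, Matrix.det_one, mul_one, Fintype.card_fin] at h1
    exact h1
  haveI : NeZero (N + d) := ⟨hNd⟩
  haveI : NeZero ((N + d : ℕ) : k) := ⟨Nat.cast_ne_zero.mpr hNd⟩
  obtain ⟨ζ, hζ⟩ := HasEnoughRootsOfUnity.exists_primitiveRoot k (N + d)
  have hdvd : N + d ∣ (N + 1) * w := by
    apply hζ.dvd_of_pow_eq_one
    have h1 := hsc ζ f
    rw [hζ.pow_eq_one, one_smul, ← pow_mul] at h1
    have h2 : (ζ ^ ((N + 1) * w) - 1) * eval f R = 0 := by
      rw [sub_mul, one_mul, ← h1, sub_self]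
    rcases mul_eq_zero.mp h2 with h3 | h3
    · exact sub_eq_zero.mp h3
    · exact absurd h3 hf
  obtain ⟨δ, hδ⟩ := hdvd
  have hhom : R.IsHomogeneous δ := by
    apply homog_of_scale
    intro t c
    obtain ⟨r, hr⟩ := IsAlgClosed.exists_pow_nat_eq t (Nat.pos_of_ne_zero hNd)
    rw [← hr, hsc, ← pow_mul, hδ, pow_mul]
  refine ⟨δ, ?_, hhom⟩
  rcases Nat.eq_zero_or_pos δ with h | h
  · exfalso
    rw [h] at hδ
    have h1 := hsc 0 f
    rw [zero_pow hNd, zero_smul, h0, ← pow_mul, hδ, mul_zero, pow_zero, one_mul] at h1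
    exact hf h1.symm
  · exact h

theorem tangent_of_der (hd : 2 ≤ d) {f : Ix N d → k} (hf : NZ (tup f)) {Ω : Type} [Field Ω]
    [IsAlgClosed Ω] [Algebra k Ω] {y : Ix N d → Ω} (hs : Spz f y) (hy : NZ (tup y))
    (hfree : Free y) (v : Ix N d → Ω) (hv : ∀ x ∈ OO f, der hs v x = 0) :
    ∃ A, v = xi A y := by
  haveI : CharZero Ω := charZero_of_injective_algebraMap (algebraMap k Ω).injective
  obtain ⟨w₀, R, hR, hRf, hRNZ⟩ := exists_semi_NZ hd hf
  have h0 : eval 0 R = 0 := by
    by_contra hne
    have h1 := hRNZ 0 hne (fun _ => 1) (fun i => by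
      have : tup (0 : Ix N d → k) i = 0 := by
        unfold tup
        simp
      rw [this, map_zero])
    have h2 := congrFun h1 0
    simp at h2
  obtain ⟨δ, hδ, hhom⟩ := t18_homog hd hR hRf h0
  have hInv : IsInv δ R := by
    refine ⟨hhom, fun A c hA => ?_⟩
    rw [hR A c, hA, one_pow, one_mul]
  have hRy : aeval y R ≠ 0 := fun h => hRf (hs R h)
  set r : Ω := aeval y R with hr
  set D : Ω := dda R y v with hD
  set lam : Ω := D / ((δ : Ω) * r) with hlam
  have hδ' : (δ : Ω) ≠ 0 := Nat.cast_ne_zero.mpr (by omega)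
  have key : ∀ (w j : ℕ) (P : SS k N d), P.IsHomogeneous (δ * j) →
      dda (sharp w P) y (v - lam • y) = 0 := by
    intro w j P hP
    have hS : IsInv (δ * j) (sharp w P) := by
      refine ⟨sharp_homog w hP, fun A c hA => ?_⟩
      rw [isSemi_sharp w P A c, hA, one_pow, one_mul]
    set S := sharp w P with hSdef
    have hRj : IsInv (δ * j) (R ^ j) := t18_inv_pow hInv j
    have hRjf : eval f (R ^ j) ≠ 0 := by
      rw [map_pow]
      exact pow_ne_zero _ hRf
    -- the fraction
    let x : LV f := IsLocalization.mk' (LV f) S (⟨R ^ j, fun h => hRjf h⟩ : (mf f).primeCompl)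
    have hx : x * algebraMap (SS k N d) (LV f) (R ^ j) = algebraMap (SS k N d) (LV f) S :=
      IsLocalization.mk'_spec (LV f) S (⟨R ^ j, fun h => hRjf h⟩ : (mf f).primeCompl)
    have hxO : x ∈ OO f := ⟨δ * j, S, R ^ j, hS, hRj, hRjf, hx⟩
    have h1 := congrArg (der hs v) hx
    rw [der_mul, hv x hxO, mul_zero, add_zero, der_algebraMap, der_algebraMap] at h1
    have h2 := congrArg (evP hs) hx
    rw [map_mul, evP_algebraMap, evP_algebraMap, map_pow, ← hr] at h2
    have h3 := t18_dda_pow R y v j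
    rw [← hr, ← hD] at h3
    have h4 := t18_euler hS.1 y
    rw [t18_dda_sub, h4]
    -- r * (dda S y v) = ...
    have h5 : r * dda S y v = evP hs x * ((j : Ω) * r ^ j * D) := by
      rw [← h1, ← h3]
      ring
    have h6 : r * (dda S y v - lam * (((δ * j : ℕ) : Ω) * aeval y S)) = 0 := by
      rw [mul_sub, h5, ← h2, hlam]
      push_cast
      field_simp
      ring
    rcases mul_eq_zero.mp h6 with h7 | h7
    · exact absurd h7 hRy
    · exact h7
  obtain ⟨A, hA⟩ := tangent hd hy hfree δ hδ (v - lam • y) (by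
    intro w j P hP
    rw [dd_sharp, P.as_sum, t18_qq_sum, rho_sum]
    apply Finset.sum_eq_zero
    intro m hm
    have hmon : (monomial m (coeff m P) : SS Ω N d) =
        C (coeff m P) * map (algebraMap k Ω) (monomial m 1) := by
      rw [map_monomial, map_one, C_mul_monomial, mul_one]
    rw [hmon, t18_qq_C_mul, rho_smul, ← dd_sharp, ← map_sharp, t18_dd_map]
    have hdeg : m.degree = δ * j := by
      by_contra h
      exact (mem_support_iff.mp hm) (hP.coeff_eq_zero h)
    rw [key w j (monomial m 1) (isHomogeneous_monomial _ hdeg), mul_zero])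
  have hNd : ((N + d : ℕ) : Ω) ≠ 0 := Nat.cast_ne_zero.mpr (by omega)
  refine ⟨A + (lam / ((N + d : ℕ) : Ω)) • 1, ?_⟩
  rw [xi_add, ← hA, xi_smul, t18_xi_one, smul_smul, div_mul_cancel₀ _ hNd]
  simp

end

end Pool.Agent.H919M
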