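import Pool.Agent.H919M.Defs
import Pool.Agent.H919M.T03

/-!
Invariants of the special linear group are semi-invariants of the general linear group;
fractions of invariants are constant along orbits.
-/

open MvPolynomial

namespace Pool.Agent.H919M

open Pool.Agent.Helper819.Dyn Pool.Agent.Helper819.Apolar

noncomputable section

set_option linter.unusedSectionVars false

variable {k : Type} [Field k] [IsAlgClosed k] [CharZero k] {N d : ℕ}

theorem T19_eval_smul {δ : ℕ} {P : SS k N d} (hP : P.IsHomogeneous δ) (r : k) (c : Ix N d → k) :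
    eval (r • c) P = r ^ δ * eval c P := by
  rw [eval_eq', eval_eq', Finset.mul_sum]
  refine Finset.sum_congr rfl fun m hm => ?_
  have hdeg : ∑ i, m i = δ := by
    have := hP (mem_support_iff.mp hm)
    rw [← this]
    simp [Finsupp.weight_apply, Finsupp.sum_fintype]
  simp only [Pi.smul_apply, smul_eq_mul, mul_pow]
  rw [Finset.prod_mul_distrib, Finset.prod_pow_eq_pow_sum, hdeg]
  ring

/-- The value of an invariant at a translate, in terms of an `N+1`-st root of the determinant. -/
theorem T19_root {δ : ℕ} {P : SS k N d} (hP : IsInv δ P)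
    (A : Matrix (Fin (N + 1)) (Fin (N + 1)) k) (hA : A.det ≠ 0) (μ : k)
    (hμ : μ ^ (N + 1) = A.det) (c : Ix N d → k) :
    eval (actT A c) P = μ ^ ((N + d) * δ) * eval c P := by
  have hμ0 : μ ≠ 0 := by
    rintro rfl
    rw [zero_pow (Nat.succ_ne_zero N)] at hμ
    exact hA hμ.symm
  have h1 : A = μ • (μ⁻¹ • A) := by
    rw [smul_smul, mul_inv_cancel₀ hμ0, one_smul]
  have h2 : (μ⁻¹ • A).det = 1 := by
    rw [Matrix.det_smul, Fintype.card_fin, ← hμ, inv_pow, inv_mul_cancel₀]
    exact pow_ne_zero _ hμ0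
  rw [h1, actT_smul_mat, T19_eval_smul hP.1, hP.2 _ _ h2, pow_mul]

/-- A nonzero homogeneous invariant of the special linear group is a semi-invariant. -/
theorem isInv_semi {δ : ℕ} {P : SS k N d} (hP : IsInv δ P) (h0 : P ≠ 0) :
    ∃ w : ℕ, (N + 1) * w = (N + d) * δ ∧ IsSemi w P := by
  obtain ⟨c, hc⟩ : ∃ c : Ix N d → k, eval c P ≠ 0 := by
    by_contra h
    push Not at h
    exact h0 (MvPolynomial.funext fun c => by rw [h c, map_zero])
  have hdvd : (N + 1) ∣ (N + d) * δ := by
    have : NeZero ((N + 1 : ℕ) : k) := ⟨by exact_mod_cast Nat.succ_ne_zero N⟩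
    obtain ⟨μ, hμ⟩ := HasEnoughRootsOfUnity.exists_primitiveRoot k (N + 1)
    have h1 := T19_root hP (1 : Matrix (Fin (N + 1)) (Fin (N + 1)) k) (by simp) μ
      (by rw [hμ.pow_eq_one, Matrix.det_one]) c
    rw [actT_one] at h1
    have h2 : μ ^ ((N + d) * δ) = 1 := by
      have h3 : μ ^ ((N + d) * δ) * eval c P = 1 * eval c P := by rw [← h1, one_mul]
      exact mul_right_cancel₀ hc h3
    exact hμ.dvd_of_pow_eq_one _ h2
  obtain ⟨w, hw⟩ := hdvd
  refine ⟨w, hw.symm, fun A x => ?_⟩
  have h1 : aeval (orb x) P = dt (N + 1) k ^ w * C (eval x P) := by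
    apply poly_ext
    intro B hB
    rw [eval_aeval_orb, map_mul, map_pow, eval_dt, eval_C]
    obtain ⟨μ, hμ⟩ := IsAlgClosed.exists_pow_nat_eq B.det (Nat.succ_pos N)
    rw [T19_root hP B hB μ hμ x, hw, pow_mul, hμ]
  have h2 := congrArg (eval (ent A)) h1
  rw [eval_aeval_orb, map_mul, map_pow, eval_dt, eval_C] at h2
  exact h2

theorem T19_dda {Ω : Type} [Field Ω] [Algebra k Ω] {w : ℕ} {P : SS k N d} (hP : IsSemi w P)
    (A : Matrix (Fin (N + 1)) (Fin (N + 1)) Ω) (y : Ix N d → Ω) :
    dda P y (xi A y) = w * A.trace * aeval y P := by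
  have : Infinite Ω := Infinite.of_injective (algebraMap k Ω) (algebraMap k Ω).injective
  have h1 := semi_lie (isSemi_map (L := Ω) hP) A y
  have h2 : dd (map (algebraMap k Ω) P : SS Ω N d) y (xi A y) = dda P y (xi A y) := by
    unfold dd dda
    refine Finset.sum_congr rfl fun p _ => ?_
    rw [pderiv_map, eval_map, aeval_def]
  rw [← h2, h1, eval_map, aeval_def]

theorem der_xi {f : Ix N d → k} {Ω : Type} [Field Ω] [Algebra k Ω] {y : Ix N d → Ω}
    (hs : Spz f y) (A : Matrix (Fin (N + 1)) (Fin (N + 1)) Ω) (x : LV f) (hx : x ∈ OO f) :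
    der hs (xi A y) x = 0 := by
  obtain ⟨δ, a, b, ha, hb, hb0, hxab⟩ := (mem_OO f x).mp hx
  have hbne : b ≠ 0 := by
    rintro rfl
    exact hb0 (map_zero _)
  obtain ⟨w, hw, hbw⟩ := isInv_semi hb hbne
  have haw : IsSemi w a := by
    by_cases ha0 : a = 0
    · rw [ha0]
      exact IsSemi.zero
    · obtain ⟨w', hw', haw'⟩ := isInv_semi ha ha0
      have : w' = w := Nat.eq_of_mul_eq_mul_left (Nat.succ_pos N) (hw'.trans hw.symm)
      rwa [this] at haw'
  have hby : aeval y b ≠ 0 := fun h => hb0 (hs b h)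
  have h1 := congrArg (der hs (xi A y)) hxab
  rw [der_mul, der_algebraMap, der_algebraMap, evP_algebraMap, T19_dda hbw, T19_dda haw] at h1
  have h2 := congrArg (evP hs) hxab
  rw [map_mul, evP_algebraMap, evP_algebraMap] at h2
  have h3 : aeval y b * der hs (xi A y) x = 0 := by
    rw [← h2] at h1
    linear_combination h1
  exact (mul_eq_zero.mp h3).resolve_left hby

end

end Pool.Agent.H919M
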