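import Pool.Agent.H919M.Defs
import Pool.Agent.H919M.T02
import Pool.Agent.H919M.T07
import Pool.Agent.H919M.T19

open MvPolynomial

namespace Pool.Agent.H919M

open Pool.Agent.Helper819.Dyn Pool.Agent.Helper819.Apolar

noncomputable section

set_option linter.unusedSectionVars false

variable {k : Type} [Field k] [IsAlgClosed k] [CharZero k] {N d : ℕ}

namespace T20aux

/-- the function field -/
abbrev LL (k : Type) [Field k] (N d : ℕ) : Type := FractionRing (SS k N d)

/-- the generic point -/
def gp (k : Type) [Field k] (N d : ℕ) : Ix N d → LL k N d :=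
  fun p => algebraMap (SS k N d) (LL k N d) (X p)

omit [IsAlgClosed k] [CharZero k] in
theorem aeval_gp (P : SS k N d) : aeval (gp k N d) P = algebraMap (SS k N d) (LL k N d) P := by
  have h1 : aeval (gp k N d) P = (IsScalarTower.toAlgHom k (SS k N d) (LL k N d)) P := by
    apply DFunLike.congr_fun
    apply MvPolynomial.algHom_ext
    intro i
    rw [aeval_X]
    rfl
  rw [h1]
  rfl

omit [IsAlgClosed k] [CharZero k] in
theorem aeval_gp_ne {P : SS k N d} (hP : P ≠ 0) : aeval (gp k N d) P ≠ 0 := by
  rw [aeval_gp]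
  intro h
  exact hP ((IsFractionRing.to_map_eq_zero_iff (K := LL k N d)).1 h)

omit [IsAlgClosed k] [CharZero k] in
theorem spz_gp (f : Ix N d → k) : Spz f (gp k N d) := by
  intro P hP
  by_contra h
  apply aeval_gp_ne (P := P) _ hP
  rintro rfl
  exact h (map_zero _)

instance ess : Algebra.EssFiniteType k (LL k N d) := by
  have h1 : Algebra.EssFiniteType (SS k N d) (LL k N d) :=
    Algebra.EssFiniteType.of_isLocalization (LL k N d) (nonZeroDivisors (SS k N d))
  exact Algebra.EssFiniteType.comp k (SS k N d) (LL k N d)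

omit [IsAlgClosed k] [CharZero k] in
theorem evP_inj {f : Ix N d → k} {z : LV f} (hz : evP (spz_gp f) z = 0) : z = 0 := by
  obtain ⟨⟨a, s⟩, hs⟩ := IsLocalization.surj (mf f).primeCompl z
  have h1 := congrArg (evP (spz_gp f)) hs
  rw [map_mul, hz, zero_mul, evP_algebraMap] at h1
  have ha : a = 0 := by
    by_contra h
    exact aeval_gp_ne h h1.symm
  simp only at hs
  rw [ha, map_zero] at hs
  have hu : IsUnit (algebraMap (SS k N d) (LV f) s.1) := IsLocalization.map_units (LV f) s
  exact (hu.mul_left_eq_zero).1 hs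

omit [IsAlgClosed k] [CharZero k] in
theorem evP_k {f : Ix N d → k} (c : k) :
    evP (spz_gp f) (algebraMap k (LV f) c) = algebraMap k (LL k N d) c := by
  rw [IsScalarTower.algebraMap_apply k (SS k N d) (LV f), evP_algebraMap, algebraMap_eq, aeval_C]

/-- `evP` as an algebra homomorphism on `OO f` -/
def evO (f : Ix N d → k) : OO f →ₐ[k] LL k N d where
  toRingHom := (evP (spz_gp f)).comp (OO f).val.toRingHom
  commutes' := fun c => evP_k c

theorem xi_gp_inj (hd : 2 ≤ d) {f : Ix N d → k} (hf : NZ (tup f))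
    {A : Matrix (Fin (N + 1)) (Fin (N + 1)) (LL k N d)} (hA : xi A (gp k N d) = 0) : A = 0 := by
  obtain ⟨P, hP, hP2⟩ := NZ_gen hf
  have hP0 : P ≠ 0 := by
    rintro rfl
    exact hP (map_zero _)
  obtain ⟨φ, hφ⟩ : ∃ φ : LL k N d →ₐ[k] AlgebraicClosure (LL k N d), ∀ x, φ x =
      algebraMap (LL k N d) (AlgebraicClosure (LL k N d)) x :=
    ⟨IsScalarTower.toAlgHom k _ _, fun _ => rfl⟩
  have h1 : NZ (tup fun p => φ (gp k N d p)) := by
    apply hP2
    have h2 : aeval (fun p => φ (gp k N d p)) P = φ (aeval (gp k N d) P) :=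
      (comp_aeval_apply (gp k N d) φ P).symm
    rw [h2]
    intro h3
    exact aeval_gp_ne hP0 ((map_eq_zero φ).1 h3)
  have h2 : xi (A.map φ.toRingHom) (fun p => φ (gp k N d p)) = 0 := by
    funext p
    have h3 := map_xi φ.toRingHom A (gp k N d) p
    rw [hA] at h3
    rw [Pi.zero_apply, map_zero] at h3
    exact h3.symm
  have h3 := xi_inj hd h1 h2
  ext i j
  have h4 := congrFun (congrFun h3 i) j
  rw [Matrix.map_apply] at h4
  exact (map_eq_zero φ.toRingHom).1 h4

/-- the derivative as a linear map in the direction -/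
def ddaL (P : SS k N d) : (Ix N d → LL k N d) →ₗ[LL k N d] LL k N d where
  toFun v := dda P (gp k N d) v
  map_add' v w := by
    unfold dda
    simp only [Pi.add_apply, add_mul, Finset.sum_add_distrib]
  map_smul' r v := by
    unfold dda
    simp only [Pi.smul_apply, smul_eq_mul, mul_assoc, Finset.mul_sum, RingHom.id_apply]

end T20aux

open T20aux

theorem krull_le (hd : 2 ≤ d) {f : Ix N d → k} (hf : NZ (tup f)) {m : ℕ}
    (P : Fin (m + 1) → PrimeSpectrum (OO f)) (hP : StrictMono P) :
    m + (N + 1) ^ 2 ≤ Fintype.card (Ix N d) := by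
  obtain ⟨x, hx⟩ := Pool.Agent.Helper819.Zar.exists_indep (k := k) (R := OO f) m P hP
  -- fractions
  have hab : ∀ i, ∃ a b : SS k N d, eval f b ≠ 0 ∧
      (x i : LV f) * algebraMap (SS k N d) (LV f) b = algebraMap (SS k N d) (LV f) a := by
    intro i
    obtain ⟨δ, a, b, _, _, hb, h⟩ := (mem_OO f _).1 (x i).2
    exact ⟨a, b, hb, h⟩
  choose a b hb hxab using hab
  have hb0 : ∀ i, aeval (gp k N d) (b i) ≠ 0 := by
    intro i
    apply aeval_gp_ne
    intro h
    apply hb i
    rw [h, map_zero]
  obtain ⟨c, hc⟩ : ∃ c : Fin m → LL k N d, ∀ i, c i = evP (spz_gp f) (x i : LV f) :=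
    ⟨_, fun _ => rfl⟩
  have hcab : ∀ i, c i * aeval (gp k N d) (b i) = aeval (gp k N d) (a i) := by
    intro i
    rw [hc, ← evP_algebraMap (spz_gp f) (b i), ← map_mul, hxab, evP_algebraMap]
  -- independence
  have hind : ∀ F : MvPolynomial (Fin m) k, aeval c F = 0 → F = 0 := by
    intro F hF
    apply hx
    have h1 : aeval c F = evO f (aeval x F) := by
      have h2 := comp_aeval_apply x (evO f) F
      rw [h2]
      congr 2
      funext i
      exact hc i
    rw [h1] at hF
    have h2 : ((aeval x F : OO f) : LV f) = 0 := evP_inj hF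
    have h3 : (aeval x F : OO f) = 0 := Subtype.ext h2
    rw [h3]
    exact zero_mem _
  -- the linear map
  obtain ⟨l, hl⟩ : ∃ l : (Ix N d → LL k N d) →ₗ[LL k N d] (Fin m → LL k N d), ∀ u i,
      l u i = (aeval (gp k N d) (b i))⁻¹ *
        (dda (a i) (gp k N d) u - c i * dda (b i) (gp k N d) u) :=
    ⟨LinearMap.pi fun i => (aeval (gp k N d) (b i))⁻¹ • (ddaL (a i) - c i • ddaL (b i)),
      fun u i => rfl⟩
  have hsurj : Function.Surjective l := by
    intro t
    obtain ⟨φ, hφ1, hφ2, hφ3⟩ := exists_dual_ext c t (fun F hF => by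
      rw [hind F hF]
      simp)
    refine ⟨fun p => (φ (gp k N d p)).snd, ?_⟩
    have hgen : ∀ p, φ (gp k N d p) = algebraMap (LL k N d) (DualNumber (LL k N d)) (gp k N d p) +
        DualNumber.eps * algebraMap (LL k N d) (DualNumber (LL k N d))
          ((φ (gp k N d p)).snd) := by
      intro p
      apply TrivSqZeroExt.ext
      · rw [hφ1, fst_form]
      · rw [snd_form]
    have hpol : ∀ Q : SS k N d, (φ (aeval (gp k N d) Q)).snd =
        dda Q (gp k N d) (fun p => (φ (gp k N d p)).snd) := by
      intro Q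
      let φ' : LL k N d →ₐ[k] DualNumber (LL k N d) := { φ with commutes' := hφ2 }
      have h1 : φ (aeval (gp k N d) Q) = aeval (fun p => φ (gp k N d p)) Q :=
        comp_aeval_apply (gp k N d) φ' Q
      rw [h1]
      have h2 : (fun p => φ (gp k N d p)) = fun p =>
          algebraMap (LL k N d) (DualNumber (LL k N d)) (gp k N d p) +
          DualNumber.eps * algebraMap (LL k N d) (DualNumber (LL k N d))
            ((φ (gp k N d p)).snd) := funext hgen
      rw [h2, aeval_dual, snd_form]
      unfold dda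
      refine Finset.sum_congr rfl fun p _ => ?_
      congr 1
    funext i
    rw [hl, ← hpol, ← hpol, ← hcab i, map_mul, DualNumber.snd_mul, hφ1, hφ1, hφ3]
    have := hb0 i
    field_simp
    ring
  have hker : LinearMap.range (xiL (gp k N d)) ≤ LinearMap.ker l := by
    rintro _ ⟨A, rfl⟩
    rw [LinearMap.mem_ker]
    funext i
    change l (xi A (gp k N d)) i = 0
    rw [hl]
    have h1 := congrArg (der (spz_gp f) (xi A (gp k N d))) (hxab i)
    rw [der_mul, der_algebraMap, der_algebraMap, der_xi (spz_gp f) A _ (x i).2, ← hc i] at h1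
    rw [← h1]
    ring
  have hinj : Function.Injective (xiL (gp k N d)) := by
    rw [injective_iff_map_eq_zero]
    intro A hA
    exact xi_gp_inj hd hf hA
  have h1 := LinearMap.finrank_range_add_finrank_ker l
  rw [LinearMap.range_eq_top.2 hsurj, finrank_top, Module.finrank_fintype_fun_eq_card,
    Module.finrank_fintype_fun_eq_card, Fintype.card_fin] at h1
  have h2 := Submodule.finrank_mono hker
  rw [LinearMap.finrank_range_of_inj hinj, Module.finrank_matrix] at h2
  simp only [Fintype.card_fin, Module.finrank_self, mul_one] at h2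
  have h3 : (N + 1) ^ 2 = (N + 1) * (N + 1) := by ring
  rw [h3]
  omega

end

end Pool.Agent.H919M
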