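import Pool.Agent.H919M.Defs
import Pool.Agent.H919M.T06
import Pool.Agent.H919M.T07
import Pool.Agent.H919M.T11
import Pool.Agent.H919M.T13

open MvPolynomial

namespace Pool.Agent.H919M

open Pool.Agent.Helper819.Dyn Pool.Agent.Helper819.Apolar

noncomputable section

set_option linter.unusedSectionVars false

variable {k : Type} [Field k] [IsAlgClosed k] [CharZero k] {N d : ℕ}

/-- Weights: the matrices through which the coordinate vectors with nontrivial weight are
infinitesimal are linearly independent and supported off the blocks. -/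
theorem weight_count {f : Ix N d → k} (hd : 2 ≤ d) (hf : NZ (tup f)) (l : Fin (N + 1) → k)
    (hl0 : ∀ i, l i ≠ 0) (hfix : actT (Matrix.diagonal l) f = f)
    (hall : ∀ v : Ix N d → k, ∃ A, actT (Matrix.diagonal l) v - v = xi A f) :
    Nat.card {p : Ix N d // (∏ m, l m) * ∏ m, l m ^ (p.2.1 m) ≠ l p.1} ≤
      Nat.card {p : Fin (N + 1) × Fin (N + 1) // l p.1 ≠ l p.2} := by
  classical
  have hdetl : (Matrix.diagonal l).det ≠ 0 := by
    rw [Matrix.det_diagonal]
    exact Finset.prod_ne_zero_iff.mpr fun i _ => hl0 i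
  -- the weight of a coordinate vector
  let χ : Ix N d → k := fun p => (∏ m, l m) * (∏ m, l m ^ (p.2.1 m)) / l p.1
  have hχ : ∀ p : Ix N d, actT (Matrix.diagonal l) (Pi.single p (1 : k)) =
      χ p • (Pi.single p (1 : k) : Ix N d → k) := by
    intro p
    funext q
    have h1 := actT_diag l (Pi.single p (1 : k)) q
    rw [Pi.smul_apply, smul_eq_mul]
    by_cases hq : q = p
    · subst hq
      rw [Pi.single_eq_same, mul_one] at h1
      rw [Pi.single_eq_same, mul_one]
      change _ = (∏ m, l m) * (∏ m, l m ^ (q.2.1 m)) / l q.1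
      rw [← h1, mul_div_cancel_left₀ _ (hl0 _)]
    · rw [Pi.single_eq_of_ne hq, mul_zero] at h1
      rw [Pi.single_eq_of_ne hq, mul_zero]
      exact (mul_eq_zero.mp h1).resolve_left (hl0 _)
  have hne : ∀ p : {p : Ix N d // (∏ m, l m) * ∏ m, l m ^ (p.2.1 m) ≠ l p.1}, χ p.1 ≠ 1 := by
    intro p h
    exact p.2 ((div_eq_one_iff_eq (hl0 _)).mp h)
  have hA : ∀ p : {p : Ix N d // (∏ m, l m) * ∏ m, l m ^ (p.2.1 m) ≠ l p.1},
      ∃ A : Matrix (Fin (N + 1)) (Fin (N + 1)) k, xi A f = Pi.single p.1 (1 : k) := by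
    intro p
    obtain ⟨A, hA⟩ := hall (Pi.single p.1 1)
    refine ⟨(χ p.1 - 1)⁻¹ • A, ?_⟩
    have h0 : χ p.1 - 1 ≠ 0 := sub_ne_zero.mpr (hne p)
    have h2 : χ p.1 • (Pi.single p.1 (1 : k) : Ix N d → k) - Pi.single p.1 1 =
        (χ p.1 - 1) • (Pi.single p.1 (1 : k) : Ix N d → k) := by rw [sub_smul, one_smul]
    rw [xi_smul, ← hA, hχ, h2, smul_smul, inv_mul_cancel₀ h0, one_smul]
  choose A hA using hA
  have hsupp : ∀ (p : {p : Ix N d // (∏ m, l m) * ∏ m, l m ^ (p.2.1 m) ≠ l p.1})
      (i j : Fin (N + 1)), l i = l j → A p i j = 0 := by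
    intro p i j hij
    have h1 := xi_equiv hdetl (A p) f
    rw [hA p, hχ, hfix, ← hA p, ← xi_smul] at h1
    have h2 : χ p.1 • A p - (Matrix.diagonal l)⁻¹ * A p * Matrix.diagonal l = 0 := by
      apply xi_inj hd hf
      rw [sub_eq_add_neg, ← neg_one_smul k ((Matrix.diagonal l)⁻¹ * A p * Matrix.diagonal l),
        xi_add, xi_smul (-1 : k), ← h1]
      simp
    have h3 : χ p.1 • (Matrix.diagonal l * A p) = A p * Matrix.diagonal l := by
      have h4 := sub_eq_zero.mp h2
      have h5 := congrArg (fun M => Matrix.diagonal l * M) h4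
      simp only [Matrix.mul_smul] at h5
      rw [h5, ← Matrix.mul_assoc, ← Matrix.mul_assoc,
        Matrix.mul_nonsing_inv _ (isUnit_iff_ne_zero.mpr hdetl), Matrix.one_mul]
    have h6 := congrFun (congrFun h3 i) j
    rw [Matrix.smul_apply, Matrix.diagonal_mul, Matrix.mul_diagonal, smul_eq_mul, hij] at h6
    have h7 : (χ p.1 - 1) * (l j * A p i j) = 0 := by
      rw [sub_mul, h6]; ring
    rcases mul_eq_zero.mp h7 with h | h
    · exact absurd (sub_eq_zero.mp h) (hne p)
    · exact (mul_eq_zero.mp h).resolve_left (hl0 _)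
  have hlin : LinearIndependent k A := by
    apply LinearIndependent.of_comp (xiL f)
    have h1 : (xiL f : Matrix (Fin (N + 1)) (Fin (N + 1)) k → Ix N d → k) ∘ A =
        fun p : {p : Ix N d // (∏ m, l m) * ∏ m, l m ^ (p.2.1 m) ≠ l p.1} =>
          (Pi.basisFun k (Ix N d)) p.1 := by
      funext p
      change xi (A p) f = _
      rw [hA p, Pi.basisFun_apply]
    rw [h1]
    exact (Pi.basisFun k (Ix N d)).linearIndependent.comp _ Subtype.val_injective
  have hlin2 : LinearIndependent k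
      (fun (p : {p : Ix N d // (∏ m, l m) * ∏ m, l m ^ (p.2.1 m) ≠ l p.1})
        (q : {p : Fin (N + 1) × Fin (N + 1) // l p.1 ≠ l p.2}) => A p q.1.1 q.1.2) := by
    rw [Fintype.linearIndependent_iff] at hlin ⊢
    intro g hg
    apply hlin g
    ext i j
    rw [Matrix.sum_apply]
    simp only [Matrix.smul_apply, Matrix.zero_apply]
    by_cases hij : l i = l j
    · exact Finset.sum_eq_zero fun p _ => by rw [hsupp p i j hij, smul_zero]
    · have h1 := congrFun hg ⟨(i, j), hij⟩
      rw [Finset.sum_apply] at h1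
      exact h1
  have h := hlin2.fintype_card_le_finrank
  rw [Module.finrank_fintype_fun_eq_card] at h
  rw [Nat.card_eq_fintype_card, Nat.card_eq_fintype_card]
  exact h

theorem normal_action (hN : 2 ≤ N) (hd : 2 ≤ d) {f : Ix N d → k} (hf : NZ (tup f))
    (h : Matrix (Fin (N + 1)) (Fin (N + 1)) k) (hdet : h.det ≠ 0) (hh : actT h f = f)
    (hns : ∀ μ : k, h ≠ μ • (1 : Matrix (Fin (N + 1)) (Fin (N + 1)) k)) :
    ∃ v : Ix N d → k, ∀ A, actT h v - v ≠ xi A f := by
  by_contra hcon
  push Not at hcon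
  obtain ⟨g, l, hg, hgl⟩ := exists_diag hd hf h hdet hh
  have hgu : IsUnit g.det := isUnit_iff_ne_zero.mpr hg
  have hl0 : ∀ i, l i ≠ 0 := by
    have h1 := congrArg Matrix.det hgl
    rw [Matrix.det_mul, Matrix.det_mul, Matrix.det_diagonal] at h1
    have h2 : (∏ i, l i) ≠ 0 := by
      intro h0
      rw [h0, mul_zero] at h1
      exact mul_ne_zero hdet hg h1
    exact fun i => Finset.prod_ne_zero_iff.mp h2 i (Finset.mem_univ _)
  have hl : ∃ i j, l i ≠ l j := by
    by_contra hc
    push Not at hc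
    apply hns (l 0)
    have h1 : Matrix.diagonal l = l 0 • (1 : Matrix (Fin (N + 1)) (Fin (N + 1)) k) := by
      rw [Matrix.smul_one_eq_diagonal]
      congr 1
      funext i
      exact hc i 0
    rw [h1, Matrix.mul_smul, Matrix.mul_one] at hgl
    calc h = h * g * g⁻¹ := by rw [Matrix.mul_assoc, Matrix.mul_nonsing_inv _ hgu, Matrix.mul_one]
      _ = _ := by rw [hgl, Matrix.smul_mul, Matrix.mul_nonsing_inv _ hgu]
  have hfix : actT (Matrix.diagonal l) (actT g f) = actT g f := by
    rw [actT_actT, ← hgl, ← actT_actT, hh]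
  have hf' : NZ (tup (actT g f)) := by
    rw [tup_actT]
    exact NZ_act hf g hg
  have hall : ∀ v : Ix N d → k, ∃ A, actT (Matrix.diagonal l) v - v = xi A (actT g f) := by
    intro v
    obtain ⟨A, hA⟩ := hcon (actT g⁻¹ v)
    refine ⟨g⁻¹ * A * g, ?_⟩
    rw [← xi_equiv hg, ← hA]
    have h1 : v = actT g (actT g⁻¹ v) := by
      rw [actT_actT, Matrix.nonsing_inv_mul _ hgu, actT_one]
    have h2 : ∀ a b : Ix N d → k, actT g (a - b) = actT g a - actT g b := by
      intro a b
      exact map_sub (actL g) a b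
    rw [h2, ← h1, actT_actT h g, hgl, ← actT_actT g, ← h1]
  have h3 := weight_count hd hf' l hl0 hfix hall
  have h4 := count_lemma (d := d) hN hd l (∏ m, l m) hl
  omega

end

end Pool.Agent.H919M
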