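import Pool.Agent.H919M.Defs

open MvPolynomial

namespace Pool.Agent.H919M

open Pool.Agent.Helper819.Dyn Pool.Agent.Helper819.Apolar

noncomputable section

set_option linter.unusedSectionVars false

variable {k : Type} [Field k] [IsAlgClosed k] [CharZero k] {N d : ℕ}

/-- differential of an eigenfunction of a single matrix -/
theorem T22_equiv {P : SS k N d} (B : Matrix (Fin (N + 1)) (Fin (N + 1)) k) (κ : k)
    (hP : ∀ c : Ix N d → k, eval (actT B c) P = κ * eval c P) (c v : Ix N d → k) :
    dd P (actT B c) (actT B v) = κ * dd P c v := by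
  have h1 : compT B P = C κ * P := by
    apply MvPolynomial.funext
    intro c
    rw [eval_compT, map_mul, eval_C]
    exact hP c
  have h2 := congrArg (aeval (fun p => algebraMap k (DualNumber k) (c p) +
    DualNumber.eps * algebraMap k (DualNumber k) (v p))) h1
  have h3 : actT (B.map (algebraMap k (DualNumber k))) (fun p => algebraMap k (DualNumber k) (c p) +
    DualNumber.eps * algebraMap k (DualNumber k) (v p)) =
      fun p => algebraMap k (DualNumber k) (actT B c p) +
        DualNumber.eps * algebraMap k (DualNumber k) (actT B v p) := by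
    have e1 : (fun p => algebraMap k (DualNumber k) (c p) +
        DualNumber.eps * algebraMap k (DualNumber k) (v p)) =
        (fun p => algebraMap k (DualNumber k) (c p)) +
          (DualNumber.eps : DualNumber k) • (fun p => algebraMap k (DualNumber k) (v p)) := rfl
    rw [e1, actT_add, actT_smul]
    funext p
    simp only [Pi.add_apply, Pi.smul_apply, smul_eq_mul]
    rw [map_actT, map_actT]
  rw [aeval_compT_S, h3, map_mul, algHom_C, eval_eps _ DualNumber.eps_mul_eps,
    eval_eps _ DualNumber.eps_mul_eps] at h2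
  have h4 := congrArg TrivSqZeroExt.snd h2
  rw [snd_form] at h4
  have h5 : algebraMap k (DualNumber k) κ * (algebraMap k (DualNumber k) (eval c P) +
      DualNumber.eps * algebraMap k (DualNumber k) (∑ p, v p * eval c (pderiv p P))) =
      algebraMap k (DualNumber k) (κ * eval c P) +
        DualNumber.eps * algebraMap k (DualNumber k)
          (κ * ∑ p, v p * eval c (pderiv p P)) := by
    rw [map_mul, map_mul]
    ring
  rw [h5, snd_form] at h4
  exact h4

/-- an invariant is an eigenfunction of every invertible matrix -/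
theorem T22_eigen (h : Matrix (Fin (N + 1)) (Fin (N + 1)) k) (hdet : h.det ≠ 0) :
    ∃ μ : k, μ ≠ 0 ∧ ∀ (δ : ℕ) (P : SS k N d), IsInv δ P → ∀ c : Ix N d → k,
      eval (actT h c) P = (μ ^ (N + d)) ^ δ * eval c P := by
  obtain ⟨μ, hμ⟩ := IsAlgClosed.exists_pow_nat_eq h.det (Nat.succ_pos N)
  have hμ0 : μ ≠ 0 := by
    rintro rfl
    rw [zero_pow (Nat.succ_ne_zero N)] at hμ
    exact hdet hμ.symm
  refine ⟨μ, hμ0, fun δ P hP c => ?_⟩
  have h1 : h = μ • (μ⁻¹ • h) := by rw [smul_smul, mul_inv_cancel₀ hμ0, one_smul]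
  have h2 : (μ⁻¹ • h).det = 1 := by
    rw [Matrix.det_smul, Fintype.card_fin, ← hμ, inv_pow, inv_mul_cancel₀ (pow_ne_zero _ hμ0)]
  conv_lhs => rw [h1, actT_smul_mat]
  have h3 : eval (μ ^ (N + d) • actT (μ⁻¹ • h) c) P =
      (μ ^ (N + d)) ^ δ * eval (actT (μ⁻¹ • h) c) P := eval_smul_hom hP.1 _ _
  rw [h3, hP.2 _ _ h2]

theorem T22_dda (P : SS k N d) (f v : Ix N d → k) : dda P f v = dd P f v := by
  unfold dda dd
  rfl

theorem der_action {f : Ix N d → k} (h : Matrix (Fin (N + 1)) (Fin (N + 1)) k)
    (hdet : h.det ≠ 0) (hh : actT h f = f) (v : Ix N d → k) (x : LV f) (hx : x ∈ OO f) :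
    der (Ω := k) (y := f) (fun _ h => h) (actT h v) x =
      der (Ω := k) (y := f) (fun _ h => h) v x := by
  obtain ⟨δ, a, b, ha, hb, hb0, hab⟩ := (mem_OO f x).mp hx
  obtain ⟨μ, hμ0, hμ⟩ := T22_eigen (d := d) h hdet
  have hκ : (μ ^ (N + d)) ^ δ = 1 := by
    have h1 := hμ δ b hb f
    rw [hh] at h1
    have h2 : ((μ ^ (N + d)) ^ δ - 1) * eval f b = 0 := by linear_combination -h1
    rcases mul_eq_zero.mp h2 with h3 | h3
    · exact sub_eq_zero.mp h3
    · exact absurd h3 hb0
  have key : ∀ P : SS k N d, IsInv δ P → dda P f (actT h v) = dda P f v := by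
    intro P hP
    have h1 := T22_equiv h ((μ ^ (N + d)) ^ δ) (hμ δ P hP) f v
    rw [hh, hκ, one_mul] at h1
    rw [T22_dda, T22_dda]
    exact h1
  have hm : ∀ u : Ix N d → k, eval f b * der (Ω := k) (y := f) (fun _ h => h) u x =
      dda a f u - evP (Ω := k) (y := f) (fun _ h => h) x * dda b f u := by
    intro u
    have h1 := der_mul (Ω := k) (y := f) (f := f) (fun _ h => h) u x (algebraMap (SS k N d) (LV f) b)
    rw [hab, der_algebraMap, der_algebraMap, evP_algebraMap] at h1
    have h2 : (aeval f b : k) = eval f b := rfl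
    rw [← h2]
    linear_combination -h1
  have h1 := hm (actT h v)
  rw [key a ha, key b hb, ← hm v] at h1
  exact mul_left_cancel₀ hb0 h1

end

end Pool.Agent.H919M
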