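import Pool.Agent.H919M.Defs
import Pool.Agent.H919M.T07

open MvPolynomial

namespace Pool.Agent.H919M

open Pool.Agent.Helper819.Dyn Pool.Agent.Helper819.Apolar

noncomputable section

set_option linter.unusedSectionVars false

section frame

variable {R : Type} [CommRing R] {N d s : ℕ}

/-- The rows of the frame matrix. -/
def frow (κ : Fin s → Ix N d) (y : Ix N d → R) :
    (Fin (N + 1) × Fin (N + 1)) ⊕ Fin s → Ix N d → R :=
  Sum.elim (fun ij => xi (Matrix.single ij.1 ij.2 1) y) (fun j => Pi.single (κ j) 1)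

/-- The frame matrix. -/
def fmat (κ : Fin s → Ix N d) (σ : (Fin (N + 1) × Fin (N + 1)) ⊕ Fin s ≃ Ix N d)
    (y : Ix N d → R) : Matrix (Ix N d) (Ix N d) R :=
  Matrix.of fun a p => frow κ y (σ.symm a) p

theorem xi_sum_single (A : Matrix (Fin (N + 1)) (Fin (N + 1)) R) (y : Ix N d → R) :
    xi A y = ∑ ij : Fin (N + 1) × Fin (N + 1), A ij.1 ij.2 • xi (Matrix.single ij.1 ij.2 1) y := by
  have h1 : A = ∑ ij : Fin (N + 1) × Fin (N + 1), A ij.1 ij.2 • Matrix.single ij.1 ij.2 (1 : R) := by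
    conv_lhs => rw [Matrix.matrix_eq_sum_single A]
    rw [Fintype.sum_prod_type]
    refine Finset.sum_congr rfl fun i _ => Finset.sum_congr rfl fun j _ => ?_
    rw [Matrix.smul_single, smul_eq_mul, mul_one]
  have h2 : xi A y = xiL y A := rfl
  rw [h2]
  conv_lhs => rw [h1]
  rw [map_sum]
  refine Finset.sum_congr rfl fun ij _ => ?_
  rw [map_smul]
  rfl

theorem vecMul_fmat (κ : Fin s → Ix N d) (σ : (Fin (N + 1) × Fin (N + 1)) ⊕ Fin s ≃ Ix N d)
    (y : Ix N d → R) (z : Ix N d → R) :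
    Matrix.vecMul z (fmat κ σ y) =
      xi (Matrix.of fun i j => z (σ (Sum.inl (i, j)))) y +
        ∑ j, z (σ (Sum.inr j)) • (Pi.single (κ j) (1 : R) : Ix N d → R) := by
  have h1 : Matrix.vecMul z (fmat κ σ y) = ∑ a, z a • frow κ y (σ.symm a) := by
    funext p
    rw [Finset.sum_apply]
    rfl
  rw [h1, ← Equiv.sum_comp σ, Fintype.sum_sum_type, xi_sum_single]
  simp only [Equiv.symm_apply_apply]
  rfl

theorem map_fmat {S : Type} [CommRing S] (φ : R →+* S) (κ : Fin s → Ix N d)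
    (σ : (Fin (N + 1) × Fin (N + 1)) ⊕ Fin s ≃ Ix N d) (y : Ix N d → R) :
    φ (fmat κ σ y).det = (fmat κ σ (fun p => φ (y p))).det := by
  rw [RingHom.map_det]
  congr 1
  ext a p
  change φ (frow κ y (σ.symm a) p) = frow κ (fun p => φ (y p)) (σ.symm a) p
  rcases σ.symm a with ij | j
  · change φ (xi (Matrix.single ij.1 ij.2 1) y p) = _
    rw [map_xi, Matrix.map_single, map_one]
    rfl
  · change φ ((Pi.single (κ j) 1 : Ix N d → R) p) = (Pi.single (κ j) 1 : Ix N d → S) p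
    by_cases hp : p = κ j
    · rw [hp, Pi.single_eq_same, Pi.single_eq_same, map_one]
    · rw [Pi.single_eq_of_ne hp, Pi.single_eq_of_ne hp, map_zero]

end frame

section field

variable {K : Type} [Field K] {N d s : ℕ}

theorem frame_span (κ : Fin s → Ix N d) (σ : (Fin (N + 1) × Fin (N + 1)) ⊕ Fin s ≃ Ix N d)
    (y : Ix N d → K) (hy : (fmat κ σ y).det ≠ 0) (v : Ix N d → K) :
    ∃ (A : Matrix (Fin (N + 1)) (Fin (N + 1)) K) (u : Fin s → K),
      v = xi A y + ∑ j, u j • (Pi.single (κ j) (1 : K) : Ix N d → K) := by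
  have h1 := vecMul_fmat κ σ y (Matrix.vecMul v (fmat κ σ y)⁻¹)
  rw [Matrix.vecMul_vecMul, Matrix.nonsing_inv_mul _ (isUnit_iff_ne_zero.mpr hy),
    Matrix.vecMul_one] at h1
  exact ⟨_, _, h1⟩

theorem frame_inj (κ : Fin s → Ix N d) (σ : (Fin (N + 1) × Fin (N + 1)) ⊕ Fin s ≃ Ix N d)
    (y : Ix N d → K) (hy : (fmat κ σ y).det ≠ 0) (A : Matrix (Fin (N + 1)) (Fin (N + 1)) K)
    (u : Fin s → K)
    (h : xi A y + ∑ j, u j • (Pi.single (κ j) (1 : K) : Ix N d → K) = 0) : A = 0 ∧ u = 0 := by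
  have h1 := vecMul_fmat κ σ y
    (fun a => Sum.elim (fun ij : Fin (N + 1) × Fin (N + 1) => A ij.1 ij.2) u (σ.symm a))
  simp only [Equiv.symm_apply_apply, Sum.elim_inl, Sum.elim_inr] at h1
  have h2 : (Matrix.of fun i j => A i j) = A := rfl
  rw [h2, h] at h1
  have h3 := Matrix.eq_zero_of_vecMul_eq_zero hy h1
  constructor
  · ext i j
    have := congrFun h3 (σ (Sum.inl (i, j)))
    simpa using this
  · funext j
    have := congrFun h3 (σ (Sum.inr j))
    simpa using this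

end field

variable {k : Type} [Field k] [IsAlgClosed k] [CharZero k] {N d : ℕ}

theorem exists_kappa (hd : 2 ≤ d) {f : Ix N d → k} (hf : NZ (tup f)) :
    ∃ (s : ℕ) (κ : Fin s → Ix N d), s + (N + 1) ^ 2 = Fintype.card (Ix N d) ∧
      ∀ (A : Matrix (Fin (N + 1)) (Fin (N + 1)) k) (u : Fin s → k),
        xi A f + ∑ j, u j • (Pi.single (κ j) (1 : k) : Ix N d → k) = 0 → A = 0 ∧ u = 0 := by
  classical
  let W : Submodule k (Ix N d → k) := LinearMap.range (xiL f)
  obtain ⟨ι, a, ha, hspan, hlin⟩ := exists_linearIndependent' k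
    (fun p : Ix N d => W.mkQ (Pi.single p (1 : k)))
  have : Finite ι := Finite.of_injective a ha
  have : Fintype ι := Fintype.ofFinite ι
  let e : ι ≃ Fin (Fintype.card ι) := Fintype.equivFin ι
  have hinj : Function.Injective (xiL f : Matrix (Fin (N + 1)) (Fin (N + 1)) k →ₗ[k] _) := by
    rw [← LinearMap.ker_eq_bot, LinearMap.ker_eq_bot']
    intro A hA
    exact xi_inj hd hf hA
  have hrW : Module.finrank k W = (N + 1) ^ 2 := by
    rw [LinearMap.finrank_range_of_inj hinj, Module.finrank_matrix, Module.finrank_self,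
      Fintype.card_fin]
    ring
  have htop : ⊤ ≤ Submodule.span k (Set.range
      ((fun p : Ix N d => W.mkQ (Pi.single p (1 : k))) ∘ a)) := by
    rw [hspan]
    have h1 : Set.range (fun p : Ix N d => W.mkQ (Pi.single p (1 : k))) =
        W.mkQ '' Set.range (Pi.basisFun k (Ix N d)) := by
      rw [← Set.range_comp]
      congr 1
      funext p
      simp
    rw [h1, Submodule.span_image, (Pi.basisFun k (Ix N d)).span_eq, Submodule.map_top,
      Submodule.range_mkQ]
  have hcard : Fintype.card ι = Module.finrank k ((Ix N d → k) ⧸ W) := by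
    rw [Module.finrank_eq_card_basis (Module.Basis.mk hlin htop)]
  have hsum := W.finrank_quotient_add_finrank
  rw [Module.finrank_fintype_fun_eq_card, hrW, ← hcard] at hsum
  refine ⟨Fintype.card ι, a ∘ e.symm, hsum, ?_⟩
  intro A u h
  have h1 : ∑ j, u j • W.mkQ (Pi.single ((a ∘ e.symm) j) (1 : k)) = 0 := by
    have h2 := congrArg W.mkQ h
    rw [map_add, map_sum, map_zero] at h2
    have h3 : W.mkQ (xi A f) = 0 := by
      rw [Submodule.mkQ_apply, Submodule.Quotient.mk_eq_zero]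
      exact ⟨A, rfl⟩
    rw [h3, zero_add] at h2
    rw [← h2]
    exact Finset.sum_congr rfl fun j _ => (map_smul _ _ _).symm
  have hu : u = 0 := by
    have h4 := hlin.comp e.symm e.symm.injective
    rw [Fintype.linearIndependent_iff] at h4
    funext j
    exact h4 u h1 j
  subst hu
  refine ⟨?_, rfl⟩
  simp only [Pi.zero_apply, zero_smul, Finset.sum_const_zero, add_zero] at h
  exact xi_inj hd hf h

theorem exists_frame (hd : 2 ≤ d) {f : Ix N d → k} (hf : NZ (tup f)) :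
    ∃ (s : ℕ) (κ : Fin s → Ix N d) (Δ : SS k N d), s + (N + 1) ^ 2 = Fintype.card (Ix N d) ∧
      eval f Δ ≠ 0 ∧ ∀ (Ω : Type) [Field Ω] [Algebra k Ω] (y : Ix N d → Ω),
        aeval y Δ ≠ 0 → (∀ v : Ix N d → Ω, ∃ (A : Matrix (Fin (N + 1)) (Fin (N + 1)) Ω)
          (u : Fin s → Ω), v = xi A y + ∑ j, u j • (Pi.single (κ j) (1 : Ω) : Ix N d → Ω)) ∧
        ∀ (A : Matrix (Fin (N + 1)) (Fin (N + 1)) Ω) (u : Fin s → Ω),
          xi A y + ∑ j, u j • (Pi.single (κ j) (1 : Ω) : Ix N d → Ω) = 0 → A = 0 ∧ u = 0 := by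
  classical
  obtain ⟨s, κ, hs, hκ⟩ := exists_kappa hd hf
  have hcard : Fintype.card ((Fin (N + 1) × Fin (N + 1)) ⊕ Fin s) = Fintype.card (Ix N d) := by
    rw [← hs, Fintype.card_sum, Fintype.card_prod, Fintype.card_fin, Fintype.card_fin]
    ring
  let σ : (Fin (N + 1) × Fin (N + 1)) ⊕ Fin s ≃ Ix N d := Fintype.equivOfCardEq hcard
  refine ⟨s, κ, (fmat κ σ (X : Ix N d → SS k N d)).det, hs, ?_, ?_⟩
  · rw [map_fmat (eval f)]
    simp only [eval_X]
    intro h0
    obtain ⟨z, hz, hz0⟩ := Matrix.exists_vecMul_eq_zero_iff.mpr h0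
    have h1 : (fmat κ σ (fun p => f p)) = fmat κ σ f := rfl
    rw [h1, vecMul_fmat] at hz0
    obtain ⟨h2, h3⟩ := hκ _ _ hz0
    apply hz
    funext a
    obtain ⟨b, rfl⟩ := σ.surjective a
    rcases b with ⟨i, j⟩ | j
    · exact congrFun (congrFun h2 i) j
    · exact congrFun h3 j
  · intro Ω _ _ y hy
    have h1 : aeval y (fmat κ σ (X : Ix N d → SS k N d)).det = (fmat κ σ y).det := by
      have h2 := map_fmat ((aeval y : SS k N d →ₐ[k] Ω) : SS k N d →+* Ω) κ σ X
      simp only [RingHom.coe_coe, aeval_X] at h2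
      exact h2
    rw [h1] at hy
    exact ⟨frame_span κ σ y hy, frame_inj κ σ y hy⟩

end

end Pool.Agent.H919M
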