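import Pool.Agent.H919M.Defs

open MvPolynomial

namespace Pool.Agent.H919M

open Pool.Agent.Helper819.Dyn Pool.Agent.Helper819.Apolar

noncomputable section

set_option linter.unusedSectionVars false

section X

variable {k : Type} [Field k] {N d : ℕ}

/-- quotient rule -/
theorem der_frac {Ω : Type} [Field Ω] [Algebra k Ω] {f : Ix N d → k} {y : Ix N d → Ω}
    (hs : Spz f y) (v : Ix N d → Ω) {x : LV f} {a b : SS k N d}
    (hx : x * algebraMap (SS k N d) (LV f) b = algebraMap (SS k N d) (LV f) a) :
    (aeval y b) ^ 2 * der hs v x = aeval y b * dda a y v - aeval y a * dda b y v := by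
  have h1 := congrArg (der hs v) hx
  rw [der_mul, der_algebraMap, der_algebraMap, evP_algebraMap] at h1
  have h2 := congrArg (evP hs) hx
  rw [map_mul, evP_algebraMap, evP_algebraMap] at h2
  rw [← h1, ← h2]
  ring

theorem spz_self (f : Ix N d → k) : Spz (Ω := k) f f := fun _ h => h

theorem evP_const (f : Ix N d → k) (a : k) :
    evP (spz_self f) (algebraMap k (LV f) a) = a := by
  rw [IsScalarTower.algebraMap_apply k (SS k N d) (LV f), evP_algebraMap]
  simp

/-- evaluation at the point itself, on the local ring of the quotient -/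
def evQ (f : Ix N d → k) : OO f →+* k := (evP (spz_self f)).comp (OO f).val.toRingHom

theorem evQ_apply (f : Ix N d → k) (x : OO f) : evQ f x = evP (spz_self f) (x : LV f) := rfl

theorem evQ_const (f : Ix N d → k) (a : k) : evQ f (algebraMap k (OO f) a) = a :=
  evP_const f a

theorem evP_surj (f : Ix N d → k) : Function.Surjective (evQ f) :=
  fun a => ⟨algebraMap k (OO f) a, evQ_const f a⟩

theorem ker_evQ (f : Ix N d → k) [IsLocalRing (OO f)] :
    RingHom.ker (evQ f) = IsLocalRing.maximalIdeal (OO f) := by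
  apply IsLocalRing.eq_maximalIdeal
  exact RingHom.ker_isMaximal_of_surjective (evQ f) (evP_surj f)

theorem exists_gens {R : Type} [CommRing R] (I : Ideal R) (hI : I.FG) :
    ∃ b : Fin I.spanFinrank → R, Ideal.span (Set.range b) = I := by
  obtain ⟨S, hS1, hS2⟩ := Submodule.FG.exists_span_finset_card_eq_spanFinrank hI
  let g : Fin I.spanFinrank ≃ S :=
    (Fintype.equivFinOfCardEq (by rw [Fintype.card_coe]; exact hS1)).symm
  refine ⟨fun i => (g i : R), ?_⟩
  have hr : Set.range (fun i => (g i : R)) = (S : Set R) := by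
    ext z
    constructor
    · rintro ⟨i, rfl⟩
      exact (g i).2
    · intro hz
      exact ⟨g.symm ⟨z, hz⟩, by simp⟩
  rw [hr]
  exact hS2

theorem span_params {f : Ix N d → k} [IsLocalRing (OO f)] {e : ℕ} (b : Fin e → OO f)
    (hb : Ideal.span (Set.range b) = IsLocalRing.maximalIdeal (OO f)) :
    (∀ x ∈ OO f, ∃ (a₀ : k) (a : Fin e → LV f), (∀ i, a i ∈ OO f) ∧
      x = algebraMap k (LV f) a₀ + ∑ i, a i * (b i : LV f)) ∧
    ∀ i, evP (spz_self f) (b i : LV f) = 0 := by
  constructor
  · intro x hx
    obtain ⟨z, hz⟩ : ∃ z : OO f, (z : LV f) = x := ⟨⟨x, hx⟩, rfl⟩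
    have h1 : z + algebraMap k (OO f) (-(evQ f z)) ∈ Ideal.span (Set.range b) := by
      rw [hb, ← ker_evQ, RingHom.mem_ker, map_add, evQ_const, add_neg_cancel]
    obtain ⟨c, hc⟩ := Ideal.mem_span_range_iff_exists_fun.mp h1
    refine ⟨evQ f z, fun i => (c i : LV f), fun i => (c i).2, ?_⟩
    have h2 := congrArg (OO f).val hc
    rw [map_sum, map_add] at h2
    simp only [map_mul] at h2
    have h3 : (OO f).val z = x := hz
    have h4 : (OO f).val (algebraMap k (OO f) (-(evQ f z))) =
        algebraMap k (LV f) (-(evQ f z)) := rfl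
    rw [h3, h4] at h2
    have h5 : ∑ i, (c i : LV f) * (b i : LV f) = x + algebraMap k (LV f) (-(evQ f z)) := h2
    rw [h5, map_neg]
    ring
  · intro i
    have h1 : b i ∈ RingHom.ker (evQ f) := by
      rw [ker_evQ, ← hb]
      exact Ideal.subset_span ⟨i, rfl⟩
    exact h1

end X

end

end Pool.Agent.H919M
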