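import Pool.Agent.H919M.T24a
import Pool.Agent.H919M.T02
import Pool.Agent.H919M.T14
import Pool.Agent.H919M.T15
import Pool.Agent.H919M.T17
import Pool.Agent.H919M.T18

open MvPolynomial

namespace Pool.Agent.H919M

open Pool.Agent.Helper819.Dyn Pool.Agent.Helper819.Apolar

noncomputable section

set_option linter.unusedSectionVars false

variable {k : Type} [Field k] {N d : ℕ}

/-- numerator of the derivative of the fraction `a / b` in the coordinate direction `p` -/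
def om (a b : SS k N d) (p : Ix N d) : SS k N d := b * pderiv p a - a * pderiv p b

/-- coordinate combination -/
def cvec {Ω : Type} [Field Ω] {s : ℕ} (κ : Fin s → Ix N d) (u : Fin s → Ω) : Ix N d → Ω :=
  ∑ j, u j • (Pi.single (κ j) (1 : Ω) : Ix N d → Ω)

theorem dda_cvec {Ω : Type} [Field Ω] [Algebra k Ω] {s : ℕ} (κ : Fin s → Ix N d)
    (u : Fin s → Ω) (y : Ix N d → Ω) (P : SS k N d) :
    dda P y (cvec κ u) = ∑ j, u j * aeval y (pderiv (κ j) P) := by
  unfold dda cvec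
  simp only [Finset.sum_apply, Pi.smul_apply, smul_eq_mul, Finset.sum_mul]
  rw [Finset.sum_comm]
  refine Finset.sum_congr rfl fun j _ => ?_
  rw [Finset.sum_eq_single (κ j)]
  · simp
  · intro p _ hp
    rw [Pi.single_eq_of_ne hp]; simp
  · simp

theorem der_cvec {Ω : Type} [Field Ω] [Algebra k Ω] {s : ℕ} (κ : Fin s → Ix N d)
    (u : Fin s → Ω) {f : Ix N d → k} {y : Ix N d → Ω} (hs : Spz f y) {x : LV f}
    {a b : SS k N d}
    (hx : x * algebraMap (SS k N d) (LV f) b = algebraMap (SS k N d) (LV f) a) :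
    (aeval y b) ^ 2 * der hs (cvec κ u) x = ∑ j, aeval y (om a b (κ j)) * u j := by
  rw [der_frac hs _ hx, dda_cvec, dda_cvec, Finset.mul_sum, Finset.mul_sum,
    ← Finset.sum_sub_distrib]
  refine Finset.sum_congr rfl fun j _ => ?_
  unfold om
  rw [map_sub, map_mul, map_mul]
  ring

/-- the matrix -/
def MM {s e : ℕ} (κ : Fin s → Ix N d) (α β : Fin e → SS k N d) :
    Matrix (Fin s) (Fin s) (SS k N d) := Matrix.of fun i j =>
  if h : i.1 < e then om (α ⟨i.1, h⟩) (β ⟨i.1, h⟩) (κ j) else 0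

theorem MM_mulVec {Ω : Type} [Field Ω] [Algebra k Ω] {s e : ℕ} (κ : Fin s → Ix N d)
    (α β : Fin e → SS k N d) (y : Ix N d → Ω) (u : Fin s → Ω) (i : Fin s) (hi : i.1 < e) :
    ((MM κ α β).map (aeval y : SS k N d →ₐ[k] Ω)).mulVec u i =
      ∑ j, aeval y (om (α ⟨i.1, hi⟩) (β ⟨i.1, hi⟩) (κ j)) * u j := by
  unfold Matrix.mulVec dotProduct
  refine Finset.sum_congr rfl fun j _ => ?_
  have : MM κ α β i j = om (α ⟨i.1, hi⟩) (β ⟨i.1, hi⟩) (κ j) := by
    unfold MM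
    rw [Matrix.of_apply, dif_pos hi]
  rw [← this]
  rfl

theorem det_map_aeval {Ω : Type} [Field Ω] [Algebra k Ω] {s : ℕ}
    (M : Matrix (Fin s) (Fin s) (SS k N d)) (y : Ix N d → Ω) :
    (M.map (aeval y : SS k N d →ₐ[k] Ω)).det = aeval y M.det := by
  rw [AlgHom.map_det]
  rfl

variable [IsAlgClosed k] [CharZero k]

theorem case_degenerate (hN : 2 ≤ N) (hd : 2 ≤ d) {f : Ix N d → k} (hf : NZ (tup f))
    {s e : ℕ} (hes : e ≤ s) (κ : Fin s → Ix N d) (Δ : SS k N d)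
    (hΔ : eval f Δ ≠ 0) (hframe : ∀ (Ω : Type) [Field Ω] [Algebra k Ω] (y : Ix N d → Ω),
        aeval y Δ ≠ 0 → ∀ (A : Matrix (Fin (N + 1)) (Fin (N + 1)) Ω) (u : Fin s → Ω),
          xi A y + cvec κ u = 0 → A = 0 ∧ u = 0)
    (b : Fin e → LV f) (hb0 : ∀ i, evP (spz_self f) (b i) = 0)
    (hspan : ∀ x ∈ OO f, ∃ (a₀ : k) (a : Fin e → LV f), (∀ i, a i ∈ OO f) ∧
      x = algebraMap k (LV f) a₀ + ∑ i, a i * b i)
    (α β : Fin e → SS k N d) (hβ0 : ∀ i, eval f (β i) ≠ 0)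
    (hαβ : ∀ i, b i * algebraMap (SS k N d) (LV f) (β i) = algebraMap (SS k N d) (LV f) (α i))
    (hφ : eval f (MM κ α β).det = 0) : False := by
  have hne : Nonempty (Ix N d) :=
    ⟨(0, ⟨Finsupp.single 0 d, (mem_Ex _).mpr (Finsupp.degree_single _ _)⟩)⟩
  obtain ⟨Ω, _, _, _, _, y, p₀, hy1, hy2, hy3⟩ := exists_generic f (MM κ α β).det hφ
  have hs : Spz f y := hy2
  obtain ⟨P, hP1, hP2⟩ := NZ_gen hf
  have hyNZ : NZ (tup y) := hP2 Ω y (fun h => hP1 (hy2 P h))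
  have hyF : Free y := free_of_indep hN hd hyNZ p₀ hy3
  have hΔy : aeval y Δ ≠ 0 := fun h => hΔ (hy2 Δ h)
  obtain ⟨u, hu0, hu⟩ : ∃ u : Fin s → Ω, u ≠ 0 ∧
      ((MM κ α β).map (aeval y : SS k N d →ₐ[k] Ω)).mulVec u = 0 := by
    apply Matrix.exists_mulVec_eq_zero_iff.mpr
    rw [det_map_aeval, hy1]
  have hD : ∀ i, der hs (cvec κ u) (b i) = 0 := by
    intro i
    have h1 := der_cvec κ u hs (hαβ i)
    have h2 := MM_mulVec κ α β y u ⟨i.1, by omega⟩ i.2
    rw [hu, Pi.zero_apply] at h2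
    rw [← h2] at h1
    refine (mul_eq_zero.mp h1).resolve_left (pow_ne_zero _ ?_)
    exact fun h => hβ0 i (hy2 _ h)
  have h2 := der_zero hs _ b hb0 hspan hD
  obtain ⟨A, hA⟩ := tangent_of_der hd hf hs hyNZ hyF _ h2
  have h3 := hframe Ω y hΔy (-A) u (by
    rw [hA]
    have : xi (-A) y = - xi A y := (xiL y).map_neg A
    rw [this]; simp)
  exact hu0 h3.2

end

end Pool.Agent.H919M
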