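import Pool.Agent.H919M.T24b
import Pool.Agent.H919M.T19
import Pool.Agent.H919M.T20
import Pool.Agent.H919M.T21
import Pool.Agent.H919M.T22
import Pool.Agent.H919M.T23

open MvPolynomial

namespace Pool.Agent.H919M

open Pool.Agent.Helper819.Dyn Pool.Agent.Helper819.Apolar

noncomputable section

set_option linter.unusedSectionVars false

variable {k : Type} [Field k] [IsAlgClosed k] [CharZero k] {N d : ℕ}

theorem dda_add {Ω : Type} [CommRing Ω] [Algebra k Ω] (P : SS k N d) (y v v' : Ix N d → Ω) :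
    dda P y (v + v') = dda P y v + dda P y v' := by
  unfold dda
  rw [← Finset.sum_add_distrib]
  refine Finset.sum_congr rfl fun p _ => ?_
  rw [Pi.add_apply, add_mul]

theorem case_nondegenerate (hN : 2 ≤ N) (hd : 2 ≤ d) {f : Ix N d → k} (hf : NZ (tup f))
    (hnf : ¬ Free f) {s e : ℕ} (hes : e ≤ s) (κ : Fin s → Ix N d)
    (hframe : ∀ v : Ix N d → k, ∃ (A : Matrix (Fin (N + 1)) (Fin (N + 1)) k) (u : Fin s → k),
          v = xi A f + cvec κ u)
    (b : Fin e → LV f) (hbO : ∀ i, b i ∈ OO f)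
    (α β : Fin e → SS k N d) (hβ0 : ∀ i, eval f (β i) ≠ 0)
    (hαβ : ∀ i, b i * algebraMap (SS k N d) (LV f) (β i) = algebraMap (SS k N d) (LV f) (α i))
    (hφ : eval f (MM κ α β).det ≠ 0) : False := by
  have hs0 : Spz (Ω := k) f f := spz_self f
  have hnf' : ∃ h : Matrix (Fin (N + 1)) (Fin (N + 1)) k, h.det ≠ 0 ∧ actT h f = f ∧
      ∀ μ : k, h ≠ μ • (1 : Matrix (Fin (N + 1)) (Fin (N + 1)) k) := by
    unfold Free at hnf
    push Not at hnf
    exact hnf
  obtain ⟨h, hdet, hh, hns⟩ := hnf'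
  obtain ⟨v, hv⟩ := normal_action hN hd hf h hdet hh hns
  obtain ⟨A, u, hAu⟩ := hframe (actT h v - v)
  have hes' : e = s := by
    by_contra hne
    apply hφ
    have h1 : (MM κ α β).det = 0 := by
      apply Matrix.det_eq_zero_of_row_eq_zero (⟨e, by omega⟩ : Fin s)
      intro j
      unfold MM
      rw [Matrix.of_apply, dif_neg (by simp)]
    rw [h1, map_zero]
  have h5 : actT h v = v + (xi A f + cvec κ u) := by
    rw [← hAu]; abel
  have hadd : ∀ P : SS k N d, dda P f (actT h v) = dda P f v + (dda P f (xi A f) +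
      dda P f (cvec κ u)) := by
    intro P
    rw [h5, dda_add, dda_add]
  have h2 : ∀ i : Fin e, der hs0 (cvec κ u) (b i) = 0 := by
    intro i
    have e1 := der_frac hs0 (actT h v) (hαβ i)
    have e2 := der_frac hs0 v (hαβ i)
    have e3 := der_frac hs0 (xi A f) (hαβ i)
    have e4 := der_frac hs0 (cvec κ u) (hαβ i)
    have e5 : der hs0 (actT h v) (b i) = der hs0 v (b i) := der_action h hdet hh v _ (hbO i)
    have e6 := der_xi hs0 A _ (hbO i)
    rw [hadd, hadd, e5] at e1
    rw [e6] at e3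
    have hβf : (aeval f (β i) : k) ^ 2 ≠ 0 := by
      apply pow_ne_zero
      exact fun h0 => hβ0 i h0
    apply mul_left_cancel₀ hβf
    linear_combination e4 - e1 + e2 + e3
  have hu : ((MM κ α β).map (aeval f : SS k N d →ₐ[k] k)).mulVec u = 0 := by
    funext i
    have hi : i.1 < e := by omega
    rw [MM_mulVec κ α β f u i hi, ← der_cvec κ u hs0 (hαβ ⟨i.1, hi⟩), h2, mul_zero]
    rfl
  have hu0 : u = 0 := by
    by_contra hne
    have h1 : ((MM κ α β).map (aeval f : SS k N d →ₐ[k] k)).det = 0 :=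
      Matrix.exists_mulVec_eq_zero_iff.mp ⟨u, hne, hu⟩
    rw [det_map_aeval] at h1
    exact hφ h1
  apply hv A
  rw [hAu, hu0]
  unfold cvec
  simp

theorem reg_params {R : Type} [CommRing R] (h : IsRegularLocalRing R) :
    ∃ (e : ℕ) (b : Fin e → R), ((e : ℕ) : WithBot ℕ∞) = ringKrullDim R ∧
      ∃ _ : IsLocalRing R, Ideal.span (Set.range b) = IsLocalRing.maximalIdeal R := by
  obtain ⟨b, hb⟩ := exists_gens (IsLocalRing.maximalIdeal R)
    ((isNoetherianRing_iff_ideal_fg R).mp inferInstance _)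
  exact ⟨_, b, h.spanFinrank_maximalIdeal, inferInstance, hb⟩

theorem not_regular (hN : 2 ≤ N) (hd : 2 ≤ d) {f : Ix N d → k} (hf : NZ (tup f))
    (hnf : ¬ Free f) : ¬ IsRegularLocalRing (OO f) := by
  intro hreg
  obtain ⟨s, κ, Δ, hsc, hΔ, hframe⟩ := exists_frame hd hf
  obtain ⟨e, b, hdim, hloc, hb⟩ := reg_params hreg
  have hes : e ≤ s := by
    have h1 : ringKrullDim (OO f) ≤ ((s : ℕ) : WithBot ℕ∞) := by
      unfold ringKrullDim Order.krullDim
      apply iSup_le
      intro l
      have h2 := krull_le hd hf (m := l.length) l.toFun l.strictMono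
      have h3 : l.length ≤ s := by omega
      exact_mod_cast h3
    rw [← hdim] at h1
    exact_mod_cast h1
  obtain ⟨hspan, hb0⟩ := span_params b hb
  choose δ α β hα hβ hβ0 hαβ using fun i => (mem_OO f (b i : LV f)).mp (b i).2
  by_cases hφ : eval f (MM κ α β).det = 0
  · exact case_degenerate hN hd hf hes κ Δ hΔ (fun Ω _ _ y hy => (hframe Ω y hy).2)
      (fun i => (b i : LV f)) hb0 hspan α β hβ0 hαβ hφ
  · refine case_nondegenerate hN hd hf hnf hes κ (hframe k f ?_).1
      (fun i => (b i : LV f)) (fun i => (b i).2) α β hβ0 hαβ hφ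
    exact fun h0 => hΔ h0

end

end Pool.Agent.H919M
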